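import Pool.Agent.H526.GQ.Stm

/-!
# The Poisson law for all `D` (task ALL)
-/

set_option autoImplicit false

namespace Pool.Agent.H526.GQ.AllAsm

open Polynomial
open scoped Classical
open Pool.Agent.H694.Typ (Mn mem_Mn PU mem_PU Irn mem_Irn pol pol_degree pol_inj exists_pol)

theorem bl_mono {K : Type} [Field K] [Fintype K] {D D' : ℕ} (h : D ≤ D') {u : K[X]}
    (hu : u ∈ Bl K D) : u ∈ Bl K D' := mem_Bl.2 ((mem_Bl.1 hu).trans h)

theorem ex_mono {K : Type} [Field K] [Fintype K] {n m D D' : ℕ} (h : D ≤ D') (S : Finset K[X])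
    (σ : K[X] → ℤ) : Ex n m D' S σ ⊆ Ex n m D S σ := by
  intro f hf
  unfold Ex at hf ⊢
  rw [Finset.mem_filter] at hf ⊢
  exact ⟨hf.1, fun u hu => hf.2.1 u (bl_mono h hu), hf.2.2⟩

theorem ex_sub {K : Type} [Field K] [Fintype K] {n m D : ℕ} {S : Finset K[X]}
    (hS : S ⊆ Bl K D) (σ : K[X] → ℤ) : Ex n m D S σ ⊆
      (Mn K n).filter (fun f => (∀ t ∈ S ∪ ∅, Sft m (f + t)) ∧ ∀ s ∈ S, mob (f + s) = σ s) := by
  intro f hf
  unfold Ex at hf
  rw [Finset.mem_filter] at hf ⊢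
  refine ⟨hf.1, fun t ht => ?_, hf.2.2⟩
  rw [Finset.union_empty] at ht
  exact (hf.2.1 t (hS ht)).2 ht

theorem real_part {x x₀ ε W E E₀ H c : ℝ} (hc : 1 ≤ c) (hx : 0 ≤ x) (hxx : x ≤ x₀)
    (hx₀ : x₀ ≤ ε / 4) (hW : 0 ≤ W) (hε : 0 < ε) (h1 : E₀ ≤ E) (h2 : E ≤ H)
    (h3 : |E₀ - Real.exp (-x₀) * W / c| ≤ ε / 2 * W) (h4 : |H - W / c| ≤ ε / 4 * W) :
    |E - Real.exp (-x) * W / c| ≤ ε * W := by
  have e1 : 1 - x₀ ≤ Real.exp (-x₀) := by
    have := Real.add_one_le_exp (-x₀)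
    linarith
  have e2 : 1 - x ≤ Real.exp (-x) := by
    have := Real.add_one_le_exp (-x)
    linarith
  have e3 : Real.exp (-x) ≤ 1 := Real.exp_le_one_iff.2 (by linarith)
  have hc0 : 0 < c := by linarith
  obtain ⟨V, hV⟩ : ∃ V, V = W / c := ⟨_, rfl⟩
  have hV0 : 0 ≤ V := by rw [hV]; positivity
  have hVW : V ≤ W := by
    rw [hV]
    exact div_le_self hW hc
  rw [mul_div_assoc, ← hV] at h3
  rw [← hV] at h4
  rw [mul_div_assoc, ← hV]
  rw [abs_le] at h3 h4 ⊢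
  have f1 : (1 - x₀) * V ≤ Real.exp (-x₀) * V := mul_le_mul_of_nonneg_right e1 hV0
  have f2 : (1 - x) * V ≤ Real.exp (-x) * V := mul_le_mul_of_nonneg_right e2 hV0
  have f3 : Real.exp (-x) * V ≤ 1 * V := mul_le_mul_of_nonneg_right e3 hV0
  have f4 : x₀ * V ≤ ε / 4 * W := mul_le_mul hx₀ hVW hV0 (by linarith)
  have f5 : x * V ≤ ε / 4 * W := mul_le_mul (hxx.trans hx₀) hVW hV0 (by linarith)
  have f6 : 0 ≤ ε * W := mul_nonneg hε.le hW
  constructor
  · nlinarith [h3.1, h3.2, h4.1, h4.2]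
  · nlinarith [h3.1, h3.2, h4.1, h4.2]

theorem main : S_allasm := by
  intro hpois hhalf hmer K _ _ _ k A ε hA hε
  obtain ⟨κ₁, hκ₁, M₁, D₀, h1⟩ := hpois K k A (ε / 2) hA (by linarith)
  obtain ⟨κ₂, hκ₂, M₂, h2⟩ := hhalf K k 0 (ε / 4) (by linarith)
  have hm := (hmer K).1
  have hq : (1 : ℝ) ≤ (Fintype.card K : ℝ) := by
    exact_mod_cast Nat.one_le_iff_ne_zero.2 Fintype.card_ne_zero
  have hq0 : (0 : ℝ) < (Fintype.card K : ℝ) := by linarith
  obtain ⟨M₃, hM₃⟩ := exists_nat_ge (4 * (Fintype.card K : ℝ) ^ (D₀ + 1) / ε)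
  obtain ⟨M₄, hM₄⟩ := exists_nat_ge ((Fintype.card K : ℝ) ^ (D₀ + 1) / A)
  refine ⟨min κ₁ κ₂, lt_min hκ₁ hκ₂, M₁ + M₂ + M₃ + M₄ + D₀ + 1, ?_⟩
  intro n m hn hmM hmn D hD S hS hSk σ hσ
  have hn0 : (0 : ℝ) ≤ (n : ℝ) := Nat.cast_nonneg n
  have hmn1 : (m : ℝ) ≤ κ₁ * n := hmn.trans (mul_le_mul_of_nonneg_right (min_le_left _ _) hn0)
  have hmn2 : (m : ℝ) ≤ κ₂ * n := hmn.trans (mul_le_mul_of_nonneg_right (min_le_right _ _) hn0)
  rcases le_or_gt D₀ D with hDD | hDD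
  · have h3 := h1 n m (by omega) (by omega) hmn1 D hDD hD S hS hSk σ hσ
    have h4 : 0 ≤ ε / 2 * (vf S m * (Fintype.card K : ℝ) ^ n) := (abs_nonneg _).trans h3
    refine h3.trans ?_
    linarith
  · have hS0 : S ⊆ Bl K D₀ := fun u hu => bl_mono hDD.le (hS hu)
    have hAm : (Fintype.card K : ℝ) ^ (D₀ + 1) ≤ A * m := by
      have e1 : (M₄ : ℝ) ≤ m := by exact_mod_cast (by omega : M₄ ≤ m)
      have e2 := hM₄.trans e1
      rw [div_le_iff₀ hA] at e2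
      linarith
    have h3 := h1 n m (by omega) (by omega) hmn1 D₀ le_rfl hAm S hS0 hSk σ hσ
    have h4 := h2 n m (by omega) (by omega) hmn2 S ∅ hSk Finset.card_empty
      (Finset.disjoint_empty_right S) (fun t ht => by
        rw [Finset.union_empty] at ht
        have := mem_Bl.1 (hS ht)
        omega) σ hσ
    have hVm0 : 0 ≤ Vm K m := by
      unfold Vm
      refine Finset.prod_nonneg fun P _ => ?_
      have e1 : (1 : ℝ) ≤ (Fintype.card K : ℝ) ^ P.natDegree := one_le_pow₀ hq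
      have e2 : 1 / (Fintype.card K : ℝ) ^ P.natDegree ≤ 1 := by
        rw [div_le_one (by linarith)]
        exact e1
      linarith
    have hVS : vf (S ∪ ∅) m = vf S m := by rw [Finset.union_empty]
    rw [hVS] at h4
    have hx0 : (Fintype.card K : ℝ) ^ (D₀ + 1) * Vm K m ≤ ε / 4 := by
      have e1 : (M₃ : ℝ) ≤ m := by exact_mod_cast (by omega : M₃ ≤ m)
      have e2 := hM₃.trans e1
      rw [div_le_iff₀ hε] at e2
      have e3 : (Fintype.card K : ℝ) ^ (D₀ + 1) * Vm K m ≤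
          (Fintype.card K : ℝ) ^ (D₀ + 1) * (1 / ((m : ℝ) + 1)) :=
        mul_le_mul_of_nonneg_left (hm m) (by positivity)
      refine e3.trans ?_
      have hm0 : (0 : ℝ) ≤ (m : ℝ) := Nat.cast_nonneg m
      rw [mul_one_div, div_le_iff₀ (by linarith)]
      nlinarith
    refine real_part (x₀ := (Fintype.card K : ℝ) ^ (D₀ + 1) * Vm K m)
      (E₀ := ((Ex n m D₀ S σ).card : ℝ))
      (H := (((Mn K n).filter (fun f => (∀ t ∈ S ∪ ∅, Sft m (f + t)) ∧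
        ∀ s ∈ S, mob (f + s) = σ s)).card : ℝ))
      (one_le_pow₀ (by norm_num)) (by positivity) ?_ hx0 ?_ hε ?_ ?_ h3 h4
    · refine mul_le_mul_of_nonneg_right ?_ hVm0
      exact pow_le_pow_right₀ hq (by omega)
    · have e1 := (abs_nonneg _).trans h4
      by_contra hlt
      rw [not_le] at hlt
      have : ε / 4 * (vf S m * (Fintype.card K : ℝ) ^ n) < 0 := mul_neg_of_pos_of_neg (by linarith) hlt
      linarith
    · exact_mod_cast Finset.card_le_card (ex_mono hDD.le S σ)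
    · exact_mod_cast Finset.card_le_card (ex_sub hS σ)

end Pool.Agent.H526.GQ.AllAsm
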