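import Pool.Agent.H526.GQ.Inst
import Pool.Agent.H985.Par.Few

/-!
# Final steps of project GQ (helper526): admissible constellations and pairs
-/

set_option autoImplicit false

namespace Pool.Agent.H526.GQ.Fin

open Polynomial
open scoped Classical
open Pool.Agent.H694.Typ (Mn mem_Mn PU mem_PU)
open Pool.Agent.H526.GQ

variable {K : Type} [Field K] [Fintype K]

/-- lower bound for the density of an admissible set -/
theorem vf_low (K : Type) [Field K] [Fintype K] [CharP K 2] (k : ℕ) : ∃ c : ℝ, 0 < c ∧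
    ∃ κ : ℝ, 0 < κ ∧ ∃ M : ℕ, ∀ n m : ℕ, M ≤ n → M ≤ m → (m : ℝ) ≤ κ * n →
      ∀ S : Finset K[X], S.card = k → (∀ s ∈ S, s.natDegree < n) →
      (∀ P : K[X], P.Monic → Irreducible P → ∃ x : K[X], ∀ s ∈ S, ¬ P ∣ x + s) →
        c / (m : ℝ) ^ k ≤ vf S m := by
  obtain ⟨c, hc, A, hA⟩ := Pool.Agent.H985.Par.s_low K k
  obtain ⟨κ, hκ, M, hM⟩ := Inst.s_cnt K k 1 one_pos
  refine ⟨c / 2, by positivity, min κ (1 / (A + 1)), lt_min hκ (by positivity), max M 1,
    fun n m hn hm hmκ S hS hdeg hadm => ?_⟩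
  have hm1 : 1 ≤ m := le_trans (le_max_right _ _) hm
  have hAm : A * m ≤ n := by
    have h2 : (m : ℝ) ≤ 1 / (A + 1) * n :=
      hmκ.trans (mul_le_mul_of_nonneg_right (min_le_right _ _) (by positivity))
    have h3 : ((A : ℝ) + 1) * m ≤ n := by
      calc ((A : ℝ) + 1) * m ≤ (A + 1) * (1 / (A + 1) * n) :=
            mul_le_mul_of_nonneg_left h2 (by positivity)
        _ = n := by field_simp
    have h4 : (A + 1) * m ≤ n := by exact_mod_cast h3
    nlinarith
  have h1 := (hA n m hm1 hAm (fun i => ((S.equivFinOfCardEq hS).symm i : K[X]))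
    (fun i j hij => (S.equivFinOfCardEq hS).symm.injective (Subtype.ext hij))
    (fun i => hdeg _ ((S.equivFinOfCardEq hS).symm i).2)
    (fun P hP hPi => by
      obtain ⟨x, hx⟩ := hadm P hP hPi
      exact ⟨x, fun i => hx _ ((S.equivFinOfCardEq hS).symm i).2⟩)).1
  have e : Pool.Agent.H985.Par.Sfs K (fun i => ((S.equivFinOfCardEq hS).symm i : K[X])) n m =
      (Mn K n).filter (fun f => ∀ t ∈ S, Sft m (f + t)) := by
    unfold Pool.Agent.H985.Par.Sfs
    refine Finset.filter_congr fun f _ => ?_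
    exact Inst.all_iff S hS (fun t => Sft m (f + t))
  rw [e] at h1
  have h2 := hM n m (le_trans (le_max_left _ _) hn) (le_trans (le_max_left _ _) hm)
    (hmκ.trans (mul_le_mul_of_nonneg_right (min_le_left _ _) (by positivity))) S hS
  have h3 := (abs_le.1 h2).2
  have hq : (0 : ℝ) < (Fintype.card K : ℝ) ^ n := pow_pos (by exact_mod_cast Fintype.card_pos) _
  have hmk : (0 : ℝ) < (m : ℝ) ^ k := pow_pos (by exact_mod_cast hm1) _
  have h4 : c * (Fintype.card K : ℝ) ^ n / (m : ℝ) ^ k ≤ 2 * (vf S m * (Fintype.card K : ℝ) ^ n) := by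
    linarith
  have h5 : c / (m : ℝ) ^ k * (Fintype.card K : ℝ) ^ n ≤ 2 * vf S m * (Fintype.card K : ℝ) ^ n := by
    calc c / (m : ℝ) ^ k * (Fintype.card K : ℝ) ^ n = c * (Fintype.card K : ℝ) ^ n / (m : ℝ) ^ k := by
          ring
      _ ≤ _ := h4
      _ = _ := by ring
  have h6 := le_of_mul_le_mul_right h5 hq
  have h7 : c / 2 / (m : ℝ) ^ k = c / (m : ℝ) ^ k / 2 := by ring
  rw [h7]
  linarith

/-- the lower bound for admissible constellations -/
theorem low (hall : S_all) (hmer : S_mer) (K : Type) [Field K] [Fintype K] [CharP K 2] (k : ℕ)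
    (A : ℝ) (hA : 0 < A) : ∃ κ c : ℝ, 0 < κ ∧ 0 < c ∧ ∃ M : ℕ, ∀ n m D : ℕ, M ≤ m →
      (m : ℝ) ≤ κ * n → (Fintype.card K : ℝ) ^ (D + 1) ≤ A * m →
      ∀ S : Finset K[X], S.card = k → (∀ s ∈ S, s.natDegree ≤ D) →
      (∀ P : K[X], P.Monic → Irreducible P → ∃ x : K[X], ∀ s ∈ S, ¬ P ∣ x + s) →
      ∀ σ : K[X] → ℤ, (∀ s, σ s = 1 ∨ σ s = -1) →
        c * (Fintype.card K : ℝ) ^ n / (m : ℝ) ^ k ≤ ((Ex n m D S σ).card : ℝ) := by
  obtain ⟨κ₁, hκ₁, M₁, h₁⟩ := hall K k A (Real.exp (-A) / 2 / 2 ^ k) hA (by positivity)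
  obtain ⟨c, hc, κ₂, hκ₂, M₂, h₂⟩ := vf_low K k
  obtain ⟨κ, hκ0, hκa, hκb, hκc, hκd⟩ : ∃ κ : ℝ, 0 < κ ∧ κ ≤ κ₁ ∧ κ ≤ κ₂ ∧ κ ≤ 1 ∧
      κ ≤ 1 / (A + 1) :=
    ⟨min (min κ₁ κ₂) (min 1 (1 / (A + 1))), lt_min (lt_min hκ₁ hκ₂) (lt_min one_pos (by positivity)),
      (min_le_left _ _).trans (min_le_left _ _), (min_le_left _ _).trans (min_le_right _ _),
      (min_le_right _ _).trans (min_le_left _ _), (min_le_right _ _).trans (min_le_right _ _)⟩
  refine ⟨κ, Real.exp (-A) / 2 / 2 ^ k * c, hκ0, by positivity, max (max M₁ M₂) 1,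
    fun n m D hm hmκ hD S hS hdeg hadm σ hσ => ?_⟩
  have hm1 : 1 ≤ m := le_trans (le_max_right _ _) hm
  have hm2 : M₁ ≤ m := le_trans (le_trans (le_max_left _ _) (le_max_left _ _)) hm
  have hm3 : M₂ ≤ m := le_trans (le_trans (le_max_right _ _) (le_max_left _ _)) hm
  have hmn : m ≤ n := by
    have : (m : ℝ) ≤ 1 * n := hmκ.trans (mul_le_mul_of_nonneg_right hκc (by positivity))
    rw [one_mul] at this
    exact_mod_cast this
  have hDn : D < n := by
    have e1 : ((D + 1 : ℕ) : ℝ) ≤ (Fintype.card K : ℝ) ^ (D + 1) := by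
      have e2 : D + 1 < Fintype.card K ^ (D + 1) := Nat.lt_pow_self Fintype.one_lt_card
      exact_mod_cast e2.le
    have e3 : A * m ≤ A * (1 / (A + 1) * n) :=
      mul_le_mul_of_nonneg_left (hmκ.trans (mul_le_mul_of_nonneg_right hκd (by positivity))) hA.le
    have hn0 : (0 : ℝ) < n := by
      have : 1 ≤ n := hm1.trans hmn
      exact_mod_cast this
    have e4 : A * (1 / (A + 1) * n) < n := by
      rw [← mul_assoc, mul_one_div]
      have : A / (A + 1) < 1 := by rw [div_lt_one (by positivity)]; linarith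
      nlinarith
    have e5 : ((D + 1 : ℕ) : ℝ) < n := by linarith
    have e6 : D + 1 < n := by exact_mod_cast e5
    omega
  have a1 := h₁ n m (hm2.trans hmn) hm2 (hmκ.trans (mul_le_mul_of_nonneg_right hκa (by positivity)))
    D hD S (fun s hs => mem_Bl.2 (hdeg s hs)) hS σ hσ
  have a2 := h₂ n m (hm3.trans hmn) hm3 (hmκ.trans (mul_le_mul_of_nonneg_right hκb (by positivity)))
    S hS (fun s hs => lt_of_le_of_lt (hdeg s hs) hDn) hadm
  have hq : (0 : ℝ) < (Fintype.card K : ℝ) ^ n := pow_pos (by exact_mod_cast Fintype.card_pos) _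
  have hmk : (0 : ℝ) < (m : ℝ) ^ k := pow_pos (by exact_mod_cast hm1) _
  have hx : (Fintype.card K : ℝ) ^ (D + 1) * Vm K m ≤ A := by
    have b1 := (hmer K).1 m
    have hm0 : (0 : ℝ) ≤ m := Nat.cast_nonneg m
    calc (Fintype.card K : ℝ) ^ (D + 1) * Vm K m ≤ (Fintype.card K : ℝ) ^ (D + 1) * (1 / ((m : ℝ) + 1)) :=
          mul_le_mul_of_nonneg_left b1 (by positivity)
      _ ≤ (A * m) * (1 / ((m : ℝ) + 1)) := mul_le_mul_of_nonneg_right hD (by positivity)
      _ = A * (m / ((m : ℝ) + 1)) := by ring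
      _ ≤ A * 1 := by
          refine mul_le_mul_of_nonneg_left ?_ hA.le
          rw [div_le_one (by positivity)]
          linarith
      _ = A := mul_one A
  have hexp : Real.exp (-A) ≤ Real.exp (-((Fintype.card K : ℝ) ^ (D + 1) * Vm K m)) :=
    Real.exp_le_exp.2 (neg_le_neg hx)
  set W : ℝ := vf S m * (Fintype.card K : ℝ) ^ n with hW
  have hcm : 0 < c / (m : ℝ) ^ k := by positivity
  have hW0 : 0 ≤ W := by rw [hW]; exact mul_nonneg (hcm.le.trans a2) hq.le
  have a3 := (abs_le.1 a1).1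
  have a4 : Real.exp (-A) * W / 2 ^ k ≤
      Real.exp (-((Fintype.card K : ℝ) ^ (D + 1) * Vm K m)) * W / 2 ^ k := by gcongr
  have a5 : Real.exp (-A) / 2 / 2 ^ k * W ≤ ((Ex n m D S σ).card : ℝ) := by
    have e1 : Real.exp (-A) / 2 / 2 ^ k * W = Real.exp (-A) * W / 2 ^ k -
        Real.exp (-A) / 2 / 2 ^ k * W := by ring
    rw [e1]
    linarith
  refine le_trans ?_ a5
  have a6 : c / (m : ℝ) ^ k * (Fintype.card K : ℝ) ^ n ≤ W :=
    mul_le_mul_of_nonneg_right a2 hq.le
  calc Real.exp (-A) / 2 / 2 ^ k * c * (Fintype.card K : ℝ) ^ n / (m : ℝ) ^ k =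
      Real.exp (-A) / 2 / 2 ^ k * (c / (m : ℝ) ^ k * (Fintype.card K : ℝ) ^ n) := by ring
    _ ≤ _ := mul_le_mul_of_nonneg_left a6 (by positivity)

/-- every `H` (divisible by `X (X + 1)` for `q = 2`) is admissible -/
theorem adm_pair [CharP K 2] (H : K[X]) (h2 : Fintype.card K = 2 → X * (X + 1) ∣ H) (P : K[X])
    (hP : P.Monic) (hPi : Irreducible P) : ∃ x : K[X], ¬ P ∣ x ∧ ¬ P ∣ x + H := by
  have hnu : ¬ P ∣ 1 := fun h => hPi.not_isUnit (isUnit_of_dvd_one h)
  by_cases h1 : P ∣ 1 + H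
  · by_cases hd : 2 ≤ P.natDegree
    · refine ⟨X, fun h => ?_, fun h => ?_⟩
      · have := natDegree_le_of_dvd h X_ne_zero
        rw [natDegree_X] at this
        omega
      · have h3 : P ∣ X + C (1 : K) := by
          have h4 : (X + C 1 : K[X]) = (X + H) - (1 + H) + 2 := by rw [C_1]; ring
          have h5 : (2 : K[X]) = 0 := CharTwo.two_eq_zero
          rw [h4, h5, add_zero]
          exact dvd_sub h h1
        have := natDegree_le_of_dvd h3 (X_add_C_ne_zero 1)
        rw [natDegree_X_add_C] at this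
        omega
    · have hd1 : P.natDegree = 1 := by
        have := hPi.natDegree_pos
        omega
      by_cases hq : Fintype.card K = 2
      · exfalso
        -- all linear polynomials divide `X (X + 1)`
        obtain ⟨a, ha⟩ : ∃ a : K, P = X + C a := by
          refine ⟨P.coeff 0, ?_⟩
          have := hP.eq_X_add_C hd1
          exact this
        have ha2 : a = 0 ∨ a = 1 := by
          by_contra hcon
          push Not at hcon
          have h3 : ({0, 1, a} : Finset K).card ≤ Fintype.card K := Finset.card_le_univ _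
          rw [Finset.card_insert_of_notMem, Finset.card_insert_of_notMem, Finset.card_singleton,
            hq] at h3
          · omega
          · rw [Finset.mem_singleton]; exact fun h => hcon.2 h.symm
          · rw [Finset.mem_insert, Finset.mem_singleton]
            rintro (h | h)
            · exact zero_ne_one h
            · exact hcon.1 h.symm
        have h3 : P ∣ X * (X + 1) := by
          rw [ha]
          rcases ha2 with h | h
          · rw [h, C_0, add_zero]; exact dvd_mul_right _ _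
          · rw [h, C_1]; exact dvd_mul_left _ _
        have h4 := h3.trans (h2 hq)
        exact hnu ((dvd_add_left h4).1 h1)
      · -- a constant different from 0 and 1
        obtain ⟨c, hc0, hc1⟩ : ∃ c : K, c ≠ 0 ∧ c ≠ 1 := by
          by_contra hcon
          push Not at hcon
          have h3 : (Finset.univ : Finset K) ⊆ {0, 1} := by
            intro c _
            rw [Finset.mem_insert, Finset.mem_singleton]
            by_cases h : c = 0
            · exact Or.inl h
            · exact Or.inr (hcon c h)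
          have h4 := Finset.card_le_card h3
          have h5 : ({0, 1} : Finset K).card ≤ 2 := Finset.card_le_two
          rw [Finset.card_univ] at h4
          have h6 : 1 < Fintype.card K := Fintype.one_lt_card
          omega
        have hunit : ∀ d : K, d ≠ 0 → ¬ P ∣ C d := fun d hd0 h =>
          hPi.not_isUnit (isUnit_of_dvd_unit h (isUnit_C.2 (IsUnit.mk0 d hd0)))
        refine ⟨C c, hunit c hc0, fun h => ?_⟩
        have h3 : P ∣ C (c - 1) := by
          have h4 : (C (c - 1) : K[X]) = (C c + H) - (1 + H) := by rw [C_sub, C_1]; ring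
          rw [h4]
          exact dvd_sub h h1
        exact hunit (c - 1) (sub_ne_zero.2 hc1) h3
  · exact ⟨1, hnu, h1⟩

/-- the number of factors of a sifted polynomial -/
theorem few_factors {m : ℕ} {F : K[X]} (hF : F ≠ 0) (h : Sft m F) :
    Multiset.card (UniqueFactorizationMonoid.factors F) * (m + 1) ≤ F.natDegree := by
  have := Pool.Agent.H985.Par.factors_le hF le_rfl h
  exact this

end Pool.Agent.H526.GQ.Fin
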