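import Pool.Agent.H526.GQ.Stm

/-!
# Mean value of the singular series over `j` further shifts (part GALASM of project GQ, by helper181)
-/

set_option autoImplicit false

namespace Pool.Agent.H526.GQ.GalAsm

open Polynomial
open scoped Classical
open Pool.Agent.H526.GQ
open Pool.Agent.H694.Typ (Mn mem_Mn PU mem_PU Irn mem_Irn pol pol_degree pol_inj exists_pol)

/-- double counting of the pairs of a set and one of its elements -/
theorem dc {α : Type} [DecidableEq α] (X : Finset α) (j : ℕ) (φ : Finset α → ℝ) :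
    ((j : ℝ) + 1) * ∑ U ∈ X.powersetCard (j + 1), φ U =
      ∑ U ∈ X.powersetCard j, ∑ u ∈ X \ U, φ (insert u U) := by
  have h1 : ((j : ℝ) + 1) * ∑ U ∈ X.powersetCard (j + 1), φ U =
      ∑ U ∈ X.powersetCard (j + 1), ∑ _u ∈ U, φ U := by
    rw [Finset.mul_sum]
    refine Finset.sum_congr rfl fun U hU => ?_
    rw [Finset.sum_const, (Finset.mem_powersetCard.1 hU).2, nsmul_eq_mul]
    push_cast
    rfl
  rw [h1, Finset.sum_sigma', Finset.sum_sigma']
  refine Finset.sum_bij' (fun x _ => ⟨x.1.erase x.2, x.2⟩) (fun x _ => ⟨insert x.2 x.1, x.2⟩)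
    ?_ ?_ ?_ ?_ ?_
  · rintro ⟨U, u⟩ hx
    rw [Finset.mem_sigma, Finset.mem_powersetCard] at hx
    obtain ⟨⟨h2, h3⟩, h4⟩ := hx
    rw [Finset.mem_sigma, Finset.mem_powersetCard]
    refine ⟨⟨(Finset.erase_subset _ _).trans h2, ?_⟩, ?_⟩
    · have h5 : (U.erase u).card = U.card - 1 := Finset.card_erase_of_mem h4
      have h3' : U.card = j + 1 := h3
      change (U.erase u).card = j
      rw [h5, h3']
      rfl
    · exact Finset.mem_sdiff.2 ⟨h2 h4, Finset.notMem_erase _ _⟩
  · rintro ⟨U, u⟩ hx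
    rw [Finset.mem_sigma, Finset.mem_powersetCard] at hx
    obtain ⟨⟨h2, h3⟩, h4⟩ := hx
    obtain ⟨h5, h6⟩ := Finset.mem_sdiff.1 h4
    rw [Finset.mem_sigma, Finset.mem_powersetCard]
    refine ⟨⟨Finset.insert_subset h5 h2, ?_⟩, Finset.mem_insert_self _ _⟩
    change (insert u U).card = j + 1
    have h3' : U.card = j := h3
    rw [Finset.card_insert_of_notMem h6, h3']
  · rintro ⟨U, u⟩ hx
    rw [Finset.mem_sigma] at hx
    have h4 : u ∈ U := hx.2
    change (⟨insert u (U.erase u), u⟩ : Σ _ : Finset α, α) = ⟨U, u⟩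
    rw [Finset.insert_erase h4]
  · rintro ⟨U, u⟩ hx
    rw [Finset.mem_sigma] at hx
    have h6 : u ∉ U := (Finset.mem_sdiff.1 hx.2).2
    change (⟨(insert u U).erase u, u⟩ : Σ _ : Finset α, α) = ⟨U, u⟩
    rw [Finset.erase_insert h6]
  · rintro ⟨U, u⟩ hx
    rw [Finset.mem_sigma] at hx
    have h4 : u ∈ U := hx.2
    change φ U = φ (insert u (U.erase u))
    rw [Finset.insert_erase h4]

section

variable {K : Type} [Field K] [Fintype K]

theorem q_pos : (0 : ℝ) < (Fintype.card K : ℝ) := by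
  exact_mod_cast (Fintype.card_pos (α := K))

theorem one_le_q_pow (n : ℕ) : (1 : ℝ) ≤ (Fintype.card K : ℝ) ^ n := by
  have h : (1 : ℝ) ≤ (Fintype.card K : ℝ) := by
    exact_mod_cast (Fintype.card_pos (α := K))
  exact one_le_pow₀ h

/-- the number of the residue classes -/
theorem nu_le (T : Finset K[X]) {P : K[X]} (hP : P.Monic) :
    (nu T P : ℝ) ≤ (Fintype.card K : ℝ) ^ P.natDegree := by
  have h1 : T.image (fun t => t %ₘ P) ⊆
      Finset.univ.image (pol : (Fin P.natDegree → K) → K[X]) := by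
    intro f hf
    obtain ⟨t, -, rfl⟩ := Finset.mem_image.1 hf
    have h2 : (t %ₘ P).degree < (P.natDegree : WithBot ℕ) := by
      have := degree_modByMonic_lt t hP
      rwa [degree_eq_natDegree hP.ne_zero] at this
    obtain ⟨c, hc⟩ := exists_pol h2
    exact Finset.mem_image.2 ⟨c, Finset.mem_univ _, hc⟩
  have h2 : nu T P ≤ Fintype.card K ^ P.natDegree := by
    refine (Finset.card_le_card h1).trans ?_
    refine Finset.card_image_le.trans ?_
    rw [Finset.card_univ, Fintype.card_fun, Fintype.card_fin]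
  exact_mod_cast h2

theorem vf_nonneg (T : Finset K[X]) (m : ℕ) : 0 ≤ vf T m := by
  unfold vf
  refine Finset.prod_nonneg fun P hP => ?_
  have hm : P.Monic := (mem_PU.1 hP).1
  unfold lf
  have h1 : (nu T P : ℝ) / (Fintype.card K : ℝ) ^ P.natDegree ≤ 1 :=
    div_le_one_of_le₀ (nu_le T hm) (pow_nonneg q_pos.le _)
  linarith

theorem Vm_nonneg (m : ℕ) : 0 ≤ Vm K m := by
  unfold Vm
  refine Finset.prod_nonneg fun P _ => ?_
  have h1 : 1 / (Fintype.card K : ℝ) ^ P.natDegree ≤ 1 :=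
    div_le_one_of_le₀ (one_le_q_pow _) (pow_nonneg q_pos.le _)
  linarith

end

theorem main : S_galasm := by
  intro hone K _ _ k j
  induction j with
  | zero =>
    intro ε hε
    refine ⟨0, fun D _ m S hS hk => ?_⟩
    rw [Finset.powersetCard_zero, Finset.sum_singleton, Finset.union_empty, pow_zero,
      Nat.factorial_zero, Nat.cast_one, mul_one, div_one, sub_self, abs_zero]
    exact mul_nonneg hε.le (vf_nonneg _ _)
  | succ j ih =>
    intro ε hε
    obtain ⟨ε₁, hε₁⟩ : ∃ ε₁ : ℝ, ε₁ = min (ε / 2) 1 := ⟨_, rfl⟩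
    have h1 : 0 < ε₁ := by
      rw [hε₁]
      exact lt_min (by linarith) one_pos
    have h2 : ε₁ ≤ ε / 2 := by
      rw [hε₁]
      exact min_le_left _ _
    have h3 : ε₁ ≤ 1 := by
      rw [hε₁]
      exact min_le_right _ _
    obtain ⟨D₁, hD₁⟩ := ih ε₁ h1
    obtain ⟨D₂, hD₂⟩ := hone K (k + j) (ε / 4) (by linarith)
    refine ⟨max D₁ D₂, fun D hD m S hS hk => ?_⟩
    have hI := hD₁ D ((le_max_left _ _).trans hD) m S hS hk
    have hO := hD₂ D ((le_max_right _ _).trans hD) m
    obtain ⟨x, hx⟩ : ∃ x, x = (Fintype.card K : ℝ) ^ (D + 1) * Vm K m := ⟨_, rfl⟩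
    have hx0 : 0 ≤ x := by
      rw [hx]
      exact mul_nonneg (pow_nonneg q_pos.le _) (Vm_nonneg m)
    rw [← hx] at hI ⊢
    have hdc := dc (Bl K D \ S) j (fun U => vf (S ∪ U) m)
    obtain ⟨G, hG⟩ : ∃ G, G = ∑ U ∈ (Bl K D \ S).powersetCard j, vf (S ∪ U) m := ⟨_, rfl⟩
    obtain ⟨G', hG'⟩ : ∃ G', G' = ∑ U ∈ (Bl K D \ S).powersetCard (j + 1), vf (S ∪ U) m :=
      ⟨_, rfl⟩
    have hG0 : 0 ≤ G := by
      rw [hG]
      exact Finset.sum_nonneg fun U _ => vf_nonneg _ _
    have hv := vf_nonneg S m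
    rw [← hG] at hI
    rw [← hG']
    have hsum : |((j : ℝ) + 1) * G' - G * x| ≤ ε / 4 * (G * x) := by
      have e1 : ((j : ℝ) + 1) * G' - G * x = ∑ U ∈ (Bl K D \ S).powersetCard j,
          (∑ u ∈ (Bl K D \ S) \ U, vf (S ∪ insert u U) m - vf (S ∪ U) m * x) := by
        rw [Finset.sum_sub_distrib, ← Finset.sum_mul, ← hG, hG']
        rw [hdc]
      have e2 : ε / 4 * (G * x) = ∑ U ∈ (Bl K D \ S).powersetCard j,
          ε / 4 * (vf (S ∪ U) m * x) := by
        rw [← Finset.mul_sum, ← Finset.sum_mul, ← hG]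
      rw [e1, e2]
      refine (Finset.abs_sum_le_sum_abs _ _).trans (Finset.sum_le_sum fun U hU => ?_)
      obtain ⟨hU1, hU2⟩ := Finset.mem_powersetCard.1 hU
      have hdis : Disjoint S U := by
        rw [Finset.disjoint_left]
        intro a ha ha'
        exact (Finset.mem_sdiff.1 (hU1 ha')).2 ha
      have hcard : (S ∪ U).card = k + j := by
        rw [Finset.card_union_of_disjoint hdis, hk, hU2]
      have hsub : S ∪ U ⊆ Bl K D :=
        Finset.union_subset hS (hU1.trans Finset.sdiff_subset)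
      have h4 := hO (S ∪ U) hsub hcard
      rw [← hx] at h4
      have e3 : ∑ u ∈ (Bl K D \ S) \ U, vf (S ∪ insert u U) m =
          ∑ u ∈ Bl K D \ (S ∪ U), vf (insert u (S ∪ U)) m := by
        have e4 : (Bl K D \ S) \ U = Bl K D \ (S ∪ U) := sdiff_sdiff_left
        rw [e4]
        refine Finset.sum_congr rfl fun u _ => ?_
        rw [Finset.union_insert]
      rw [e3]
      exact h4
    have hj : (0 : ℝ) < (j : ℝ) + 1 := by positivity
    have hf : (0 : ℝ) < (Nat.factorial j : ℝ) := by exact_mod_cast Nat.factorial_pos j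
    have hf1 : (1 : ℝ) ≤ (Nat.factorial j : ℝ) := by exact_mod_cast Nat.factorial_pos j
    obtain ⟨y, hy⟩ : ∃ y, y = vf S m * x ^ j := ⟨_, rfl⟩
    have hy0 : 0 ≤ y := by
      rw [hy]
      exact mul_nonneg hv (pow_nonneg hx0 _)
    rw [← hy] at hI
    have hGy : G ≤ 2 * y := by
      have h5 := (abs_le.1 hI).2
      have h6 : y / (Nat.factorial j : ℝ) ≤ y := div_le_self hy0 hf1
      nlinarith
    have hyx : vf S m * x ^ (j + 1) = y * x := by
      rw [hy, pow_succ]
      ring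
    have hfac : ((Nat.factorial (j + 1) : ℕ) : ℝ) = ((j : ℝ) + 1) * (Nat.factorial j : ℝ) := by
      rw [Nat.factorial_succ]
      push_cast
      ring
    rw [hyx, hfac]
    have e5 : G' - y * x / (((j : ℝ) + 1) * (Nat.factorial j : ℝ)) =
        (((j : ℝ) + 1) * G' - G * x + (G - y / (Nat.factorial j : ℝ)) * x) / ((j : ℝ) + 1) := by
      field_simp
      ring
    have h7 : |((j : ℝ) + 1) * G' - G * x + (G - y / (Nat.factorial j : ℝ)) * x| ≤
        ε * (y * x) := by
      refine (abs_add_le _ _).trans ?_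
      rw [abs_mul, abs_of_nonneg hx0]
      have h8 : |G - y / (Nat.factorial j : ℝ)| * x ≤ ε₁ * y * x :=
        mul_le_mul_of_nonneg_right hI hx0
      have h9 : G * x ≤ 2 * y * x := mul_le_mul_of_nonneg_right hGy hx0
      have h10 : 0 ≤ y * x := mul_nonneg hy0 hx0
      have h11 : ε / 4 * (G * x) ≤ ε / 4 * (2 * y * x) :=
        mul_le_mul_of_nonneg_left h9 (by linarith)
      have h12 : ε₁ * y * x ≤ ε / 2 * (y * x) := by
        have := mul_le_mul_of_nonneg_right h2 h10
        linarith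
      linarith
    rw [e5, abs_div, abs_of_pos hj]
    have h13 : 0 ≤ ε * (y * x) := (abs_nonneg _).trans h7
    refine (div_le_self (abs_nonneg _) (by linarith [Nat.cast_nonneg (α := ℝ) j])).trans h7

end Pool.Agent.H526.GQ.GalAsm
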