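import Pool.Agent.H526.GQ.Stm

/-!
# Project GQ, task GSM: moments of `Gw` (helper227)
-/

set_option autoImplicit false

namespace Pool.Agent.H526.GQ.Gsm

open Polynomial
open scoped Classical
open Pool.Agent.H694.Typ (Mn mem_Mn PU mem_PU Irn mem_Irn pol pol_degree pol_inj exists_pol q_ge
  sum_PU irn_one_le geo_half_le coprime_of_ne)
open Pool.Agent.H526.GQ

section

variable {K : Type} [Field K] [Fintype K]

/-- `1 / |P|`. -/
noncomputable def xx (P : K[X]) : ℝ := 1 / (Fintype.card K : ℝ) ^ P.natDegree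

theorem xx_pos (P : K[X]) : 0 < xx P := by
  have hq := q_ge (k := K)
  unfold xx
  positivity

theorem xx_le_half (P : K[X]) (h : 1 ≤ P.natDegree) : xx P ≤ 1 / 2 := by
  have hq := q_ge (k := K)
  unfold xx
  apply one_div_le_one_div_of_le (by norm_num)
  calc (2 : ℝ) ≤ (Fintype.card K : ℝ) := hq
    _ = (Fintype.card K : ℝ) ^ 1 := (pow_one _).symm
    _ ≤ (Fintype.card K : ℝ) ^ P.natDegree := pow_le_pow_right₀ (by linarith) h

theorem mem_PW {w m : ℕ} {P : K[X]} :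
    P ∈ PW K w m ↔ P.Monic ∧ Irreducible P ∧ P.natDegree ≤ m ∧ w < P.natDegree := by
  unfold PW
  rw [Finset.mem_filter, mem_PU]
  tauto

/-- The number of the nonzero `v` of degree at most `D` divisible by all `P` in `t`. -/
theorem count (w D : ℕ) (t : Finset K[X]) (ht : t ⊆ PW K w D) :
    ((((Bl K D).erase 0).filter (fun v => ∀ P ∈ t, P ∣ v)).card : ℝ) ≤
      (Fintype.card K : ℝ) ^ (D + 1) * ∏ P ∈ t, xx P := by
  have hq := q_ge (k := K)
  have hmon : ∀ P ∈ t, P.Monic := fun P hP => (mem_PW.1 (ht hP)).1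
  have hA : (∏ P ∈ t, P).Monic := monic_prod_of_monic _ _ hmon
  have hdeg : (∏ P ∈ t, P).natDegree = ∑ P ∈ t, P.natDegree := natDegree_prod_of_monic _ _ hmon
  obtain ⟨A, hAe⟩ : ∃ A, A = ∏ P ∈ t, P := ⟨_, rfl⟩
  rw [← hAe] at hA hdeg
  have hdvd : ∀ v ∈ ((Bl K D).erase 0).filter (fun v => ∀ P ∈ t, P ∣ v), v ≠ 0 ∧ v.natDegree ≤ D ∧ A ∣ v := by
    intro v hv
    rw [Finset.mem_filter, Finset.mem_erase, mem_Bl] at hv
    refine ⟨hv.1.1, hv.1.2, ?_⟩
    rw [hAe]
    refine Finset.prod_dvd_of_coprime ?_ ?_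
    · intro P hP Q hQ hPQ
      have hP' := mem_PW.1 (ht hP)
      have hQ' := mem_PW.1 (ht hQ)
      exact coprime_of_ne hP'.1 hP'.2.1 hQ'.1 hQ'.2.1 hPQ
    · intro P hP
      exact hv.2 P hP
  have hprod : ∏ P ∈ t, xx P = 1 / (Fintype.card K : ℝ) ^ A.natDegree := by
    unfold xx
    rw [hdeg, Finset.prod_div_distrib, Finset.prod_const_one, Finset.prod_pow_eq_pow_sum]
  rw [hprod]
  rcases Nat.lt_or_ge D A.natDegree with h | h
  · have he : ((Bl K D).erase 0).filter (fun v => ∀ P ∈ t, P ∣ v) = ∅ := by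
      rw [Finset.eq_empty_iff_forall_notMem]
      intro v hv
      obtain ⟨h0, h1, h2⟩ := hdvd v hv
      have := natDegree_le_of_dvd h2 h0
      omega
    rw [he, Finset.card_empty, Nat.cast_zero]
    positivity
  · have hsub : ((Bl K D).erase 0).filter (fun v => ∀ P ∈ t, P ∣ v) ⊆
        (Bl K (D - A.natDegree)).image (fun u => A * u) := by
      intro v hv
      obtain ⟨h0, h1, h2⟩ := hdvd v hv
      obtain ⟨u, hu⟩ := h2
      rw [Finset.mem_image]
      refine ⟨u, ?_, hu.symm⟩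
      rw [mem_Bl]
      have hu0 : u ≠ 0 := by
        rintro rfl
        rw [mul_zero] at hu
        exact h0 hu
      rw [hu, natDegree_mul hA.ne_zero hu0] at h1
      omega
    have hc := (Finset.card_le_card hsub).trans Finset.card_image_le
    rw [card_Bl] at hc
    have hc' : ((((Bl K D).erase 0).filter (fun v => ∀ P ∈ t, P ∣ v)).card : ℝ) ≤
        (Fintype.card K : ℝ) ^ (D - A.natDegree + 1) := by exact_mod_cast hc
    refine hc'.trans (le_of_eq ?_)
    have e : (D - A.natDegree + 1) + A.natDegree = D + 1 := by omega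
    have hne : (Fintype.card K : ℝ) ^ A.natDegree ≠ 0 := by positivity
    rw [mul_one_div, eq_div_iff hne, ← pow_add, e]

/-- `∑ 1 / |P| ^ 2` over the primes of degree greater than `w`. -/
theorem sum_sq (w D : ℕ) : ∑ P ∈ PW K w D, xx P ^ 2 ≤ (1 / 2 : ℝ) ^ w := by
  have hq := q_ge (k := K)
  unfold PW
  rw [Finset.sum_filter, sum_PU]
  have h1 : ∀ j ∈ Finset.Icc 1 D, (∑ P ∈ Irn K j, if w < P.natDegree then xx P ^ 2 else 0) ≤
      if w < j then (1 / 2 : ℝ) ^ j else 0 := by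
    intro j hj
    rw [Finset.mem_Icc] at hj
    have e : (∑ P ∈ Irn K j, if w < P.natDegree then xx P ^ 2 else 0) =
        ∑ P ∈ Irn K j, if w < j then (1 / (Fintype.card K : ℝ) ^ j) ^ 2 else 0 := by
      refine Finset.sum_congr rfl ?_
      intro P hP
      unfold xx
      rw [(mem_Irn.1 hP).2.1]
    rw [e]
    split_ifs with hw
    · rw [Finset.sum_const, nsmul_eq_mul]
      have h2 : ((Irn K j).card : ℝ) ≤ (Fintype.card K : ℝ) ^ j := by
        have h3 := irn_one_le (k := K) (d := j) (by omega)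
        have h4 : (Irn K j).card ≤ j * (Irn K j).card := Nat.le_mul_of_pos_left _ (by omega)
        exact_mod_cast h4.trans h3
      have hpos : (0 : ℝ) < (Fintype.card K : ℝ) ^ j := by positivity
      calc ((Irn K j).card : ℝ) * (1 / (Fintype.card K : ℝ) ^ j) ^ 2 ≤
          (Fintype.card K : ℝ) ^ j * (1 / (Fintype.card K : ℝ) ^ j) ^ 2 := by gcongr
        _ = 1 / (Fintype.card K : ℝ) ^ j := by field_simp
        _ = (1 / (Fintype.card K : ℝ)) ^ j := by rw [one_div_pow]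
        _ ≤ (1 / 2) ^ j := by gcongr
    · rw [Finset.sum_const_zero]
  refine (Finset.sum_le_sum h1).trans ?_
  rw [← Finset.sum_filter]
  refine le_trans ?_ (geo_half_le w D)
  refine Finset.sum_le_sum_of_subset_of_nonneg ?_ (fun _ _ _ => by positivity)
  intro j hj
  rw [Finset.mem_filter, Finset.mem_Icc] at hj
  rw [Finset.mem_Icc]
  omega

/-- `(1 - x)⁻¹ ^ N - 1`. -/
noncomputable def hh (N : ℕ) (P : K[X]) : ℝ := ((1 - xx P)⁻¹) ^ N - 1

theorem pow_bound (N : ℕ) (s : ℝ) (h0 : 0 ≤ s) (h1 : s ≤ 1) :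
    (1 + s) ^ N ≤ 1 + (2 ^ N - 1) * s := by
  induction N with
  | zero => simp
  | succ N ih =>
    have h2 : (1 : ℝ) ≤ 2 ^ N := one_le_pow₀ (by norm_num)
    have h3 : (1 + s) ^ (N + 1) ≤ (1 + (2 ^ N - 1) * s) * (1 + s) := by
      rw [pow_succ]
      exact mul_le_mul_of_nonneg_right ih (by linarith)
    refine h3.trans ?_
    have h4 : s * s ≤ s := by nlinarith
    have h5 : (2 ^ N - 1) * (s * s) ≤ (2 ^ N - 1) * s := mul_le_mul_of_nonneg_left h4 (by linarith)
    rw [pow_succ]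
    nlinarith

theorem hh_nonneg (N : ℕ) (P : K[X]) (hd : 1 ≤ P.natDegree) : 0 ≤ hh N P := by
  have h1 := xx_pos P
  have h2 := xx_le_half P hd
  unfold hh
  have h3 : 1 ≤ (1 - xx P)⁻¹ := by
    rw [one_le_inv₀ (by linarith)]
    linarith
  have := one_le_pow₀ (n := N) h3
  linarith

theorem hh_le (N : ℕ) (P : K[X]) (hd : 1 ≤ P.natDegree) : hh N P ≤ 2 ^ (N + 1) * xx P := by
  have h1 := xx_pos P
  have h2 := xx_le_half P hd
  have h3 : (1 - xx P)⁻¹ ≤ 1 + 2 * xx P := by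
    rw [inv_le_iff_one_le_mul₀ (by linarith)]
    nlinarith
  have h4 : 0 ≤ (1 - xx P)⁻¹ := by
    apply inv_nonneg.2
    linarith
  have h5 : ((1 - xx P)⁻¹) ^ N ≤ (1 + 2 * xx P) ^ N := pow_le_pow_left₀ h4 h3 N
  have h6 := pow_bound N (2 * xx P) (by linarith) (by linarith)
  unfold hh
  rw [pow_succ]
  nlinarith

/-- The expansion of the power of `Gw`. -/
theorem Gw_pow (N w D : ℕ) (v : K[X]) :
    Gw w D v ^ N = ∑ t ∈ (PW K w D).powerset, if (∀ P ∈ t, P ∣ v) then ∏ P ∈ t, hh N P else 0 := by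
  have h1 : Gw w D v ^ N = ∏ P ∈ (PW K w D).filter (fun P => P ∣ v), (1 + hh N P) := by
    unfold Gw
    rw [← Finset.prod_pow]
    refine Finset.prod_congr rfl ?_
    intro P _
    unfold hh xx
    ring
  rw [h1, Finset.prod_one_add, ← Finset.sum_filter]
  refine Finset.sum_congr ?_ (fun _ _ => rfl)
  ext t
  rw [Finset.mem_powerset, Finset.mem_filter, Finset.mem_powerset]
  constructor
  · intro h
    exact ⟨h.trans (Finset.filter_subset _ _), fun P hP => (Finset.mem_filter.1 (h hP)).2⟩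
  · rintro ⟨h, h'⟩ P hP
    exact Finset.mem_filter.2 ⟨h hP, h' P hP⟩

end

/-- **Task GSM.** -/
theorem main : Pool.Agent.H526.GQ.S_gsm := by
  intro K _ _ N
  have hq := q_ge (k := K)
  refine ⟨2 ^ (N + 1) * Real.exp (2 ^ (N + 1)), by positivity, ?_⟩
  intro w D
  have hdeg : ∀ P ∈ PW K w D, 1 ≤ P.natDegree := fun P hP => (mem_PW.1 hP).2.1.natDegree_pos
  have hh0 : ∀ P ∈ PW K w D, 0 ≤ hh N P := fun P hP => hh_nonneg N P (hdeg P hP)
  -- the exchange of the sums
  have h1 : ∑ v ∈ (Bl K D).erase 0, (Gw w D v ^ N - 1) =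
      ∑ t ∈ ((PW K w D).powerset).erase ∅,
        ((((Bl K D).erase 0).filter (fun v => ∀ P ∈ t, P ∣ v)).card : ℝ) * ∏ P ∈ t, hh N P := by
    have e1 : ∀ v ∈ (Bl K D).erase 0, Gw w D v ^ N - 1 =
        ∑ t ∈ ((PW K w D).powerset).erase ∅, if (∀ P ∈ t, P ∣ v) then ∏ P ∈ t, hh N P else 0 := by
      intro v _
      rw [Gw_pow, ← Finset.add_sum_erase _ _ (Finset.empty_mem_powerset (PW K w D)),
        if_pos (by simp), Finset.prod_empty]
      ring
    rw [Finset.sum_congr rfl e1, Finset.sum_comm]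
    refine Finset.sum_congr rfl ?_
    intro t _
    rw [← Finset.sum_filter, Finset.sum_const, nsmul_eq_mul]
  rw [h1]
  have h2 : ∑ t ∈ ((PW K w D).powerset).erase ∅,
        ((((Bl K D).erase 0).filter (fun v => ∀ P ∈ t, P ∣ v)).card : ℝ) * ∏ P ∈ t, hh N P ≤
      ∑ t ∈ ((PW K w D).powerset).erase ∅,
        (Fintype.card K : ℝ) ^ (D + 1) * ∏ P ∈ t, (xx P * hh N P) := by
    refine Finset.sum_le_sum ?_
    intro t ht
    have ht' : t ⊆ PW K w D := Finset.mem_powerset.1 (Finset.mem_of_mem_erase ht)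
    rw [Finset.prod_mul_distrib, ← mul_assoc]
    refine mul_le_mul_of_nonneg_right (count w D t ht') ?_
    exact Finset.prod_nonneg (fun P hP => hh0 P (ht' hP))
  refine h2.trans ?_
  rw [← Finset.mul_sum]
  have h3 : ∑ t ∈ ((PW K w D).powerset).erase ∅, ∏ P ∈ t, (xx P * hh N P) =
      ∏ P ∈ PW K w D, (1 + xx P * hh N P) - 1 := by
    rw [Finset.prod_one_add, ← Finset.add_sum_erase _ _ (Finset.empty_mem_powerset (PW K w D)),
      Finset.prod_empty]
    ring
  rw [h3]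
  have h4 : ∏ P ∈ PW K w D, (1 + xx P * hh N P) ≤ Real.exp (∑ P ∈ PW K w D, xx P * hh N P) := by
    rw [Real.exp_sum]
    refine Finset.prod_le_prod ?_ ?_
    · intro P hP
      have := mul_nonneg (xx_pos P).le (hh0 P hP)
      linarith
    · intro P _
      rw [add_comm]
      exact Real.add_one_le_exp _
  have h5 : ∑ P ∈ PW K w D, xx P * hh N P ≤ 2 ^ (N + 1) * (1 / 2 : ℝ) ^ w := by
    calc ∑ P ∈ PW K w D, xx P * hh N P ≤ ∑ P ∈ PW K w D, 2 ^ (N + 1) * xx P ^ 2 := by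
          refine Finset.sum_le_sum ?_
          intro P hP
          have a1 := hh_le N P (hdeg P hP)
          have a2 := xx_pos P
          nlinarith
      _ = 2 ^ (N + 1) * ∑ P ∈ PW K w D, xx P ^ 2 := by rw [Finset.mul_sum]
      _ ≤ 2 ^ (N + 1) * (1 / 2 : ℝ) ^ w := by
          refine mul_le_mul_of_nonneg_left (sum_sq w D) (by positivity)
  obtain ⟨s, hs⟩ : ∃ s : ℝ, s = 2 ^ (N + 1) * (1 / 2 : ℝ) ^ w := ⟨_, rfl⟩
  rw [← hs] at h5
  have h6 : Real.exp (∑ P ∈ PW K w D, xx P * hh N P) ≤ Real.exp s := Real.exp_le_exp.2 h5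
  have hs0 : 0 ≤ s := by rw [hs]; positivity
  have hs1 : s ≤ 2 ^ (N + 1) := by
    rw [hs]
    have : (1 / 2 : ℝ) ^ w ≤ 1 := pow_le_one₀ (by norm_num) (by norm_num)
    nlinarith [pow_pos (show (0 : ℝ) < 2 by norm_num) (N + 1)]
  have h7 : Real.exp s - 1 ≤ s * Real.exp s := by
    have a1 := Real.add_one_le_exp (-s)
    have a2 : Real.exp (-s) * Real.exp s = 1 := by rw [← Real.exp_add]; simp
    have a3 := Real.exp_pos s
    nlinarith
  have h8 : s * Real.exp s ≤ s * Real.exp (2 ^ (N + 1)) :=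
    mul_le_mul_of_nonneg_left (Real.exp_le_exp.2 hs1) hs0
  have h9 : ∏ P ∈ PW K w D, (1 + xx P * hh N P) - 1 ≤ s * Real.exp (2 ^ (N + 1)) := by linarith
  calc (Fintype.card K : ℝ) ^ (D + 1) * (∏ P ∈ PW K w D, (1 + xx P * hh N P) - 1) ≤
      (Fintype.card K : ℝ) ^ (D + 1) * (s * Real.exp (2 ^ (N + 1))) :=
        mul_le_mul_of_nonneg_left h9 (by positivity)
    _ = 2 ^ (N + 1) * Real.exp (2 ^ (N + 1)) * (Fintype.card K : ℝ) ^ (D + 1) * (1 / 2) ^ w := by
        rw [hs]; ring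

end Pool.Agent.H526.GQ.Gsm
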