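import Mathlib
import Pool.Agent.H985.Chow.Typ

/-!
# Poisson law for the gaps between almost primes of prescribed parities over `F_q[X]`, `q` even
(helper526, project GQ): statements of the parts
-/

namespace Pool.Agent.H526.GQ

open Polynomial
open scoped Classical
open Pool.Agent.H694.Typ (Mn mem_Mn PU mem_PU Irn mem_Irn pol pol_degree pol_inj exists_pol)

/-- The Möbius function of `K[X]`. -/
noncomputable def mob {K : Type} [Field K] (F : K[X]) : ℤ :=
  if Squarefree F then (-1) ^ Multiset.card (UniqueFactorizationMonoid.factors F) else 0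

/-- `F` has no irreducible factor of degree at most `m`. -/
def Sft {K : Type} [Field K] (m : ℕ) (F : K[X]) : Prop :=
  ∀ P : K[X], P.Monic → Irreducible P → P ∣ F → m < P.natDegree

/-- The polynomials of degree at most `D`. -/
noncomputable def Bl (K : Type) [Field K] [Fintype K] (D : ℕ) : Finset K[X] :=
  Finset.univ.image (pol : (Fin (D + 1) → K) → K[X])

theorem mem_Bl {K : Type} [Field K] [Fintype K] {D : ℕ} {u : K[X]} :
    u ∈ Bl K D ↔ u.natDegree ≤ D := by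
  unfold Bl
  rw [Finset.mem_image]
  constructor
  · rintro ⟨c, -, rfl⟩
    have h := pol_degree c
    by_cases h0 : pol c = 0
    · rw [h0]; simp
    · rw [degree_eq_natDegree h0] at h
      have h1 : (pol c).natDegree < D + 1 := by exact_mod_cast h
      omega
  · intro h
    have h1 : u.degree < ((D + 1 : ℕ) : WithBot ℕ) := by
      by_cases h0 : u = 0
      · rw [h0, degree_zero]; exact WithBot.bot_lt_coe _
      · rw [degree_eq_natDegree h0]
        exact_mod_cast Nat.lt_succ_of_le h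
    obtain ⟨c, hc⟩ := exists_pol h1
    exact ⟨c, Finset.mem_univ _, hc⟩

theorem card_Bl (K : Type) [Field K] [Fintype K] (D : ℕ) :
    (Bl K D).card = Fintype.card K ^ (D + 1) := by
  unfold Bl
  rw [Finset.card_image_of_injective _ pol_inj, Finset.card_univ, Fintype.card_fun,
    Fintype.card_fin]

/-- The number of residue classes modulo `P` which meet `T`. -/
noncomputable def nu {K : Type} [Field K] (T : Finset K[X]) (P : K[X]) : ℕ :=
  (T.image (fun t => t %ₘ P)).card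

/-- The local density `1 - ν_T(P) / |P|`. -/
noncomputable def lf {K : Type} [Field K] [Fintype K] (T : Finset K[X]) (P : K[X]) : ℝ :=
  1 - (nu T P : ℝ) / (Fintype.card K : ℝ) ^ P.natDegree

/-- The density `∏ (1 - ν_T(P) / |P|)` over the primes of degree at most `m`. -/
noncomputable def vf {K : Type} [Field K] [Fintype K] (T : Finset K[X]) (m : ℕ) : ℝ :=
  ∏ P ∈ PU K m, lf T P

/-- `∏ (1 - 1 / |P|)` over the primes of degree at most `m`. -/
noncomputable def Vm (K : Type) [Field K] [Fintype K] (m : ℕ) : ℝ :=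
  ∏ P ∈ PU K m, (1 - 1 / (Fintype.card K : ℝ) ^ P.natDegree)

/-- The primes of degree greater than `w` and at most `m`. -/
noncomputable def PW (K : Type) [Field K] [Fintype K] (w m : ℕ) : Finset K[X] :=
  (PU K m).filter (fun P => w < P.natDegree)

/-- `∏ (1 - 1 / |P|)⁻¹` over the prime divisors `P` of `v` with `w < deg P ≤ D`. -/
noncomputable def Gw {K : Type} [Field K] [Fintype K] (w D : ℕ) (v : K[X]) : ℝ :=
  ∏ P ∈ (PW K w D).filter (fun P => P ∣ v), (1 - 1 / (Fintype.card K : ℝ) ^ P.natDegree)⁻¹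

/-- **Task SML.**  Small primes: exact equidistribution. -/
def S_sml : Prop :=
  ∀ (K : Type) [Field K] [Fintype K] (w D : ℕ) (T : Finset K[X]),
    (∑ P ∈ PU K w, P.natDegree) ≤ D + 1 →
    ∑ u ∈ Bl K D, ∏ P ∈ PU K w, lf (insert u T) P =
      (Fintype.card K : ℝ) ^ (D + 1) *
        ∏ P ∈ PU K w, (lf T P * (1 - 1 / (Fintype.card K : ℝ) ^ P.natDegree))

/-- **Task GSM.**  Moments of `Gw`. -/
def S_gsm : Prop :=
  ∀ (K : Type) [Field K] [Fintype K] (N : ℕ), ∃ C : ℝ, 0 < C ∧ ∀ w D : ℕ,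
    ∑ v ∈ (Bl K D).erase 0, (Gw w D v ^ N - 1) ≤
      C * (Fintype.card K : ℝ) ^ (D + 1) * (1 / 2) ^ w

/-- **Task RUP.**  Large primes, upper bound. -/
def S_rup : Prop :=
  ∀ (K : Type) [Field K] [Fintype K] (w m D : ℕ) (T : Finset K[X]) (u : K[X]),
    (∀ t ∈ T, u - t ≠ 0 ∧ (u - t).natDegree ≤ D) →
    ∏ P ∈ PW K w m, lf (insert u T) P ≤
      (∏ P ∈ PW K w m, (lf T P * (1 - 1 / (Fintype.card K : ℝ) ^ P.natDegree))) *
        ∏ t ∈ T, Gw w D (u - t)

/-- **Task RLO.**  Large primes, lower bound. -/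
def S_rlo : Prop :=
  ∀ (K : Type) [Field K] [Fintype K] (k : ℕ) (ε : ℝ), 0 < ε → ∃ w₀ : ℕ, ∀ w : ℕ, w₀ ≤ w →
    ∀ (m : ℕ) (T : Finset K[X]) (u : K[X]), T.card = k →
      (1 - ε) * ∏ P ∈ PW K w m, (lf T P * (1 - 1 / (Fintype.card K : ℝ) ^ P.natDegree)) ≤
        ∏ P ∈ PW K w m, lf (insert u T) P

/-- **Task MER.**  Upper and lower bounds of `Vm`. -/
def S_mer : Prop :=
  ∀ (K : Type) [Field K] [Fintype K],
    (∀ m : ℕ, Vm K m ≤ 1 / ((m : ℝ) + 1)) ∧
      ∃ c : ℝ, 0 < c ∧ ∀ m : ℕ, c / ((m : ℝ) + 1) ^ 2 ≤ Vm K m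

/-- **Task ONE.**  The mean value of the singular series over one further shift. -/
def S_one : Prop :=
  ∀ (K : Type) [Field K] [Fintype K] (k : ℕ) (ε : ℝ), 0 < ε → ∃ D₀ : ℕ, ∀ D : ℕ, D₀ ≤ D →
    ∀ (m : ℕ) (T : Finset K[X]), T ⊆ Bl K D → T.card = k →
      |∑ u ∈ Bl K D \ T, vf (insert u T) m - vf T m * ((Fintype.card K : ℝ) ^ (D + 1) * Vm K m)| ≤
        ε * (vf T m * ((Fintype.card K : ℝ) ^ (D + 1) * Vm K m))

/-- **Task GAL.**  The mean value of the singular series over `j` further shifts. -/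
def S_gal : Prop :=
  ∀ (K : Type) [Field K] [Fintype K] (k j : ℕ) (ε : ℝ), 0 < ε → ∃ D₀ : ℕ, ∀ D : ℕ, D₀ ≤ D →
    ∀ (m : ℕ) (S : Finset K[X]), S ⊆ Bl K D → S.card = k →
      |∑ U ∈ (Bl K D \ S).powersetCard j, vf (S ∪ U) m -
        vf S m * ((Fintype.card K : ℝ) ^ (D + 1) * Vm K m) ^ j / (Nat.factorial j : ℝ)| ≤
        ε * (vf S m * ((Fintype.card K : ℝ) ^ (D + 1) * Vm K m) ^ j)

/-- The number of sifted `f` (a theorem of helper985). -/
def S_cnt : Prop :=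
  ∀ (K : Type) [Field K] [Fintype K] [CharP K 2] (k : ℕ) (ε : ℝ), 0 < ε →
    ∃ κ : ℝ, 0 < κ ∧ ∃ M : ℕ, ∀ n m : ℕ, M ≤ n → M ≤ m → (m : ℝ) ≤ κ * n →
      ∀ T : Finset K[X], T.card = k →
        |(((Mn K n).filter (fun f => ∀ t ∈ T, Sft m (f + t))).card : ℝ) -
          vf T m * (Fintype.card K : ℝ) ^ n| ≤ ε * (vf T m * (Fintype.card K : ℝ) ^ n)

/-- The number of sifted `f` with a given pattern of parities (a theorem of helper985). -/
def S_asy : Prop :=
  ∀ (K : Type) [Field K] [Fintype K] [CharP K 2] (k : ℕ) (ε : ℝ), 0 < ε →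
    ∃ κ : ℝ, 0 < κ ∧ ∃ M : ℕ, ∀ n m : ℕ, M ≤ n → M ≤ m → (m : ℝ) ≤ κ * n →
      ∀ T : Finset K[X], T.card = k → (∀ t ∈ T, t.natDegree < n) →
      ∀ σ : K[X] → ℤ, (∀ s, σ s = 1 ∨ σ s = -1) →
        |(((Mn K n).filter (fun f => (∀ t ∈ T, Sft m (f + t)) ∧
          ∀ t ∈ T, mob (f + t) = σ t)).card : ℝ) -
            vf T m * (Fintype.card K : ℝ) ^ n / 2 ^ k| ≤
              ε * (vf T m * (Fintype.card K : ℝ) ^ n)

/-- **Task HALF.**  Parities at a part of the shifts only. -/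
def S_half : Prop :=
  ∀ (K : Type) [Field K] [Fintype K] [CharP K 2] (k j : ℕ) (ε : ℝ), 0 < ε →
    ∃ κ : ℝ, 0 < κ ∧ ∃ M : ℕ, ∀ n m : ℕ, M ≤ n → M ≤ m → (m : ℝ) ≤ κ * n →
      ∀ S U : Finset K[X], S.card = k → U.card = j → Disjoint S U →
      (∀ t ∈ S ∪ U, t.natDegree < n) →
      ∀ σ : K[X] → ℤ, (∀ s, σ s = 1 ∨ σ s = -1) →
        |(((Mn K n).filter (fun f => (∀ t ∈ S ∪ U, Sft m (f + t)) ∧
          ∀ s ∈ S, mob (f + s) = σ s)).card : ℝ) -
            vf (S ∪ U) m * (Fintype.card K : ℝ) ^ n / 2 ^ k| ≤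
              ε * (vf (S ∪ U) m * (Fintype.card K : ℝ) ^ n)

/-- The monic `f` of degree `n` such that the sifted polynomials in the ball of radius `q ^ D` about
`f` are exactly the `f + s`, `s ∈ S`, and have the parities `σ`. -/
noncomputable def Ex {K : Type} [Field K] [Fintype K] (n m D : ℕ) (S : Finset K[X])
    (σ : K[X] → ℤ) : Finset K[X] :=
  (Mn K n).filter (fun f => (∀ u ∈ Bl K D, Sft m (f + u) ↔ u ∈ S) ∧ ∀ s ∈ S, mob (f + s) = σ s)

/-- **Task POI.**  The Poisson law, rooted at `S`, for `D ≥ D₀`. -/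
def S_pois : Prop :=
  ∀ (K : Type) [Field K] [Fintype K] [CharP K 2] (k : ℕ) (A ε : ℝ), 0 < A → 0 < ε →
    ∃ κ : ℝ, 0 < κ ∧ ∃ M D₀ : ℕ, ∀ n m : ℕ, M ≤ n → M ≤ m → (m : ℝ) ≤ κ * n →
      ∀ D : ℕ, D₀ ≤ D → (Fintype.card K : ℝ) ^ (D + 1) ≤ A * m →
      ∀ S : Finset K[X], S ⊆ Bl K D → S.card = k →
      ∀ σ : K[X] → ℤ, (∀ s, σ s = 1 ∨ σ s = -1) →
        |((Ex n m D S σ).card : ℝ) -
          Real.exp (-((Fintype.card K : ℝ) ^ (D + 1) * Vm K m)) *
            (vf S m * (Fintype.card K : ℝ) ^ n) / 2 ^ k| ≤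
              ε * (vf S m * (Fintype.card K : ℝ) ^ n)

/-- **Task ALL.**  The Poisson law, rooted at `S`, for all `D`. -/
def S_all : Prop :=
  ∀ (K : Type) [Field K] [Fintype K] [CharP K 2] (k : ℕ) (A ε : ℝ), 0 < A → 0 < ε →
    ∃ κ : ℝ, 0 < κ ∧ ∃ M : ℕ, ∀ n m : ℕ, M ≤ n → M ≤ m → (m : ℝ) ≤ κ * n →
      ∀ D : ℕ, (Fintype.card K : ℝ) ^ (D + 1) ≤ A * m →
      ∀ S : Finset K[X], S ⊆ Bl K D → S.card = k →
      ∀ σ : K[X] → ℤ, (∀ s, σ s = 1 ∨ σ s = -1) →
        |((Ex n m D S σ).card : ℝ) -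
          Real.exp (-((Fintype.card K : ℝ) ^ (D + 1) * Vm K m)) *
            (vf S m * (Fintype.card K : ℝ) ^ n) / 2 ^ k| ≤
              ε * (vf S m * (Fintype.card K : ℝ) ^ n)

def S_oneasm : Prop := S_sml → S_gsm → S_rup → S_rlo → S_mer → S_one
def S_galasm : Prop := S_one → S_gal
def S_halfasm : Prop := S_cnt → S_asy → S_half
def S_poisasm : Prop := S_gal → S_half → S_mer → S_pois
def S_allasm : Prop := S_pois → S_half → S_mer → S_all

end Pool.Agent.H526.GQ
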