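import Mathlib
import Pool.Agent.H526.GQ.Stm

/-!
# Job HALF of project GQ: parities at a part of the shifts
-/

set_option autoImplicit false

namespace Pool.Agent.H526.GQ.HalfAsm

open Polynomial
open scoped Classical
open Pool.Agent.H694.Typ (Mn)

section
variable {K : Type} [Field K] [Fintype K]

/-- the pattern which is `-1` on `A` and `1` outside -/
noncomputable def tau (A : Finset K[X]) (s : K[X]) : ℤ := if s ∈ A then -1 else 1

omit [Fintype K] in
theorem tau_or (A : Finset K[X]) (s : K[X]) : tau A s = 1 ∨ tau A s = -1 := by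
  unfold tau
  by_cases h : s ∈ A
  · rw [if_pos h]; exact Or.inr rfl
  · rw [if_neg h]; exact Or.inl rfl

omit [Fintype K] in
theorem tau_iff (A : Finset K[X]) (s : K[X]) : tau A s = -1 ↔ s ∈ A := by
  unfold tau
  by_cases h : s ∈ A
  · rw [if_pos h]; exact ⟨fun _ => h, fun _ => rfl⟩
  · rw [if_neg h]
    exact ⟨fun h1 => absurd h1 (by norm_num), fun h1 => absurd h1 h⟩

/-- the sifted `f` with the pattern of `A` on `T` -/
noncomputable def NA (n m : ℕ) (T A : Finset K[X]) : Finset K[X] :=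
  (Mn K n).filter (fun f => (∀ t ∈ T, Sft m (f + t)) ∧ ∀ t ∈ T, mob (f + t) = tau A t)

/-- different patterns give disjoint sets -/
theorem NA_disj (n m : ℕ) (T A B : Finset K[X]) (hA : A ⊆ T) (hB : B ⊆ T) (hAB : A ≠ B) :
    Disjoint (NA n m T A) (NA n m T B) := by
  rw [Finset.disjoint_left]
  intro f h1 h2
  unfold NA at h1 h2
  rw [Finset.mem_filter] at h1 h2
  apply hAB
  ext t
  constructor
  · intro h
    rw [← tau_iff B, ← h2.2.2 t (hA h), h1.2.2 t (hA h), tau_iff]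
    exact h
  · intro h
    rw [← tau_iff A, ← h1.2.2 t (hB h), h2.2.2 t (hB h), tau_iff]
    exact h

end

theorem arith (P R ε W H Sig Gd Bd : ℝ) (hP : 1 ≤ P) (hR : 1 ≤ R) (hε : 0 < ε) (hW : 0 ≤ W)
    (hSig : Sig ≤ W + ε / (2 * (P * R)) * W)
    (hGd : R * (W / (P * R) - ε / (2 * (P * R)) * W) ≤ Gd)
    (hBd : (P * R - R) * (W / (P * R) - ε / (2 * (P * R)) * W) ≤ Bd)
    (h1 : Gd ≤ H) (h2 : H + Bd ≤ Sig) : |H - W / P| ≤ ε * W := by
  have hP0 : 0 < P := by linarith
  have hR0 : 0 < R := by linarith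
  have e1 : R * (W / (P * R) - ε / (2 * (P * R)) * W) = W / P - ε * W / (2 * P) := by
    field_simp
  have e2 : (P * R - R) * (W / (P * R) - ε / (2 * (P * R)) * W) =
      W - W / P - (ε * W / 2 - ε * W / (2 * P)) := by
    field_simp
  have hεW : 0 ≤ ε * W := mul_nonneg hε.le hW
  have e3 : ε * W / (2 * P) ≤ ε * W := by
    rw [div_le_iff₀ (by positivity)]
    nlinarith
  have e4 : ε / (2 * (P * R)) * W ≤ ε * W / (2 * P) := by
    rw [div_mul_eq_mul_div]
    refine div_le_div_of_nonneg_left hεW (by positivity) ?_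
    nlinarith
  rw [abs_le]
  rw [e1] at hGd
  rw [e2] at hBd
  constructor <;> linarith

/-- **HALF.** -/
theorem main : S_halfasm := by
  intro hcnt hasy K _ _ _ k j ε hε
  have hpos : (0 : ℝ) < ε / (2 * (2 ^ k * 2 ^ j)) := by positivity
  obtain ⟨κ1, hκ1, M1, h1⟩ := hcnt K (k + j) _ hpos
  obtain ⟨κ2, hκ2, M2, h2⟩ := hasy K (k + j) _ hpos
  refine ⟨min κ1 κ2, lt_min hκ1 hκ2, max M1 M2, ?_⟩
  intro n m hn hm hmn S U hS hU hd hdeg σ hσ
  have hn0 : (0 : ℝ) ≤ n := Nat.cast_nonneg _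
  have hc : (S ∪ U).card = k + j := by rw [Finset.card_union_of_disjoint hd, hS, hU]
  have a1 := h1 n m (le_trans (le_max_left _ _) hn) (le_trans (le_max_left _ _) hm)
    (hmn.trans (mul_le_mul_of_nonneg_right (min_le_left _ _) hn0)) (S ∪ U) hc
  have a2 := h2 n m (le_trans (le_max_right _ _) hn) (le_trans (le_max_right _ _) hm)
    (hmn.trans (mul_le_mul_of_nonneg_right (min_le_right _ _) hn0)) (S ∪ U) hc hdeg
  obtain ⟨W, hWdef⟩ : ∃ W : ℝ, W = vf (S ∪ U) m * (Fintype.card K : ℝ) ^ n := ⟨_, rfl⟩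
  rw [← hWdef] at a1 a2 ⊢
  have hW : 0 ≤ W := by
    have h3 := (abs_nonneg _).trans a1
    exact nonneg_of_mul_nonneg_right h3 hpos
  -- the sets
  obtain ⟨A0, hA0⟩ : ∃ A0 : Finset K[X], A0 = S.filter (fun s => σ s = -1) := ⟨_, rfl⟩
  obtain ⟨good, hgood⟩ : ∃ g : Finset (Finset K[X]), g = U.powerset.image (fun B => A0 ∪ B) := ⟨_, rfl⟩
  obtain ⟨bad, hbad⟩ : ∃ b : Finset (Finset K[X]), b = (S ∪ U).powerset \ good := ⟨_, rfl⟩
  obtain ⟨Hs, hHs⟩ : ∃ Hs : Finset K[X], Hs = (Mn K n).filter (fun f =>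
      (∀ t ∈ S ∪ U, Sft m (f + t)) ∧ ∀ s ∈ S, mob (f + s) = σ s) := ⟨_, rfl⟩
  have hA0S : A0 ⊆ S := by rw [hA0]; exact Finset.filter_subset _ _
  have hA0U : Disjoint A0 U := Finset.disjoint_of_subset_left hA0S hd
  have hgT : good ⊆ (S ∪ U).powerset := by
    intro A hA
    rw [hgood, Finset.mem_image] at hA
    obtain ⟨B, hB, rfl⟩ := hA
    rw [Finset.mem_powerset] at hB ⊢
    exact Finset.union_subset_union hA0S hB
  have hcg : good.card = 2 ^ j := by
    rw [hgood, Finset.card_image_of_injOn, Finset.card_powerset, hU]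
    intro B hB C hC h
    rw [Finset.mem_coe, Finset.mem_powerset] at hB hC
    have h3 : ∀ D : Finset K[X], D ⊆ U → (A0 ∪ D) \ A0 = D := by
      intro D hD
      rw [Finset.union_sdiff_left]
      exact Finset.sdiff_eq_self_of_disjoint (Finset.disjoint_of_subset_left hD hA0U.symm)
    rw [← h3 B hB, ← h3 C hC]
    exact congrArg (fun D => D \ A0) h
  have hcb : (bad.card : ℝ) = 2 ^ k * 2 ^ j - 2 ^ j := by
    rw [hbad, Finset.card_sdiff_of_subset hgT, Finset.card_powerset, hc, hcg, Nat.cast_sub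
      (Nat.pow_le_pow_right (by norm_num) (Nat.le_add_left j k))]
    push_cast
    rw [pow_add]
  have hlow : ∀ A, W / (2 ^ k * 2 ^ j) - ε / (2 * (2 ^ k * 2 ^ j)) * W ≤ ((NA n m (S ∪ U) A).card : ℝ) := by
    intro A
    have h3 := a2 (tau A) (tau_or A)
    rw [abs_le, pow_add] at h3
    have h4 := h3.1
    unfold NA
    linarith
  have hdisj : ∀ F : Finset (Finset K[X]), F ⊆ (S ∪ U).powerset →
      ((F : Set (Finset K[X]))).PairwiseDisjoint (NA n m (S ∪ U)) := by
    intro F hF A hA B hB hAB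
    exact NA_disj n m _ A B (Finset.mem_powerset.1 (hF hA)) (Finset.mem_powerset.1 (hF hB)) hAB
  have hsum : ∀ F : Finset (Finset K[X]), F ⊆ (S ∪ U).powerset →
      (F.card : ℝ) * (W / (2 ^ k * 2 ^ j) - ε / (2 * (2 ^ k * 2 ^ j)) * W) ≤
        ((F.biUnion (NA n m (S ∪ U))).card : ℝ) := by
    intro F hF
    rw [Finset.card_biUnion (hdisj F hF)]
    push_cast
    rw [← nsmul_eq_mul]
    exact Finset.card_nsmul_le_sum _ _ _ fun A _ => hlow A
  have hG := hsum good hgT
  have hB := hsum bad (by rw [hbad]; exact Finset.sdiff_subset)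
  rw [hcg] at hG
  rw [hcb] at hB
  push_cast at hG
  have hGH : good.biUnion (NA n m (S ∪ U)) ⊆ Hs := by
    intro f hf
    rw [Finset.mem_biUnion] at hf
    obtain ⟨A, hA, hf⟩ := hf
    rw [hgood, Finset.mem_image] at hA
    obtain ⟨B, hB, rfl⟩ := hA
    rw [Finset.mem_powerset] at hB
    unfold NA at hf
    rw [Finset.mem_filter] at hf
    rw [hHs, Finset.mem_filter]
    refine ⟨hf.1, hf.2.1, fun s hs => ?_⟩
    rw [hf.2.2 s (Finset.mem_union_left _ hs)]
    have h3 : s ∈ A0 ∪ B ↔ σ s = -1 := by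
      rw [Finset.mem_union, hA0, Finset.mem_filter]
      constructor
      · rintro (h | h)
        · exact h.2
        · exact absurd (hB h) (Finset.disjoint_left.1 hd hs)
      · intro h
        exact Or.inl ⟨hs, h⟩
    rcases hσ s with h | h
    · rcases tau_or (A0 ∪ B) s with h4 | h4
      · rw [h4, h]
      · rw [tau_iff, h3, h] at h4
        exact absurd h4 (by norm_num)
    · rw [(tau_iff (A0 ∪ B) s).2 (h3.2 h), h]
  have hHB : Disjoint Hs (bad.biUnion (NA n m (S ∪ U))) := by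
    rw [Finset.disjoint_left]
    intro f hf hf2
    rw [Finset.mem_biUnion] at hf2
    obtain ⟨A, hA, hf2⟩ := hf2
    rw [hbad, Finset.mem_sdiff, Finset.mem_powerset] at hA
    unfold NA at hf2
    rw [Finset.mem_filter] at hf2
    rw [hHs, Finset.mem_filter] at hf
    apply hA.2
    rw [hgood, Finset.mem_image]
    refine ⟨A ∩ U, Finset.mem_powerset.2 Finset.inter_subset_right, ?_⟩
    have h3 : ∀ s ∈ S, (s ∈ A ↔ σ s = -1) := by
      intro s hs
      rw [← tau_iff A, ← hf2.2.2 s (Finset.mem_union_left _ hs), hf.2.2 s hs]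
    ext s
    rw [Finset.mem_union, Finset.mem_inter, hA0, Finset.mem_filter]
    constructor
    · rintro (h | h)
      · exact (h3 s h.1).2 h.2
      · exact h.1
    · intro h
      rcases Finset.mem_union.1 (hA.1 h) with h4 | h4
      · exact Or.inl ⟨h4, (h3 s h4).1 h⟩
      · exact Or.inr ⟨h, h4⟩
  have hsub : Hs ∪ bad.biUnion (NA n m (S ∪ U)) ⊆ (Mn K n).filter (fun f => ∀ t ∈ S ∪ U, Sft m (f + t)) := by
    intro f hf
    rw [Finset.mem_filter]
    rcases Finset.mem_union.1 hf with h | h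
    · rw [hHs, Finset.mem_filter] at h
      exact ⟨h.1, h.2.1⟩
    · rw [Finset.mem_biUnion] at h
      obtain ⟨A, _, h⟩ := h
      unfold NA at h
      rw [Finset.mem_filter] at h
      exact ⟨h.1, h.2.1⟩
  have c1 : ((good.biUnion (NA n m (S ∪ U))).card : ℝ) ≤ (Hs.card : ℝ) := by
    exact_mod_cast Finset.card_le_card hGH
  have c2 : (Hs.card : ℝ) + ((bad.biUnion (NA n m (S ∪ U))).card : ℝ) ≤
      (((Mn K n).filter (fun f => ∀ t ∈ S ∪ U, Sft m (f + t))).card : ℝ) := by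
    have h3 := Finset.card_le_card hsub
    rw [Finset.card_union_of_disjoint hHB] at h3
    exact_mod_cast h3
  rw [abs_le] at a1
  have hR : (1 : ℝ) ≤ 2 ^ j := one_le_pow₀ (by norm_num)
  have hP : (1 : ℝ) ≤ 2 ^ k := one_le_pow₀ (by norm_num)
  rw [← hHs]
  exact arith (2 ^ k) (2 ^ j) ε W _ _ _ _ hP hR hε hW (by linarith [a1.2]) hG hB c1 c2

end Pool.Agent.H526.GQ.HalfAsm
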