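import Pool.Agent.H526.GQ.Stm

/-!
# Task MER (project GQ of helper526): upper and lower bounds of Mertens' product over `F_q[X]`

The upper bound is after `Pool.Agent.H524.MT.Mert`, the lower bound after `Pool.Agent.H155.SI.Vl`.
-/

set_option autoImplicit false
set_option linter.all false

namespace Pool.Agent.H526.GQ.Mer

open Polynomial
open scoped Classical
open Pool.Agent.H694.Typ
open Pool.Agent.H526.GQ (Vm S_mer)

variable {K : Type} [Field K] [Fintype K]

/-- the weight `1 / |f|` -/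
noncomputable def w (f : K[X]) : ℝ := 1 / (Fintype.card K : ℝ) ^ f.natDegree

theorem two_le_q : (2 : ℝ) ≤ (Fintype.card K : ℝ) := by
  exact_mod_cast (Fintype.one_lt_card (α := K))

theorem w_pos (f : K[X]) : 0 < w f := by
  have := two_le_q (K := K)
  unfold w
  positivity

theorem w_one : w (1 : K[X]) = 1 := by
  unfold w
  rw [natDegree_one, pow_zero, div_one]

theorem w_mul {f g : K[X]} (hf : f.Monic) (hg : g.Monic) : w (f * g) = w f * w g := by
  unfold w
  rw [hf.natDegree_mul hg, pow_add, one_div_mul_one_div]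

theorem w_pow {f : K[X]} (hf : f.Monic) (v : ℕ) : w (f ^ v) = w f ^ v := by
  unfold w
  rw [hf.natDegree_pow, one_div_pow, ← pow_mul, mul_comm]

theorem w_le_half {P : K[X]} (hP : Irreducible P) : w P ≤ 1 / 2 := by
  have hq := two_le_q (K := K)
  unfold w
  apply one_div_le_one_div_of_le (by norm_num)
  calc (2 : ℝ) ≤ (Fintype.card K : ℝ) := hq
    _ = (Fintype.card K : ℝ) ^ 1 := (pow_one _).symm
    _ ≤ _ := pow_le_pow_right₀ (by linarith) hP.natDegree_pos

theorem w_prod {S : Finset K[X]} (hS : ∀ P ∈ S, P.Monic) : w (∏ P ∈ S, P) = ∏ P ∈ S, w P := by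
  induction S using Finset.induction_on with
  | empty => rw [Finset.prod_empty, Finset.prod_empty, w_one]
  | insert a s ha ih =>
    rw [Finset.prod_insert ha, Finset.prod_insert ha, w_mul (hS a (Finset.mem_insert_self _ _))
      (monic_prod_of_monic _ _ fun P hP => hS P (Finset.mem_insert_of_mem hP)),
      ih fun P hP => hS P (Finset.mem_insert_of_mem hP)]

theorem geom_le {x : ℝ} (h0 : 0 ≤ x) (h1 : x < 1) (n : ℕ) :
    ∑ v ∈ Finset.range n, x ^ v ≤ (1 - x)⁻¹ := by
  have h2 : (1 - x) * ∑ v ∈ Finset.range n, x ^ v = 1 - x ^ n := mul_neg_geom_sum x n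
  have h3 : 0 < 1 - x := by linarith
  have h4 : 0 ≤ x ^ n := pow_nonneg h0 n
  rw [inv_eq_one_div, le_div_iff₀ h3, mul_comm, h2]
  linarith

/-- the sum of the weights of monic polynomials with all prime factors in `S` -/
theorem key (S : Finset K[X]) (hS : ∀ P ∈ S, P.Monic ∧ Irreducible P) :
    ∀ N : Finset K[X], (∀ n ∈ N, n.Monic ∧ ∀ P : K[X], P.Monic → Irreducible P → P ∣ n → P ∈ S) →
      ∑ n ∈ N, w n ≤ ∏ P ∈ S, (1 - w P)⁻¹ := by
  induction S using Finset.induction_on with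
  | empty =>
    intro N hN
    rw [Finset.prod_empty]
    have h1 : N ⊆ {1} := by
      intro n hn
      rw [Finset.mem_singleton]
      obtain ⟨h2, h3⟩ := hN n hn
      by_contra hne
      have h4 : ¬ IsUnit n := fun hu => hne (h2.eq_one_of_isUnit hu)
      obtain ⟨P, hP1, hP2, hP3⟩ := exists_monic_irreducible_factor n h4
      exact absurd (h3 P hP1 hP2 hP3) (Finset.notMem_empty P)
    calc ∑ n ∈ N, w n ≤ ∑ n ∈ ({1} : Finset K[X]), w n :=
          Finset.sum_le_sum_of_subset_of_nonneg h1 fun n _ _ => (w_pos n).le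
      _ = 1 := by rw [Finset.sum_singleton, w_one]
  | insert P s hPs ih =>
    intro N hN
    have hPm := (hS P (Finset.mem_insert_self _ _)).1
    have hPi := (hS P (Finset.mem_insert_self _ _)).2
    have hs := ih fun Q hQ => hS Q (Finset.mem_insert_of_mem hQ)
    have hfin : ∀ n ∈ N, FiniteMultiplicity P n := fun n hn =>
      FiniteMultiplicity.of_not_isUnit hPi.not_isUnit (hN n hn).1.ne_zero
    set V := N.sup (fun n => multiplicity P n) with hV
    have h1 : ∑ n ∈ N, w n = ∑ v ∈ Finset.range (V + 1),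
        ∑ n ∈ N.filter (fun n => multiplicity P n = v), w n := by
      rw [Finset.sum_fiberwise_of_maps_to]
      intro n hn
      rw [Finset.mem_range]
      have := Finset.le_sup (f := fun n => multiplicity P n) hn
      exact Nat.lt_succ_of_le this
    have h2 : ∀ v : ℕ, ∑ n ∈ N.filter (fun n => multiplicity P n = v), w n ≤
        w P ^ v * ∏ Q ∈ s, (1 - w Q)⁻¹ := by
      intro v
      have h3 : ∀ n ∈ N.filter (fun n => multiplicity P n = v), n = P ^ v * (n /ₘ P ^ v) ∧
          ¬ P ∣ n /ₘ P ^ v := by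
        intro n hn
        rw [Finset.mem_filter] at hn
        obtain ⟨c, hc, hc2⟩ := (hfin n hn.1).exists_eq_pow_mul_and_not_dvd
        rw [hn.2] at hc
        have h5 : n /ₘ P ^ v = c := by
          rw [hc]
          exact mul_divByMonic_cancel_left c (hPm.pow v)
        rw [h5]
        exact ⟨hc, hc2⟩
      have h4 : ∀ n ∈ N.filter (fun n => multiplicity P n = v), (n /ₘ P ^ v).Monic := by
        intro n hn
        have h5 : (P ^ v * (n /ₘ P ^ v)).Monic := by
          rw [← (h3 n hn).1]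
          exact (hN n (Finset.mem_filter.1 hn).1).1
        exact (hPm.pow v).of_mul_monic_left h5
      have h5 : ∑ n ∈ N.filter (fun n => multiplicity P n = v), w n =
          w P ^ v * ∑ m ∈ (N.filter (fun n => multiplicity P n = v)).image (fun n => n /ₘ P ^ v),
            w m := by
        rw [Finset.sum_image, Finset.mul_sum]
        · refine Finset.sum_congr rfl fun n hn => ?_
          rw [← w_pow hPm, ← w_mul (hPm.pow v) (h4 n hn), ← (h3 n hn).1]
        · intro a ha b hb hab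
          rw [(h3 a ha).1, (h3 b hb).1]
          simp only at hab
          rw [hab]
      rw [h5]
      refine mul_le_mul_of_nonneg_left (hs _ ?_) (pow_nonneg (w_pos P).le v)
      intro m hm
      rw [Finset.mem_image] at hm
      obtain ⟨n, hn, rfl⟩ := hm
      refine ⟨h4 n hn, fun Q hQ1 hQ2 hQ3 => ?_⟩
      have h6 : Q ∣ n := by
        rw [(h3 n hn).1]
        exact Dvd.dvd.mul_left hQ3 _
      have h7 := (hN n (Finset.mem_filter.1 hn).1).2 Q hQ1 hQ2 h6
      rw [Finset.mem_insert] at h7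
      rcases h7 with h7 | h7
      · exfalso
        rw [h7] at hQ3
        exact (h3 n hn).2 hQ3
      · exact h7
    have hwP := w_le_half hPi
    have hpr : 0 ≤ ∏ Q ∈ s, (1 - w Q)⁻¹ := by
      refine Finset.prod_nonneg fun Q hQ => inv_nonneg.2 ?_
      have := w_le_half (hS Q (Finset.mem_insert_of_mem hQ)).2
      linarith
    rw [h1, Finset.prod_insert hPs]
    calc ∑ v ∈ Finset.range (V + 1), ∑ n ∈ N.filter (fun n => multiplicity P n = v), w n ≤
        ∑ v ∈ Finset.range (V + 1), w P ^ v * ∏ Q ∈ s, (1 - w Q)⁻¹ :=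
          Finset.sum_le_sum fun v _ => h2 v
      _ = (∑ v ∈ Finset.range (V + 1), w P ^ v) * ∏ Q ∈ s, (1 - w Q)⁻¹ := by
          rw [Finset.sum_mul]
      _ ≤ (1 - w P)⁻¹ * ∏ Q ∈ s, (1 - w Q)⁻¹ :=
          mul_le_mul_of_nonneg_right (geom_le (w_pos P).le (by linarith) _) hpr

/-- the monic polynomials of degree at most `T` -/
noncomputable def Nt (K : Type) [Field K] [Fintype K] (T : ℕ) : Finset K[X] :=
  (Finset.range (T + 1)).biUnion (fun j => Mn K j)

theorem mem_Nt {T : ℕ} {f : K[X]} : f ∈ Nt K T ↔ f.Monic ∧ f.natDegree ≤ T := by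
  unfold Nt
  rw [Finset.mem_biUnion]
  constructor
  · rintro ⟨j, hj, hf⟩
    rw [mem_Mn] at hf
    rw [Finset.mem_range] at hj
    exact ⟨hf.1, by omega⟩
  · rintro ⟨h1, h2⟩
    exact ⟨f.natDegree, Finset.mem_range.2 (by omega), mem_Mn.2 ⟨h1, rfl⟩⟩

theorem sum_Nt (T : ℕ) : ∑ n ∈ Nt K T, w n = (T : ℝ) + 1 := by
  unfold Nt
  rw [Finset.sum_biUnion]
  · have h1 : ∀ j ∈ Finset.range (T + 1), ∑ n ∈ Mn K j, w n = 1 := by
      intro j _
      have h2 : ∀ n ∈ Mn K j, w n = 1 / (Fintype.card K : ℝ) ^ j := by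
        intro n hn
        unfold w
        rw [(mem_Mn.1 hn).2]
      rw [Finset.sum_congr rfl h2, Finset.sum_const, card_Mn, nsmul_eq_mul]
      have hq := two_le_q (K := K)
      rw [Nat.cast_pow, mul_one_div, div_self (by positivity)]
    rw [Finset.sum_congr rfl h1, Finset.sum_const, Finset.card_range, nsmul_eq_mul, mul_one]
    push_cast
    ring
  · intro a _ b _ hab
    rw [Function.onFun, Finset.disjoint_left]
    intro P hP hP'
    exact hab ((mem_Mn.1 hP).2.symm.trans (mem_Mn.1 hP').2)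
/-- the product over the primes of degree at most `z` -/
noncomputable def Me (K : Type) [Field K] [Fintype K] (z : ℕ) : ℝ := ∏ P ∈ PU K z, (1 - w P)⁻¹

theorem inv_pos' {P : K[X]} (hP : Irreducible P) : 0 < (1 - w P)⁻¹ := by
  have := w_le_half hP
  exact inv_pos.2 (by linarith)

theorem one_le_inv {P : K[X]} (hP : Irreducible P) : 1 ≤ (1 - w P)⁻¹ := by
  have := w_le_half hP
  have := w_pos P
  rw [one_le_inv₀ (by linarith)]
  linarith

theorem Me_lower (z : ℕ) : (z : ℝ) + 1 ≤ Me K z := by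
  rw [← sum_Nt (K := K) z]
  unfold Me
  apply key
  · intro P hP
    rw [mem_PU] at hP
    exact ⟨hP.1, hP.2.1⟩
  · intro n hn
    rw [mem_Nt] at hn
    refine ⟨hn.1, fun P h1 h2 h3 => ?_⟩
    rw [mem_PU]
    exact ⟨h1, h2, (natDegree_le_of_dvd h3 hn.1.ne_zero).trans hn.2⟩

section low
open Finset

theorem prod_PU (D : ℕ) (f : K[X] → ℝ) :
    ∏ P ∈ PU K D, f P = ∏ j ∈ Finset.Icc 1 D, ∏ P ∈ Irn K j, f P := by
  unfold PU
  rw [prod_biUnion]
  intro a _ b _ hab
  rw [Function.onFun, Finset.disjoint_left]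
  intro P hP hP'
  exact hab ((mem_Irn.1 hP).2.1.symm.trans (mem_Irn.1 hP').2.1)

theorem prod_Irn (j : ℕ) : ∏ P ∈ Irn K j, (1 - 1 / (Fintype.card K : ℝ) ^ P.natDegree) =
    (1 - 1 / (Fintype.card K : ℝ) ^ j) ^ (Irn K j).card := by
  rw [prod_congr rfl (fun P hP => by rw [(mem_Irn.1 hP).2.1]), prod_const]

theorem prod_Irn_ge {j : ℕ} (hj : 1 ≤ j) : 1 - 1 / (j : ℝ) ≤
    ∏ P ∈ Irn K j, (1 - 1 / (Fintype.card K : ℝ) ^ P.natDegree) := by
  rw [prod_Irn]
  have hq := q_ge (k := K)
  have hpos : (0 : ℝ) < (Fintype.card K : ℝ) ^ j := by positivity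
  have hj0 : (0 : ℝ) < j := by exact_mod_cast hj
  have h1 : (j : ℝ) * (Irn K j).card ≤ (Fintype.card K : ℝ) ^ j := by
    exact_mod_cast irn_one_le (k := K) (d := j) hj
  have h2 : (1 : ℝ) ≤ (Fintype.card K : ℝ) ^ j := one_le_pow₀ (by linarith)
  have h3 : 1 / (Fintype.card K : ℝ) ^ j ≤ 1 := by
    rw [div_le_one hpos]
    exact h2
  have h4 := one_add_mul_le_pow (a := -(1 / (Fintype.card K : ℝ) ^ j)) (by linarith)
    (Irn K j).card
  have h5 : ((Irn K j).card : ℝ) * (1 / (Fintype.card K : ℝ) ^ j) ≤ 1 / (j : ℝ) := by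
    rw [mul_one_div, div_le_div_iff₀ hpos hj0]
    linarith
  have h6 : (1 : ℝ) + -(1 / (Fintype.card K : ℝ) ^ j) = 1 - 1 / (Fintype.card K : ℝ) ^ j := by ring
  rw [h6] at h4
  linarith

/-- the lower bound `c / m` -/
theorem low (K : Type) [Field K] [Fintype K] (m : ℕ) (hm : 1 ≤ m) :
    (1 - 1 / (Fintype.card K : ℝ) ^ 1) ^ (Irn K 1).card / (m : ℝ) ≤
      ∏ P ∈ PU K m, (1 - 1 / (Fintype.card K : ℝ) ^ P.natDegree) := by
  have hq := q_ge (k := K)
  have hx : (0 : ℝ) < 1 - 1 / (Fintype.card K : ℝ) ^ 1 := by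
    rw [pow_one, sub_pos, div_lt_one (by linarith)]
    linarith
  rw [prod_PU]
  induction m, hm using Nat.le_induction with
  | base =>
    rw [Finset.Icc_self, prod_singleton, prod_Irn, Nat.cast_one, div_one]
  | succ m hm ih =>
    rw [Finset.prod_Icc_succ_top (by omega)]
    have hm0 : (0 : ℝ) < m := by exact_mod_cast hm
    have h1 := prod_Irn_ge (K := K) (j := m + 1) (by omega)
    have h2 : (0 : ℝ) ≤ (1 - 1 / (Fintype.card K : ℝ) ^ 1) ^ (Irn K 1).card := (pow_pos hx _).le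
    have h3 : (0 : ℝ) ≤ 1 - 1 / ((m + 1 : ℕ) : ℝ) := by
      push_cast
      rw [sub_nonneg, div_le_one (by linarith)]
      linarith
    calc (1 - 1 / (Fintype.card K : ℝ) ^ 1) ^ (Irn K 1).card / ((m + 1 : ℕ) : ℝ)
        = (1 - 1 / (Fintype.card K : ℝ) ^ 1) ^ (Irn K 1).card / m * (1 - 1 / ((m + 1 : ℕ) : ℝ)) := by
          push_cast
          field_simp
          ring
      _ ≤ _ := mul_le_mul ih h1 h3 (le_trans (div_nonneg h2 hm0.le) ih)

end low

theorem upper (K : Type) [Field K] [Fintype K] (m : ℕ) : Vm K m ≤ 1 / ((m : ℝ) + 1) := by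
  have h1 := Me_lower (K := K) m
  have h2 : Me K m = (Vm K m)⁻¹ := by
    unfold Me Vm w
    rw [Finset.prod_inv_distrib]
  have hm : (0 : ℝ) < (m : ℝ) + 1 := by positivity
  rw [h2] at h1
  have h3 : 0 < Vm K m := by
    rcases lt_or_ge 0 (Vm K m) with h | h
    · exact h
    · exfalso
      have h4 := inv_nonpos.2 h
      linarith
  rw [le_div_iff₀ hm, mul_comm]
  have h5 : ((m : ℝ) + 1) * Vm K m ≤ (Vm K m)⁻¹ * Vm K m := mul_le_mul_of_nonneg_right h1 h3.le
  rwa [inv_mul_cancel₀ h3.ne'] at h5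

/-- **Task MER.** -/
theorem main : Pool.Agent.H526.GQ.S_mer := by
  intro K _ _
  have hq := q_ge (k := K)
  have hx : (0 : ℝ) < 1 - 1 / (Fintype.card K : ℝ) ^ 1 := by
    rw [pow_one, sub_pos, div_lt_one (by linarith)]
    linarith
  have hx1 : 1 - 1 / (Fintype.card K : ℝ) ^ 1 ≤ 1 := by
    have : 0 ≤ 1 / (Fintype.card K : ℝ) ^ 1 := by positivity
    linarith
  refine ⟨upper K, (1 - 1 / (Fintype.card K : ℝ) ^ 1) ^ (Irn K 1).card, pow_pos hx _, fun m => ?_⟩
  set c : ℝ := (1 - 1 / (Fintype.card K : ℝ) ^ 1) ^ (Irn K 1).card with hc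
  have hc0 : 0 < c := pow_pos hx _
  rcases Nat.eq_zero_or_pos m with h | h
  · subst h
    have h1 : Vm K 0 = 1 := by
      unfold Vm PU
      simp
    rw [h1]
    have h2 : c ≤ 1 := pow_le_one₀ hx.le hx1
    simpa using h2
  · refine le_trans ?_ (low K m h)
    rw [← hc]
    have hm0 : (1 : ℝ) ≤ m := by exact_mod_cast h
    apply div_le_div_of_nonneg_left hc0.le (by linarith)
    nlinarith

end Pool.Agent.H526.GQ.Mer
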