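import Pool.Agent.H526.GQ.Stm

/-!
# Project GQ (helper526), task ONE: the mean value of the singular series over one further shift
-/

set_option autoImplicit false

namespace Pool.Agent.H526.GQ.OneAsm

open Polynomial Finset
open scoped Classical
open Pool.Agent.H694.Typ (Mn mem_Mn PU mem_PU Irn mem_Irn pol pol_degree pol_inj exists_pol q_ge)
open Pool.Agent.H526.GQ

variable {K : Type} [Field K] [Fintype K]

theorem nu_le (T : Finset K[X]) {P : K[X]} (hP : P.Monic) :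
    nu T P ≤ Fintype.card K ^ P.natDegree := by
  unfold nu
  have h : T.image (fun t => t %ₘ P) ⊆
      Finset.univ.image (pol : (Fin P.natDegree → K) → K[X]) := by
    intro u hu
    obtain ⟨t, -, rfl⟩ := mem_image.1 hu
    have h1 : (t %ₘ P).degree < ((P.natDegree : ℕ) : WithBot ℕ) := by
      rw [← degree_eq_natDegree hP.ne_zero]
      exact degree_modByMonic_lt t hP
    obtain ⟨c, hc⟩ := exists_pol h1
    exact mem_image.2 ⟨c, mem_univ _, hc⟩
  refine (card_le_card h).trans ?_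
  rw [card_image_of_injective _ pol_inj, card_univ, Fintype.card_fun, Fintype.card_fin]

theorem qpow_pos (n : ℕ) : (0 : ℝ) < (Fintype.card K : ℝ) ^ n := by
  have hq := q_ge (k := K)
  positivity

theorem lf_nonneg (T : Finset K[X]) {P : K[X]} (hP : P.Monic) : 0 ≤ lf T P := by
  unfold lf
  rw [sub_nonneg, div_le_one (qpow_pos _)]
  exact_mod_cast nu_le T hP

theorem lf_anti (T : Finset K[X]) (u P : K[X]) : lf (insert u T) P ≤ lf T P := by
  unfold lf
  have h : nu T P ≤ nu (insert u T) P := card_le_card (image_subset_image (subset_insert _ _))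
  have h1 : (nu T P : ℝ) / (Fintype.card K : ℝ) ^ P.natDegree ≤
      (nu (insert u T) P : ℝ) / (Fintype.card K : ℝ) ^ P.natDegree := by
    have := qpow_pos (K := K) P.natDegree
    gcongr
  linarith

theorem fac_pos {P : K[X]} (hP : Irreducible P) :
    0 < 1 - 1 / (Fintype.card K : ℝ) ^ P.natDegree := by
  have hq := q_ge (k := K)
  have h1 : 1 ≤ P.natDegree := hP.natDegree_pos
  have h2 : (2 : ℝ) ≤ (Fintype.card K : ℝ) ^ P.natDegree := by
    calc (2 : ℝ) ≤ (Fintype.card K : ℝ) := hq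
      _ = (Fintype.card K : ℝ) ^ 1 := (pow_one _).symm
      _ ≤ _ := pow_le_pow_right₀ (by linarith) h1
  have h3 : 1 / (Fintype.card K : ℝ) ^ P.natDegree ≤ 1 / 2 :=
    one_div_le_one_div_of_le (by norm_num) h2
  linarith

theorem fac_le (P : K[X]) : 1 - 1 / (Fintype.card K : ℝ) ^ P.natDegree ≤ 1 := by
  have := qpow_pos (K := K) P.natDegree
  have : 0 ≤ 1 / (Fintype.card K : ℝ) ^ P.natDegree := by positivity
  linarith

theorem Vm_pos (w : ℕ) : 0 < Vm K w :=
  prod_pos fun P hP => fac_pos (mem_PU.1 hP).2.1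

theorem Vm_anti {w w' : ℕ} (h : w' ≤ w) : Vm K w ≤ Vm K w' := by
  unfold Vm
  have hsub : PU K w' ⊆ PU K w := by
    intro P hP
    rw [mem_PU] at hP ⊢
    exact ⟨hP.1, hP.2.1, hP.2.2.trans h⟩
  exact prod_le_prod_of_subset_of_le_one hsub (fun P hP => (fac_pos (mem_PU.1 hP).2.1).le)
    (fun P _ _ => fac_le P)

theorem one_le_prod_real {ι : Type*} (s : Finset ι) (f : ι → ℝ) (h : ∀ i ∈ s, 1 ≤ f i) :
    1 ≤ ∏ i ∈ s, f i :=
  prod_induction f (fun x => 1 ≤ x) (fun _ _ h1 h2 => one_le_mul_of_one_le_of_one_le h1 h2)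
    le_rfl h

theorem Gw_ge (w D : ℕ) (v : K[X]) : 1 ≤ Gw w D v := by
  unfold Gw
  refine one_le_prod_real _ _ fun P hP => ?_
  have hP' := (mem_PU.1 (mem_filter.1 (mem_filter.1 hP).1).1).2.1
  exact (one_le_inv₀ (fac_pos hP')).2 (fac_le P)

theorem split (w m : ℕ) (f : K[X] → ℝ) :
    ∏ P ∈ PU K m, f P = (∏ P ∈ PU K (min w m), f P) * ∏ P ∈ PW K w m, f P := by
  have h1 : PU K (min w m) = (PU K m).filter (fun P => ¬ w < P.natDegree) := by
    ext P
    rw [mem_filter, mem_PU, mem_PU]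
    constructor
    · rintro ⟨h1, h2, h3⟩
      exact ⟨⟨h1, h2, h3.trans (min_le_right _ _)⟩, not_lt.2 (h3.trans (min_le_left _ _))⟩
    · rintro ⟨⟨h1, h2, h3⟩, h4⟩
      exact ⟨h1, h2, le_min (not_lt.1 h4) h3⟩
  rw [h1, PW, mul_comm]
  exact (prod_filter_mul_prod_filter_not _ _ _).symm

omit [Fintype K] in
theorem prod_sub_le (T : Finset K[X]) (k : ℕ) (hk : T.card = k) (x : K[X] → ℝ)
    (hx : ∀ t ∈ T, 1 ≤ x t) : ∏ t ∈ T, x t - 1 ≤ ∑ t ∈ T, (x t ^ k - 1) := by
  rcases T.eq_empty_or_nonempty with rfl | hne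
  · simp
  obtain ⟨t0, ht0, hmax⟩ := exists_max_image T x hne
  have h1 : ∏ t ∈ T, x t ≤ x t0 ^ k := by
    rw [← hk, ← prod_const]
    exact prod_le_prod (fun t ht => zero_le_one.trans (hx t ht)) fun t ht => hmax t ht
  have h2 : x t0 ^ k - 1 ≤ ∑ t ∈ T, (x t ^ k - 1) :=
    single_le_sum (f := fun t => x t ^ k - 1)
      (fun t ht => sub_nonneg.2 (one_le_pow₀ (hx t ht))) ht0
  linarith

theorem sum_shift_le (D : ℕ) (T : Finset K[X]) (hT : T ⊆ Bl K D) (t : K[X]) (ht : t ∈ T)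
    (F : K[X] → ℝ) (hF : ∀ v, 0 ≤ F v) :
    ∑ u ∈ Bl K D \ T, F (u - t) ≤ ∑ v ∈ (Bl K D).erase 0, F v := by
  have h1 : ∑ u ∈ Bl K D \ T, F (u - t) = ∑ v ∈ (Bl K D \ T).image (fun u => u - t), F v := by
    rw [sum_image]
    intro a _ b _ h
    exact sub_left_injective h
  rw [h1]
  refine sum_le_sum_of_subset_of_nonneg ?_ fun v _ _ => hF v
  intro v hv
  obtain ⟨u, hu, rfl⟩ := mem_image.1 hv
  rw [mem_sdiff] at hu
  rw [mem_erase]
  refine ⟨fun h => hu.2 ?_, ?_⟩
  · rw [sub_eq_zero] at h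
    rw [h]
    exact ht
  · rw [mem_Bl]
    exact (natDegree_sub_le _ _).trans (max_le (mem_Bl.1 hu.1) (mem_Bl.1 (hT ht)))

theorem main : Pool.Agent.H526.GQ.S_oneasm := by
  intro sml gsm rup rlo mer K _ _ k ε hε
  have hq := q_ge (k := K)
  set q : ℝ := (Fintype.card K : ℝ) with hqdef
  set e : ℝ := min ε 1 / 4 with he
  have he0 : 0 < e := by positivity
  have he1 : e ≤ 1 / 4 := by
    have := min_le_right ε 1
    rw [he]; linarith
  have heε : 2 * e ≤ ε := by
    have := min_le_left ε 1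
    rw [he]; linarith
  obtain ⟨w₀, hw₀⟩ := rlo K k e he0
  obtain ⟨C, hC, hgsm⟩ := gsm K k
  obtain ⟨-, c, hc, hmer⟩ := mer K
  -- the choice of `w`
  obtain ⟨w, hw, hwC⟩ : ∃ w : ℕ, w₀ ≤ w ∧ (k : ℝ) * C * (1 / 2) ^ w ≤ e * Vm K w := by
    have h1 : Filter.Tendsto (fun n : ℕ => (n : ℝ) ^ 2 * (1 / 2 : ℝ) ^ n) Filter.atTop
        (nhds 0) := by
      refine tendsto_pow_const_mul_const_pow_of_abs_lt_one 2 ?_
      rw [abs_of_pos (by norm_num)]
      norm_num
    have h2 : Filter.Tendsto (fun n : ℕ => ((n + 1 : ℕ) : ℝ) ^ 2 * (1 / 2 : ℝ) ^ (n + 1))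
        Filter.atTop (nhds 0) := h1.comp (Filter.tendsto_add_atTop_nat 1)
    have h3 : 0 < e * c / (2 * (k * C + 1)) := by positivity
    have h4 := (h2.eventually (gt_mem_nhds h3)).and (Filter.eventually_ge_atTop w₀)
    obtain ⟨w, hw1, hw2⟩ := h4.exists
    refine ⟨w, hw2, ?_⟩
    have h5 := hmer w
    have h6 : (k : ℝ) * C * (1 / 2) ^ w * ((w : ℝ) + 1) ^ 2 ≤ e * c := by
      rw [lt_div_iff₀ (by positivity)] at hw1
      push_cast at hw1
      have h7 : 0 ≤ ((w : ℝ) + 1) ^ 2 * (1 / 2) ^ w := by positivity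
      have h8 : ((w : ℝ) + 1) ^ 2 * (1 / 2) ^ (w + 1) * (2 * (k * C + 1)) =
          (k : ℝ) * C * (1 / 2) ^ w * ((w : ℝ) + 1) ^ 2 + ((w : ℝ) + 1) ^ 2 * (1 / 2) ^ w := by
        rw [pow_succ (1 / 2 : ℝ) w]
        ring
      linarith
    calc (k : ℝ) * C * (1 / 2) ^ w ≤ e * c / ((w : ℝ) + 1) ^ 2 := by
          rw [le_div_iff₀ (by positivity)]
          exact h6
      _ = e * (c / ((w : ℝ) + 1) ^ 2) := by ring
      _ ≤ e * Vm K w := by gcongr
  have hVw : 0 < Vm K w := Vm_pos w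
  -- the choice of `D₀`
  obtain ⟨D1, hD1⟩ : ∃ D1 : ℕ, (k : ℝ) ≤ e * Vm K w * q ^ D1 := by
    obtain ⟨n, hn⟩ := pow_unbounded_of_one_lt ((k : ℝ) / (e * Vm K w))
      (show (1 : ℝ) < q by linarith)
    refine ⟨n, ?_⟩
    rw [div_lt_iff₀ (by positivity)] at hn
    linarith
  refine ⟨max D1 (∑ P ∈ PU K w, P.natDegree), fun D hD m T hT hk => ?_⟩
  have hDa : D1 ≤ D := (le_max_left _ _).trans hD
  have hDb : ∑ P ∈ PU K w, P.natDegree ≤ D := (le_max_right _ _).trans hD
  have hqD : 0 < q ^ (D + 1) := by positivity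
  set w' := min w m with hw'
  have hw'w : w' ≤ w := min_le_left _ _
  set A : ℝ := ∏ P ∈ PU K w', lf T P with hA
  set L : ℝ := ∏ P ∈ PW K w m, (lf T P * (1 - 1 / (Fintype.card K : ℝ) ^ P.natDegree)) with hL
  have hPUm : ∀ {n : ℕ} {P : K[X]}, P ∈ PU K n → P.Monic := fun h => (mem_PU.1 h).1
  have hPWm : ∀ {P : K[X]}, P ∈ PW K w m → P ∈ PU K m := fun h => (mem_filter.1 h).1
  have hA0 : 0 ≤ A := prod_nonneg fun P hP => lf_nonneg T (hPUm hP)
  have hL0 : 0 ≤ L := prod_nonneg fun P hP => mul_nonneg (lf_nonneg T (hPUm (hPWm hP)))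
    (fac_pos (mem_PU.1 (hPWm hP)).2.1).le
  have hVw' : 0 < Vm K w' := Vm_pos w'
  have hVV : Vm K w ≤ Vm K w' := Vm_anti hw'w
  have hmain : vf T m * (q ^ (D + 1) * Vm K m) = L * (A * (q ^ (D + 1) * Vm K w')) := by
    unfold vf Vm
    rw [split w m, split w m, hL, prod_mul_distrib]
    ring
  -- the sum over the small primes
  set a : K[X] → ℝ := fun u => ∏ P ∈ PU K w', lf (insert u T) P with ha
  have ha0 : ∀ u, 0 ≤ a u := fun u => prod_nonneg fun P hP => lf_nonneg _ (hPUm hP)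
  have haA : ∀ u, a u ≤ A := fun u => prod_le_prod (fun P hP => lf_nonneg _ (hPUm hP))
    fun P _ => lf_anti T u P
  have hsum : ∑ u ∈ Bl K D \ T, a u = q ^ (D + 1) * (A * Vm K w') - k * A := by
    have h1 := sml K w' D T (by
      refine le_trans ?_ (hDb.trans (Nat.le_succ D))
      refine sum_le_sum_of_subset ?_
      intro P hP
      rw [mem_PU] at hP ⊢
      exact ⟨hP.1, hP.2.1, hP.2.2.trans hw'w⟩)
    rw [prod_mul_distrib] at h1
    have h2 : ∑ u ∈ T, a u = k * A := by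
      rw [sum_congr rfl (g := fun _ => A), sum_const, hk, nsmul_eq_mul]
      intro u hu
      simp only [ha, insert_eq_of_mem hu, hA]
    have h3 := sum_sdiff (f := a) hT
    rw [h2] at h3
    have h4 : ∑ u ∈ Bl K D, a u = q ^ (D + 1) * (A * Vm K w') := h1
    linarith
  have hkq : (k : ℝ) ≤ e * (q ^ (D + 1) * Vm K w') := by
    have h1 : q ^ D1 ≤ q ^ (D + 1) := pow_le_pow_right₀ (by linarith) (by omega)
    calc (k : ℝ) ≤ e * Vm K w * q ^ D1 := hD1
      _ ≤ e * Vm K w' * q ^ (D + 1) := by gcongr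
      _ = _ := by ring
  set B : ℝ := q ^ (D + 1) * Vm K w' with hB
  have hB0 : 0 < B := by positivity
  have hvf : ∀ u, vf (insert u T) m = a u * ∏ P ∈ PW K w m, lf (insert u T) P := by
    intro u
    unfold vf
    rw [split w m]
  -- lower bound
  have hlow : (1 - e) * L * (A * B - k * A) ≤ ∑ u ∈ Bl K D \ T, vf (insert u T) m := by
    have h1 : (1 - e) * L * (A * B - k * A) = ∑ u ∈ Bl K D \ T, a u * ((1 - e) * L) := by
      rw [← sum_mul, hsum, hB]
      ring
    rw [h1]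
    refine sum_le_sum fun u _ => ?_
    rw [hvf]
    exact mul_le_mul_of_nonneg_left (hw₀ w hw m T u hk) (ha0 u)
  -- upper bound
  have hup : ∑ u ∈ Bl K D \ T, vf (insert u T) m ≤ L * (A * B) + L * (A * (e * B)) := by
    have h1 : ∀ u ∈ Bl K D \ T, vf (insert u T) m ≤
        L * a u + L * (A * ∑ t ∈ T, (Gw w D (u - t) ^ k - 1)) := by
      intro u hu
      rw [mem_sdiff] at hu
      have h2 := rup K w m D T u (fun t ht => ⟨fun h => hu.2 (by
        rw [sub_eq_zero] at h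
        rw [h]
        exact ht), (natDegree_sub_le _ _).trans (max_le (mem_Bl.1 hu.1) (mem_Bl.1 (hT ht)))⟩)
      have h3 := prod_sub_le T k hk (fun t => Gw w D (u - t)) fun t _ => Gw_ge w D (u - t)
      set g := ∏ t ∈ T, Gw w D (u - t) with hg
      have hg1 : 1 ≤ g := one_le_prod_real _ _ fun t _ => Gw_ge w D (u - t)
      rw [hvf]
      calc a u * ∏ P ∈ PW K w m, lf (insert u T) P ≤ a u * (L * g) :=
            mul_le_mul_of_nonneg_left h2 (ha0 u)
        _ = L * a u + L * (a u * (g - 1)) := by ring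
        _ ≤ L * a u + L * (A * ∑ t ∈ T, (Gw w D (u - t) ^ k - 1)) := by
            have h4 : a u * (g - 1) ≤ A * ∑ t ∈ T, (Gw w D (u - t) ^ k - 1) :=
              mul_le_mul (haA u) h3 (by linarith) hA0
            have h5 := mul_le_mul_of_nonneg_left h4 hL0
            linarith
    refine (sum_le_sum h1).trans ?_
    rw [sum_add_distrib, ← mul_sum, ← mul_sum, ← mul_sum, hsum]
    have h2 : ∑ u ∈ Bl K D \ T, ∑ t ∈ T, (Gw w D (u - t) ^ k - 1) ≤ e * B := by
      rw [sum_comm]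
      have h3 : ∀ t ∈ T, ∑ u ∈ Bl K D \ T, (Gw w D (u - t) ^ k - 1) ≤
          C * q ^ (D + 1) * (1 / 2) ^ w := fun t ht =>
        (sum_shift_le D T hT t ht (fun v => Gw w D v ^ k - 1)
          (fun v => sub_nonneg.2 (one_le_pow₀ (Gw_ge w D v)))).trans (hgsm w D)
      refine (sum_le_sum h3).trans ?_
      rw [sum_const, hk, nsmul_eq_mul]
      calc (k : ℝ) * (C * q ^ (D + 1) * (1 / 2) ^ w)
          = ((k : ℝ) * C * (1 / 2) ^ w) * q ^ (D + 1) := by ring
        _ ≤ (e * Vm K w) * q ^ (D + 1) := by gcongr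
        _ ≤ (e * Vm K w') * q ^ (D + 1) := by gcongr
        _ = e * B := by rw [hB]; ring
    have h4 : L * (q ^ (D + 1) * (A * Vm K w') - k * A) ≤ L * (A * B) := by
      refine mul_le_mul_of_nonneg_left ?_ hL0
      have : 0 ≤ (k : ℝ) * A := by positivity
      rw [hB]
      linarith [mul_left_comm (q ^ (D + 1)) A (Vm K w')]
    have h5 : L * (A * ∑ u ∈ Bl K D \ T, ∑ t ∈ T, (Gw w D (u - t) ^ k - 1)) ≤
        L * (A * (e * B)) :=
      mul_le_mul_of_nonneg_left (mul_le_mul_of_nonneg_left h2 hA0) hL0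
    linarith
  rw [hmain]
  have hM0 : 0 ≤ L * (A * B) := mul_nonneg hL0 (mul_nonneg hA0 hB0.le)
  have hfin : 2 * e * (L * (A * B)) ≤ ε * (L * (A * B)) := mul_le_mul_of_nonneg_right heε hM0
  have heM : 0 ≤ e * (L * (A * B)) := mul_nonneg he0.le hM0
  have heM2 : 0 ≤ e ^ 2 * (L * (A * B)) := mul_nonneg (sq_nonneg e) hM0
  clear_value L A B e
  rw [abs_le]
  constructor
  · have h1 : (1 - e) * L * (A * B - k * A) ≥ (1 - 2 * e) * (L * (A * B)) := by
      have h2 : (k : ℝ) * A ≤ e * B * A := mul_le_mul_of_nonneg_right hkq hA0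
      have h3 : (1 - e) * L * (A * B - k * A) ≥ (1 - e) * L * (A * B - e * B * A) :=
        mul_le_mul_of_nonneg_left (by linarith) (mul_nonneg (by linarith) hL0)
      have h4 : (1 - e) * L * (A * B - e * B * A) =
          (1 - 2 * e) * (L * (A * B)) + e ^ 2 * (L * (A * B)) := by ring
      linarith
    linarith
  · have h1 : L * (A * (e * B)) = e * (L * (A * B)) := by ring
    linarith

end Pool.Agent.H526.GQ.OneAsm
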