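import Pool.Agent.H526.GQ.Stm

/-!
# Bonferroni inequalities and the Poisson law (project GQ, task POI)
-/

set_option autoImplicit false

namespace Pool.Agent.H526.GQ.PoisAsm

open Polynomial Finset
open scoped Classical
open Pool.Agent.H526.GQ
open Pool.Agent.H694.Typ (Mn mem_Mn PU mem_PU Irn mem_Irn pol pol_degree pol_inj exists_pol)

/-- Bonferroni, pointwise. -/
theorem bonf (N J : ℕ) : |(if N = 0 then (1 : ℝ) else 0) -
    ∑ j ∈ range (J + 1), (-1 : ℝ) ^ j * (N.choose j : ℝ)| ≤ (N.choose (J + 1) : ℝ) := by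
  rcases Nat.eq_zero_or_pos N with h | h
  · subst h
    have h1 : ∑ j ∈ range (J + 1), (-1 : ℝ) ^ j * ((0 : ℕ).choose j : ℝ) = 1 := by
      rw [Finset.sum_range_succ', Finset.sum_eq_zero]
      · simp
      · intro i _
        simp
    rw [h1, if_pos rfl, sub_self, abs_zero]
    positivity
  · obtain ⟨N', rfl⟩ := Nat.exists_eq_succ_of_ne_zero h.ne'
    have h1 : ∑ j ∈ range (J + 1), (-1 : ℝ) ^ j * ((N' + 1).choose j : ℝ) =
        (-1) ^ J * (N'.choose J : ℝ) := by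
      have h2 := Int.alternating_sum_range_choose_eq_choose (n := N') (m := J)
      exact_mod_cast h2
    have h3 : (if N'.succ = 0 then (1 : ℝ) else 0) = 0 := if_neg (Nat.succ_ne_zero _)
    rw [h3]
    have h4 : ∑ j ∈ range (J + 1), (-1 : ℝ) ^ j * ((N'.succ).choose j : ℝ) =
        (-1) ^ J * (N'.choose J : ℝ) := h1
    rw [h4, zero_sub, abs_neg, abs_mul, abs_pow, abs_neg, abs_one, one_pow, one_mul,
      abs_of_nonneg (Nat.cast_nonneg _)]
    have h5 : N'.choose J ≤ (N'.succ).choose (J + 1) := by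
      rw [Nat.succ_eq_add_one, Nat.choose_succ_succ]
      exact Nat.le_add_right _ _
    exact_mod_cast h5

/-- the exponential series -/
theorem exp_ser {A : ℝ} {δ : ℝ} (hδ : 0 < δ) : ∃ J : ℕ,
    A ^ (J + 1) / (Nat.factorial (J + 1) : ℝ) ≤ δ ∧ ∀ x : ℝ, 0 ≤ x → x ≤ A →
      |Real.exp (-x) - ∑ j ∈ range (J + 1), (-x) ^ j / (Nat.factorial j : ℝ)| ≤ 2 * δ := by
  have h1 := FloorSemiring.tendsto_pow_div_factorial_atTop A
  have h2 := h1.eventually (Iio_mem_nhds hδ)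
  obtain ⟨n0, hn0⟩ := Filter.eventually_atTop.1 h2
  obtain ⟨n1, hn1⟩ := exists_nat_ge (2 * A)
  refine ⟨max n0 n1, ?_, ?_⟩
  · exact (hn0 (max n0 n1 + 1) (le_trans (le_max_left _ _) (Nat.le_succ _))).le
  · intro x hx0 hxA
    have h3 : (n1 : ℝ) ≤ ((max n0 n1 : ℕ) : ℝ) := by exact_mod_cast le_max_right n0 n1
    have h4 : ‖((-x : ℝ) : ℂ)‖ = x := by
      rw [Complex.norm_real, Real.norm_eq_abs, abs_neg, abs_of_nonneg hx0]
    have h5 : ‖((-x : ℝ) : ℂ)‖ / ((max n0 n1 + 1).succ : ℝ) ≤ 1 / 2 := by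
      rw [h4, div_le_iff₀ (by positivity)]
      push_cast
      push_cast at h3
      linarith
    have h6 := Complex.exp_bound' h5
    have h7 : Complex.exp ((-x : ℝ) : ℂ) - ∑ m ∈ range (max n0 n1 + 1),
        ((-x : ℝ) : ℂ) ^ m / (m.factorial : ℂ) =
        ((Real.exp (-x) - ∑ j ∈ range (max n0 n1 + 1), (-x) ^ j / (Nat.factorial j : ℝ) : ℝ) : ℂ) := by
      push_cast
      rfl
    rw [h7, Complex.norm_real, Real.norm_eq_abs, h4] at h6
    refine h6.trans ?_
    have h8 : x ^ (max n0 n1 + 1) / (Nat.factorial (max n0 n1 + 1) : ℝ) ≤ δ := by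
      refine le_trans ?_ (hn0 (max n0 n1 + 1) (le_trans (le_max_left _ _) (Nat.le_succ _))).le
      gcongr
    linarith

section count
variable {K : Type} [Field K] [Fintype K]

/-- the sifted `f` with the parities `σ` at `S` -/
noncomputable def FF (n m : ℕ) (S : Finset K[X]) (σ : K[X] → ℤ) : Finset K[X] :=
  (Mn K n).filter (fun f => (∀ t ∈ S, Sft m (f + t)) ∧ ∀ s ∈ S, mob (f + s) = σ s)

/-- the number of further sifted shifts -/
noncomputable def NN (m D : ℕ) (S : Finset K[X]) (f : K[X]) : ℕ :=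
  ((Bl K D \ S).filter (fun u => Sft m (f + u))).card

/-- the count with the further shifts `U` -/
noncomputable def cc (n m : ℕ) (S : Finset K[X]) (σ : K[X] → ℤ) (U : Finset K[X]) : ℕ :=
  ((Mn K n).filter (fun f => (∀ t ∈ S ∪ U, Sft m (f + t)) ∧ ∀ s ∈ S, mob (f + s) = σ s)).card

theorem ex_eq (n m D : ℕ) (S : Finset K[X]) (hS : S ⊆ Bl K D) (σ : K[X] → ℤ) :
    Ex n m D S σ = (FF n m S σ).filter (fun f => NN m D S f = 0) := by
  ext f
  unfold Ex FF NN
  simp only [mem_filter, Finset.card_eq_zero, Finset.filter_eq_empty_iff, mem_sdiff]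
  constructor
  · rintro ⟨h1, h2, h3⟩
    refine ⟨⟨h1, fun t ht => (h2 t (hS ht)).2 ht, h3⟩, ?_⟩
    rintro u ⟨hu1, hu2⟩ hu3
    exact hu2 ((h2 u hu1).1 hu3)
  · rintro ⟨⟨h1, h2, h3⟩, h4⟩
    refine ⟨h1, fun u hu => ⟨fun h => ?_, fun h => h2 u h⟩, h3⟩
    by_contra hn
    exact h4 ⟨hu, hn⟩ h

theorem dbl (n m D : ℕ) (S : Finset K[X]) (σ : K[X] → ℤ) (j : ℕ) :
    ∑ f ∈ FF n m S σ, (NN m D S f).choose j =
      ∑ U ∈ (Bl K D \ S).powersetCard j, cc n m S σ U := by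
  have h1 : ∀ f : K[X], (NN m D S f).choose j =
      ((powersetCard j (Bl K D \ S)).bipartiteAbove
        (fun (f : K[X]) (U : Finset K[X]) => ∀ u ∈ U, Sft m (f + u)) f).card := by
    intro f
    unfold NN bipartiteAbove
    rw [← Finset.card_powersetCard]
    congr 1
    ext U
    simp only [mem_powersetCard, mem_filter, subset_iff]
    constructor
    · rintro ⟨h2, h3⟩
      exact ⟨⟨fun u hu => (h2 hu).1, h3⟩, fun u hu => (h2 hu).2⟩
    · rintro ⟨⟨h2, h3⟩, h4⟩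
      exact ⟨fun u hu => ⟨h2 hu, h4 u hu⟩, h3⟩
  rw [sum_congr rfl fun f _ => h1 f, sum_card_bipartiteAbove_eq_sum_card_bipartiteBelow]
  refine sum_congr rfl fun U _ => ?_
  unfold bipartiteBelow FF cc
  rw [filter_filter]
  congr 1
  refine filter_congr fun f _ => ?_
  simp only [mem_union]
  constructor
  · rintro ⟨⟨h2, h3⟩, h4⟩
    refine ⟨fun t ht => ?_, h3⟩
    rcases ht with ht | ht
    · exact h2 t ht
    · exact h4 t ht
  · rintro ⟨h2, h3⟩
    exact ⟨⟨fun t ht => h2 t (Or.inl ht), h3⟩, fun u hu => h2 u (Or.inr hu)⟩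

/-- Bonferroni, summed. -/
theorem bonf_sum (n m D : ℕ) (S : Finset K[X]) (hS : S ⊆ Bl K D) (σ : K[X] → ℤ) (J : ℕ) :
    |((Ex n m D S σ).card : ℝ) - ∑ j ∈ range (J + 1), (-1 : ℝ) ^ j *
      ∑ U ∈ (Bl K D \ S).powersetCard j, (cc n m S σ U : ℝ)| ≤
      ∑ U ∈ (Bl K D \ S).powersetCard (J + 1), (cc n m S σ U : ℝ) := by
  have h1 : ∀ j : ℕ, ∑ U ∈ (Bl K D \ S).powersetCard j, (cc n m S σ U : ℝ) =
      ∑ f ∈ FF n m S σ, ((NN m D S f).choose j : ℝ) := by
    intro j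
    exact_mod_cast (dbl n m D S σ j).symm
  have h2 : ((Ex n m D S σ).card : ℝ) =
      ∑ f ∈ FF n m S σ, if NN m D S f = 0 then (1 : ℝ) else 0 := by
    rw [ex_eq n m D S hS σ, ← sum_filter, sum_const, nsmul_eq_mul, mul_one]
  have h3 : ∑ j ∈ range (J + 1), (-1 : ℝ) ^ j *
      ∑ U ∈ (Bl K D \ S).powersetCard j, (cc n m S σ U : ℝ) =
      ∑ f ∈ FF n m S σ, ∑ j ∈ range (J + 1), (-1 : ℝ) ^ j * ((NN m D S f).choose j : ℝ) := by
    conv_rhs => rw [sum_comm]
    refine sum_congr rfl fun j _ => ?_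
    rw [h1 j, mul_sum]
  rw [h2, h1 (J + 1), h3, ← sum_sub_distrib]
  refine (abs_sum_le_sum_abs _ _).trans ?_
  exact sum_le_sum fun f _ => bonf _ _

end count

/-- **Task POI.** -/
theorem main : S_poisasm := by
  intro hgal hhalf hmer K _ _ _ k A ε hA hε
  have hq : (2 : ℝ) ≤ (Fintype.card K : ℝ) := Pool.Agent.H694.Typ.q_ge
  have hq2 : 2 ≤ Fintype.card K := Fintype.one_lt_card
  obtain ⟨J, hJ1, hJ2⟩ := exp_ser (A := A) (show 0 < ε / 8 by positivity)
  set B : ℝ := (1 + A) ^ (J + 1) with hB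
  have hB1 : 1 ≤ B := one_le_pow₀ (by linarith)
  set e : ℝ := min 1 (ε / (8 * (((J : ℝ) + 2) * (3 * B)))) with he
  have he0 : 0 < e := by positivity
  have he1 : e ≤ 1 := min_le_left _ _
  have he2 : ((J : ℝ) + 2) * (3 * B * e) ≤ ε / 8 := by
    have h1 : e ≤ ε / (8 * (((J : ℝ) + 2) * (3 * B))) := min_le_right _ _
    rw [le_div_iff₀ (by positivity)] at h1
    linarith
  choose κ hκ M hM using fun j : ℕ => hhalf K k j e he0
  choose D₀ hD₀ using fun j : ℕ => hgal K k j e he0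
  obtain ⟨κ0, hκ00, hκ01, hκ0⟩ : ∃ κ0 : ℝ, 0 < κ0 ∧ κ0 ≤ 1 / (A + 1) ∧
      ∀ j ∈ range (J + 2), κ0 ≤ κ j := by
    have hne : (range (J + 2)).Nonempty := ⟨0, by simp⟩
    refine ⟨min (1 / (A + 1)) ((range (J + 2)).inf' hne κ), ?_, min_le_left _ _, ?_⟩
    · refine lt_min (by positivity) ?_
      rw [Finset.lt_inf'_iff]
      exact fun j _ => hκ j
    · intro j hj
      exact (min_le_right _ _).trans (Finset.inf'_le _ hj)
  refine ⟨κ0, hκ00, (range (J + 2)).sup M + 1, (range (J + 2)).sup D₀, ?_⟩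
  intro n m hn hm hmn D hD hqA S hS hSk σ hσ
  have hMj : ∀ j ∈ range (J + 2), M j ≤ (range (J + 2)).sup M := fun j hj => Finset.le_sup hj
  have hDj : ∀ j ∈ range (J + 2), D₀ j ≤ D := fun j hj => (Finset.le_sup hj).trans hD
  obtain ⟨c, hc0, hc⟩ := (hmer K).2
  have hV0 : 0 ≤ Vm K m := le_trans (by positivity) (hc m)
  have hV1 := (hmer K).1 m
  obtain ⟨x, hx⟩ : ∃ x : ℝ, x = (Fintype.card K : ℝ) ^ (D + 1) * Vm K m := ⟨_, rfl⟩
  have hx0 : 0 ≤ x := by rw [hx]; positivity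
  have hxA : x ≤ A := by
    rw [hx]
    calc (Fintype.card K : ℝ) ^ (D + 1) * Vm K m ≤ (A * m) * (1 / ((m : ℝ) + 1)) :=
          mul_le_mul hqA hV1 hV0 (by positivity)
      _ ≤ A := by
        rw [mul_one_div, div_le_iff₀ (by positivity)]
        linarith
  rw [← hx]
  have hxB : ∀ j ∈ range (J + 2), x ^ j ≤ B := by
    intro j hj
    rw [mem_range] at hj
    calc x ^ j ≤ (1 + A) ^ j := pow_le_pow_left₀ hx0 (by linarith) j
      _ ≤ (1 + A) ^ (J + 1) := pow_le_pow_right₀ (by linarith) (by omega)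
  -- the degrees
  have hn0 : (1 : ℝ) ≤ n := by exact_mod_cast (show 1 ≤ n by omega)
  have hDn : D < n := by
    have h1 : ((D + 1 : ℕ) : ℝ) ≤ (Fintype.card K : ℝ) ^ (D + 1) := by
      exact_mod_cast (Nat.lt_pow_self (n := D + 1) (show 1 < Fintype.card K by omega)).le
    have h2 : A * m ≤ A * (κ0 * n) := mul_le_mul_of_nonneg_left hmn hA.le
    have h3 : A * (κ0 * n) ≤ A * ((1 / (A + 1)) * n) := by gcongr
    have h4 : A * ((1 / (A + 1)) * n) ≤ n := by
      rw [← mul_assoc, mul_one_div]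
      have h5 : A / (A + 1) ≤ 1 := (div_le_one (by positivity)).2 (by linarith)
      nlinarith
    have h5 : ((D + 1 : ℕ) : ℝ) ≤ n := by linarith
    have h6 : D + 1 ≤ n := by exact_mod_cast h5
    omega
  -- the density of `S` is nonnegative
  have hvS : 0 ≤ vf S m := by
    have h1 := hD₀ 0 D (hDj 0 (by simp)) m S hS hSk
    rw [powersetCard_zero, sum_singleton, union_empty, pow_zero, Nat.factorial_zero] at h1
    rw [Nat.cast_one, div_one, mul_one, sub_self, abs_zero] at h1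
    exact nonneg_of_mul_nonneg_right h1 he0
  obtain ⟨V, hV⟩ : ∃ V : ℝ, V = vf S m * (Fintype.card K : ℝ) ^ n := ⟨_, rfl⟩
  have hVn : 0 ≤ V := by rw [hV]; positivity
  have hQ : 0 < (Fintype.card K : ℝ) ^ n := by positivity
  have hk2 : (1 : ℝ) ≤ 2 ^ k := one_le_pow₀ (by norm_num)
  -- the moments
  have hmom : ∀ j ∈ range (J + 2),
      |∑ U ∈ (Bl K D \ S).powersetCard j, (cc n m S σ U : ℝ) -
        V * (x ^ j / (Nat.factorial j : ℝ)) / 2 ^ k| ≤ 3 * B * e * V := by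
    intro j hj
    have h1 := hD₀ j D (hDj j hj) m S hS hSk
    rw [← hx] at h1
    obtain ⟨W, hW⟩ : ∃ W : ℝ, W = ∑ U ∈ (Bl K D \ S).powersetCard j, vf (S ∪ U) m := ⟨_, rfl⟩
    rw [← hW] at h1
    have h2 : |∑ U ∈ (Bl K D \ S).powersetCard j, (cc n m S σ U : ℝ) -
        W * (Fintype.card K : ℝ) ^ n / 2 ^ k| ≤ e * (W * (Fintype.card K : ℝ) ^ n) := by
      rw [hW, sum_mul, sum_div, ← sum_sub_distrib, mul_sum]
      refine (abs_sum_le_sum_abs _ _).trans (sum_le_sum fun U hU => ?_)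
      rw [mem_powersetCard] at hU
      have h3 := hM j n m ((hMj j hj).trans ((Nat.le_succ _).trans hn))
        ((hMj j hj).trans ((Nat.le_succ _).trans hm))
        (hmn.trans (by
          have := hκ0 j hj
          gcongr)) S U hSk hU.2
        (Finset.disjoint_left.2 fun a ha ha' => (mem_sdiff.1 (hU.1 ha')).2 ha)
        (fun t ht => by
          rcases mem_union.1 ht with ht | ht
          · exact lt_of_le_of_lt (mem_Bl.1 (hS ht)) hDn
          · exact lt_of_le_of_lt (mem_Bl.1 (mem_sdiff.1 (hU.1 ht)).1) hDn) σ hσ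
      exact h3
    have hxj : 0 ≤ x ^ j := pow_nonneg hx0 j
    have hf1 : (1 : ℝ) ≤ (Nat.factorial j : ℝ) := by exact_mod_cast Nat.factorial_pos j
    have h4 : x ^ j / (Nat.factorial j : ℝ) ≤ B :=
      (div_le_self hxj hf1).trans (hxB j hj)
    have h5 : e * (vf S m * x ^ j) ≤ e * (vf S m * B) := by
      have := hxB j hj
      gcongr
    have h6 := abs_le.1 h1
    have h7 : W ≤ vf S m * (2 * B) := by
      have h8 : vf S m * x ^ j / (Nat.factorial j : ℝ) ≤ vf S m * B := by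
        rw [mul_div_assoc]
        gcongr
      have h9 : e * (vf S m * B) ≤ 1 * (vf S m * B) :=
        mul_le_mul_of_nonneg_right he1 (by positivity)
      linarith [h6.2]
    have h8 : e * (W * (Fintype.card K : ℝ) ^ n) ≤ 2 * B * e * V := by
      rw [hV]
      have h9 : e * (W * (Fintype.card K : ℝ) ^ n) ≤
          e * ((vf S m * (2 * B)) * (Fintype.card K : ℝ) ^ n) := by gcongr
      linarith
    have h9 : |W * (Fintype.card K : ℝ) ^ n / 2 ^ k -
        V * (x ^ j / (Nat.factorial j : ℝ)) / 2 ^ k| ≤ B * e * V := by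
      have h10 : W * (Fintype.card K : ℝ) ^ n / 2 ^ k -
          V * (x ^ j / (Nat.factorial j : ℝ)) / 2 ^ k =
          (W - vf S m * x ^ j / (Nat.factorial j : ℝ)) * ((Fintype.card K : ℝ) ^ n / 2 ^ k) := by
        rw [hV]
        ring
      rw [h10, abs_mul, abs_of_nonneg (show 0 ≤ (Fintype.card K : ℝ) ^ n / 2 ^ k by positivity)]
      have h11 : (Fintype.card K : ℝ) ^ n / 2 ^ k ≤ (Fintype.card K : ℝ) ^ n :=
        div_le_self hQ.le hk2
      calc |W - vf S m * x ^ j / (Nat.factorial j : ℝ)| * ((Fintype.card K : ℝ) ^ n / 2 ^ k)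
          ≤ (e * (vf S m * B)) * (Fintype.card K : ℝ) ^ n :=
            mul_le_mul (h1.trans h5) h11 (by positivity) (by positivity)
        _ = B * e * V := by rw [hV]; ring
    calc |∑ U ∈ (Bl K D \ S).powersetCard j, (cc n m S σ U : ℝ) -
          V * (x ^ j / (Nat.factorial j : ℝ)) / 2 ^ k|
        ≤ |∑ U ∈ (Bl K D \ S).powersetCard j, (cc n m S σ U : ℝ) -
            W * (Fintype.card K : ℝ) ^ n / 2 ^ k| +
          |W * (Fintype.card K : ℝ) ^ n / 2 ^ k -
            V * (x ^ j / (Nat.factorial j : ℝ)) / 2 ^ k| := abs_sub_le _ _ _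
      _ ≤ 2 * B * e * V + B * e * V := add_le_add (h2.trans h8) h9
      _ = 3 * B * e * V := by ring
  -- the main chain
  have h1 := bonf_sum n m D S hS σ J
  have h2 : |∑ j ∈ range (J + 1), (-1 : ℝ) ^ j *
      ∑ U ∈ (Bl K D \ S).powersetCard j, (cc n m S σ U : ℝ) -
      V * (∑ j ∈ range (J + 1), (-x) ^ j / (Nat.factorial j : ℝ)) / 2 ^ k| ≤
      ((J : ℝ) + 1) * (3 * B * e * V) := by
    have h3 : ∑ j ∈ range (J + 1), (-1 : ℝ) ^ j *
        ∑ U ∈ (Bl K D \ S).powersetCard j, (cc n m S σ U : ℝ) -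
        V * (∑ j ∈ range (J + 1), (-x) ^ j / (Nat.factorial j : ℝ)) / 2 ^ k =
        ∑ j ∈ range (J + 1), (-1 : ℝ) ^ j *
          (∑ U ∈ (Bl K D \ S).powersetCard j, (cc n m S σ U : ℝ) -
            V * (x ^ j / (Nat.factorial j : ℝ)) / 2 ^ k) := by
      rw [mul_sum, sum_div, ← sum_sub_distrib]
      refine sum_congr rfl fun j _ => ?_
      rw [neg_pow x j]
      ring
    rw [h3]
    refine (abs_sum_le_sum_abs _ _).trans ?_
    have h4 : ∀ j ∈ range (J + 1), |(-1 : ℝ) ^ j *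
        (∑ U ∈ (Bl K D \ S).powersetCard j, (cc n m S σ U : ℝ) -
          V * (x ^ j / (Nat.factorial j : ℝ)) / 2 ^ k)| ≤ 3 * B * e * V := by
      intro j hj
      rw [abs_mul, abs_pow, abs_neg, abs_one, one_pow, one_mul]
      exact hmom j (mem_range.2 (by have := mem_range.1 hj; omega))
    refine (sum_le_sum h4).trans ?_
    rw [sum_const, card_range, nsmul_eq_mul]
    push_cast
    exact le_refl _
  have h3 : ∑ U ∈ (Bl K D \ S).powersetCard (J + 1), (cc n m S σ U : ℝ) ≤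
      (ε / 8) * V + 3 * B * e * V := by
    have h4 := (abs_le.1 (hmom (J + 1) (mem_range.2 (by omega)))).2
    have h5 : V * (x ^ (J + 1) / (Nat.factorial (J + 1) : ℝ)) / 2 ^ k ≤ (ε / 8) * V := by
      have h6 : x ^ (J + 1) / (Nat.factorial (J + 1) : ℝ) ≤ ε / 8 := by
        refine le_trans ?_ hJ1
        gcongr
      have h7 : V * (x ^ (J + 1) / (Nat.factorial (J + 1) : ℝ)) ≤ V * (ε / 8) := by gcongr
      refine (div_le_self (by positivity) hk2).trans ?_
      linarith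
    linarith
  have h4 : |V * (∑ j ∈ range (J + 1), (-x) ^ j / (Nat.factorial j : ℝ)) / 2 ^ k -
      Real.exp (-x) * V / 2 ^ k| ≤ (2 * (ε / 8)) * V := by
    have h5 : V * (∑ j ∈ range (J + 1), (-x) ^ j / (Nat.factorial j : ℝ)) / 2 ^ k -
        Real.exp (-x) * V / 2 ^ k =
        -((Real.exp (-x) - ∑ j ∈ range (J + 1), (-x) ^ j / (Nat.factorial j : ℝ)) *
          (V / 2 ^ k)) := by ring
    rw [h5, abs_neg, abs_mul, abs_of_nonneg (show 0 ≤ V / 2 ^ k by positivity)]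
    exact mul_le_mul (hJ2 x hx0 hxA) (div_le_self hVn hk2) (by positivity) (by positivity)
  rw [← hV]
  have h5 : ((J : ℝ) + 2) * (3 * B * e) * V ≤ ε / 8 * V := mul_le_mul_of_nonneg_right he2 hVn
  have h6 : 0 ≤ ε * V := by positivity
  calc |((Ex n m D S σ).card : ℝ) - Real.exp (-x) * V / 2 ^ k|
      ≤ |((Ex n m D S σ).card : ℝ) - ∑ j ∈ range (J + 1), (-1 : ℝ) ^ j *
          ∑ U ∈ (Bl K D \ S).powersetCard j, (cc n m S σ U : ℝ)| +
        |∑ j ∈ range (J + 1), (-1 : ℝ) ^ j *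
          ∑ U ∈ (Bl K D \ S).powersetCard j, (cc n m S σ U : ℝ) -
          V * (∑ j ∈ range (J + 1), (-x) ^ j / (Nat.factorial j : ℝ)) / 2 ^ k| +
        |V * (∑ j ∈ range (J + 1), (-x) ^ j / (Nat.factorial j : ℝ)) / 2 ^ k -
          Real.exp (-x) * V / 2 ^ k| := by
        refine (abs_sub_le _ (V * (∑ j ∈ range (J + 1), (-x) ^ j /
          (Nat.factorial j : ℝ)) / 2 ^ k) _).trans ?_
        exact add_le_add (abs_sub_le _ _ _) (le_refl _)
    _ ≤ ((ε / 8) * V + 3 * B * e * V) + ((J : ℝ) + 1) * (3 * B * e * V) + (2 * (ε / 8)) * V :=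
        add_le_add (add_le_add (h1.trans h3) h2) h4
    _ ≤ ε * V := by nlinarith

end Pool.Agent.H526.GQ.PoisAsm
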