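import Pool.Agent.H526.GQ.Stm

/-!
# Project GQ, task RLO: large primes, lower bound (written by helper685 for helper526)
-/

set_option autoImplicit false

namespace Pool.Agent.H526.GQ.Rlo

open Polynomial
open scoped Classical
open Pool.Agent.H694.Typ (PU mem_PU Irn mem_Irn wt irn_one_le sum_PU geo_half_le wt_le_half q_ge)

theorem prod_ge {ι : Type} (s : Finset ι) (x : ι → ℝ) (h0 : ∀ i ∈ s, 0 ≤ x i)
    (h1 : ∀ i ∈ s, x i ≤ 1) :
    1 - ∑ i ∈ s, x i ≤ ∏ i ∈ s, (1 - x i) ∧ ∏ i ∈ s, (1 - x i) ≤ 1 := by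
  induction s using Finset.induction_on with
  | empty => simp
  | insert a s ha ih =>
    have h2 := ih (fun i hi => h0 i (Finset.mem_insert_of_mem hi))
      (fun i hi => h1 i (Finset.mem_insert_of_mem hi))
    have h3 := h0 a (Finset.mem_insert_self a s)
    have h4 := h1 a (Finset.mem_insert_self a s)
    have h5 : 0 ≤ ∏ i ∈ s, (1 - x i) := Finset.prod_nonneg fun i hi => by
      have := h1 i (Finset.mem_insert_of_mem hi)
      linarith
    rw [Finset.sum_insert ha, Finset.prod_insert ha]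
    constructor
    · nlinarith
    · nlinarith

section
variable {K : Type} [Field K] [Fintype K]

theorem mem_PW {w m : ℕ} {P : K[X]} :
    P ∈ PW K w m ↔ P.Monic ∧ Irreducible P ∧ P.natDegree ≤ m ∧ w < P.natDegree := by
  unfold PW
  rw [Finset.mem_filter, mem_PU]
  tauto

omit [Fintype K] in
theorem nu_le (T : Finset K[X]) (P : K[X]) : nu T P ≤ T.card := Finset.card_image_le

omit [Fintype K] in
theorem nu_insert (T : Finset K[X]) (P u : K[X]) :
    nu (insert u T) P = nu T P ∨ nu (insert u T) P = nu T P + 1 := by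
  unfold nu
  rw [Finset.image_insert]
  by_cases h : u %ₘ P ∈ T.image (fun t => t %ₘ P)
  · left
    rw [Finset.insert_eq_self.mpr h]
  · right
    rw [Finset.card_insert_of_notMem h]

/-- the inequality at one prime -/
theorem key {k : ℕ} {T : Finset K[X]} (hT : T.card = k) {P : K[X]}
    (hQ : 4 * ((k : ℝ) + 1) ≤ (Fintype.card K : ℝ) ^ P.natDegree) (u : K[X]) :
    lf T P * (1 - 1 / (Fintype.card K : ℝ) ^ P.natDegree) *
        (1 - 4 * k * wt K P.natDegree ^ 2) ≤ lf (insert u T) P ∧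
      0 ≤ lf T P * (1 - 1 / (Fintype.card K : ℝ) ^ P.natDegree) ∧
      4 * k * wt K P.natDegree ^ 2 ≤ 1 := by
  have hk : (0 : ℝ) ≤ k := Nat.cast_nonneg k
  set Q : ℝ := (Fintype.card K : ℝ) ^ P.natDegree with hQdef
  have hQ0 : 0 < Q := by linarith
  have hw : wt K P.natDegree = Q⁻¹ := rfl
  set a : ℝ := Q⁻¹ with ha
  have ha0 : 0 < a := inv_pos.mpr hQ0
  have haQ : a * Q = 1 := inv_mul_cancel₀ hQ0.ne'
  have hka : ((k : ℝ) + 1) * a ≤ 1 / 4 := by
    have h1 : 4 * ((k : ℝ) + 1) * a ≤ Q * a := mul_le_mul_of_nonneg_right hQ ha0.le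
    nlinarith
  have hka2 : (k : ℝ) * a ≤ 1 / 4 := by nlinarith
  have ha1 : a ≤ 1 / 4 := by nlinarith
  have hν : (nu T P : ℝ) ≤ k := by
    have := nu_le T P
    rw [hT] at this
    exact_mod_cast this
  have hν0 : (0 : ℝ) ≤ nu T P := Nat.cast_nonneg _
  have e1 : lf T P = 1 - nu T P * a := by
    unfold lf
    rw [← hQdef, div_eq_mul_inv]
  have hνa : (nu T P : ℝ) * a ≤ 1 / 4 := (mul_le_mul_of_nonneg_right hν ha0.le).trans hka2
  have hx1 : 4 * (k : ℝ) * a ^ 2 ≤ 1 := by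
    have : (k : ℝ) * a * a ≤ 1 / 4 * (1 / 4) := mul_le_mul hka2 ha1 ha0.le (by norm_num)
    nlinarith
  have hx0 : 0 ≤ 4 * (k : ℝ) * a ^ 2 := by positivity
  rw [hw, e1, one_div]
  have hνa0 : 0 ≤ (nu T P : ℝ) * a := mul_nonneg hν0 ha0.le
  have hM0 : 1 / 4 ≤ (1 - (nu T P : ℝ) * a) * (1 - a) := by nlinarith
  refine ⟨?_, by linarith, hx1⟩
  rcases nu_insert T P u with h | h
  · have e2 : lf (insert u T) P = 1 - nu T P * a := by
      unfold lf
      rw [← hQdef, h, div_eq_mul_inv]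
    rw [e2, mul_assoc]
    refine mul_le_of_le_one_right (by linarith) ?_
    nlinarith
  · have e2 : lf (insert u T) P = 1 - (nu T P + 1) * a := by
      unfold lf
      rw [← hQdef, h, div_eq_mul_inv]
      push_cast
      ring
    rw [e2]
    have h3 : (nu T P : ℝ) * a ^ 2 ≤ k * a ^ 2 := mul_le_mul_of_nonneg_right hν (by positivity)
    have h4 : 1 / 4 * (4 * (k : ℝ) * a ^ 2) ≤
        (1 - (nu T P : ℝ) * a) * (1 - a) * (4 * (k : ℝ) * a ^ 2) :=
      mul_le_mul_of_nonneg_right hM0 hx0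
    have h5 : (1 - (nu T P : ℝ) * a) * (1 - a) = 1 - (nu T P + 1) * a + nu T P * a ^ 2 := by ring
    nlinarith

/-- the sum over the primes -/
theorem sum_le (w m : ℕ) : ∑ P ∈ PW K w m, wt K P.natDegree ^ 2 ≤ (1 / 2) ^ w := by
  unfold PW
  rw [Finset.sum_filter, sum_PU]
  have h : ∀ j ∈ Finset.Icc 1 m, ∑ P ∈ Irn K j,
      (if w < P.natDegree then wt K P.natDegree ^ 2 else 0) ≤
        if w < j then (1 / 2 : ℝ) ^ j else 0 := by
    intro j hj
    rw [Finset.mem_Icc] at hj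
    rw [Finset.sum_congr rfl (fun P hP => by rw [(mem_Irn.1 hP).2.1]), Finset.sum_const,
      nsmul_eq_mul]
    split_ifs with hw
    · have h1 : (j : ℝ) * (Irn K j).card ≤ (Fintype.card K : ℝ) ^ j := by
        exact_mod_cast irn_one_le (k := K) (d := j) (by omega)
      have hj1 : (1 : ℝ) ≤ j := by exact_mod_cast hj.1
      have hc : (0 : ℝ) ≤ (Irn K j).card := Nat.cast_nonneg _
      have h2 : ((Irn K j).card : ℝ) ≤ (Fintype.card K : ℝ) ^ j := by nlinarith
      have hq := q_ge (k := K)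
      have hpos : (0 : ℝ) < (Fintype.card K : ℝ) ^ j := by positivity
      have hwt0 : 0 < wt K j := by unfold wt; positivity
      have h3 : ((Irn K j).card : ℝ) * wt K j ≤ 1 := by
        calc ((Irn K j).card : ℝ) * wt K j ≤ (Fintype.card K : ℝ) ^ j * wt K j :=
              mul_le_mul_of_nonneg_right h2 hwt0.le
          _ = 1 := by unfold wt; exact mul_inv_cancel₀ hpos.ne'
      calc ((Irn K j).card : ℝ) * wt K j ^ 2 = ((Irn K j).card : ℝ) * wt K j * wt K j := by ring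
        _ ≤ 1 * wt K j := mul_le_mul_of_nonneg_right h3 hwt0.le
        _ ≤ (1 / 2) ^ j := by rw [one_mul]; exact wt_le_half j
    · rw [mul_zero]
  refine (Finset.sum_le_sum h).trans ?_
  rw [← Finset.sum_filter]
  refine le_trans (le_of_eq ?_) (geo_half_le w m)
  refine Finset.sum_congr ?_ fun _ _ => rfl
  ext j
  rw [Finset.mem_filter, Finset.mem_Icc, Finset.mem_Icc]
  omega

end

theorem main : Pool.Agent.H526.GQ.S_rlo := by
  intro K _ _ k ε hε
  obtain ⟨w₁, hw₁⟩ := exists_pow_lt_of_lt_one (show (0 : ℝ) < ε / (4 * k + 1) by positivity)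
    (show (1 / 2 : ℝ) < 1 by norm_num)
  refine ⟨max w₁ (4 * (k + 1)), fun w hw m T u hT => ?_⟩
  have hq := q_ge (k := K)
  have hk : (0 : ℝ) ≤ k := Nat.cast_nonneg k
  have hQ : ∀ P ∈ PW K w m, 4 * ((k : ℝ) + 1) ≤ (Fintype.card K : ℝ) ^ P.natDegree := by
    intro P hP
    obtain ⟨-, -, -, h4⟩ := mem_PW.mp hP
    have h5 : 4 * (k + 1) ≤ P.natDegree := (le_max_right _ _).trans (hw.trans h4.le)
    have h6 : 4 * (k + 1) ≤ 2 ^ (P.natDegree) := h5.trans Nat.lt_two_pow_self.le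
    have h7 : 4 * ((k : ℝ) + 1) ≤ 2 ^ (P.natDegree) := by exact_mod_cast h6
    exact h7.trans (pow_le_pow_left₀ (by norm_num) hq _)
  have hkey := fun P hP => key hT (hQ P hP) u
  have h1 : (1 - ε) ≤ ∏ P ∈ PW K w m, (1 - 4 * k * wt K P.natDegree ^ 2) := by
    refine le_trans ?_ (prod_ge (PW K w m) (fun P => 4 * k * wt K P.natDegree ^ 2)
      (fun P _ => by positivity) (fun P hP => (hkey P hP).2.2)).1
    have h2 : ∑ P ∈ PW K w m, 4 * (k : ℝ) * wt K P.natDegree ^ 2 ≤ 4 * (k : ℝ) * (1 / 2 : ℝ) ^ w := by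
      rw [← Finset.mul_sum]
      exact mul_le_mul_of_nonneg_left (sum_le w m) (by positivity)
    have h3 : (1 / 2 : ℝ) ^ w ≤ (1 / 2) ^ w₁ :=
      pow_le_pow_of_le_one (by norm_num) (by norm_num) ((le_max_left _ _).trans hw)
    have h4 : (1 / 2 : ℝ) ^ w ≤ ε / (4 * k + 1) := h3.trans hw₁.le
    have h5 : 4 * (k : ℝ) * (1 / 2) ^ w ≤ 4 * k * (ε / (4 * k + 1)) :=
      mul_le_mul_of_nonneg_left h4 (by positivity)
    have h6 : 4 * (k : ℝ) * (ε / (4 * k + 1)) ≤ ε := by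
      rw [← mul_div_assoc, div_le_iff₀ (by positivity)]
      nlinarith
    linarith
  have h0 : 0 ≤ ∏ P ∈ PW K w m, (lf T P * (1 - 1 / (Fintype.card K : ℝ) ^ P.natDegree)) :=
    Finset.prod_nonneg fun P hP => (hkey P hP).2.1
  calc (1 - ε) * ∏ P ∈ PW K w m, (lf T P * (1 - 1 / (Fintype.card K : ℝ) ^ P.natDegree))
      ≤ (∏ P ∈ PW K w m, (1 - 4 * k * wt K P.natDegree ^ 2)) *
          ∏ P ∈ PW K w m, (lf T P * (1 - 1 / (Fintype.card K : ℝ) ^ P.natDegree)) :=
        mul_le_mul_of_nonneg_right h1 h0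
    _ = ∏ P ∈ PW K w m, (lf T P * (1 - 1 / (Fintype.card K : ℝ) ^ P.natDegree) *
          (1 - 4 * k * wt K P.natDegree ^ 2)) := by
        rw [mul_comm, ← Finset.prod_mul_distrib]
    _ ≤ ∏ P ∈ PW K w m, lf (insert u T) P := by
        refine Finset.prod_le_prod (fun P hP => mul_nonneg (hkey P hP).2.1 ?_)
          (fun P hP => (hkey P hP).1)
        linarith [(hkey P hP).2.2]

end Pool.Agent.H526.GQ.Rlo
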