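import Pool.Agent.H526.GQ.Stm

/-!
# Project GQ (helper526), task RUP: large primes, upper bound (helper728)
-/

set_option autoImplicit false

namespace Pool.Agent.H526.GQ.Rup

open Polynomial
open scoped Classical
open Pool.Agent.H526.GQ
open Pool.Agent.H694.Typ (PU mem_PU pol exists_pol)

lemma one_le_prod {ι : Type} (s : Finset ι) (f : ι → ℝ) (h : ∀ i ∈ s, 1 ≤ f i) :
    1 ≤ ∏ i ∈ s, f i := by
  calc (1 : ℝ) = ∏ _i ∈ s, (1 : ℝ) := by rw [Finset.prod_const_one]
    _ ≤ ∏ i ∈ s, f i := Finset.prod_le_prod (fun _ _ => zero_le_one) h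

lemma le_prod {ι : Type} (s : Finset ι) (f : ι → ℝ) (h : ∀ i ∈ s, 1 ≤ f i) {i : ι} (hi : i ∈ s) :
    f i ≤ ∏ i ∈ s, f i := by
  rw [← Finset.mul_prod_erase s f hi]
  have h1 := one_le_prod (s.erase i) f (fun j hj => h j (Finset.mem_of_mem_erase hj))
  have h2 := h i hi
  nlinarith

lemma prod_le_of_subset {ι : Type} {s t : Finset ι} (f : ι → ℝ) (hst : s ⊆ t)
    (h : ∀ i ∈ t, 1 ≤ f i) : ∏ i ∈ s, f i ≤ ∏ i ∈ t, f i := by
  rw [← Finset.prod_sdiff hst]
  have h1 := one_le_prod (t \ s) f (fun j hj => h j (Finset.mem_sdiff.1 hj).1)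
  have h2 := one_le_prod s f (fun j hj => h j (hst hj))
  nlinarith

variable {K : Type} [Field K] [Fintype K]

lemma mem_PW {w m : ℕ} {P : K[X]} :
    P ∈ PW K w m ↔ (P.Monic ∧ Irreducible P ∧ P.natDegree ≤ m) ∧ w < P.natDegree := by
  unfold PW
  rw [Finset.mem_filter, mem_PU]

lemma q_ge : (2 : ℝ) ≤ (Fintype.card K : ℝ) := by
  exact_mod_cast (Fintype.one_lt_card (α := K))

lemma nu_le (T : Finset K[X]) {P : K[X]} (hP : P.Monic) :
    nu T P ≤ Fintype.card K ^ P.natDegree := by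
  unfold nu
  have h1 : T.image (fun t => t %ₘ P) ⊆
      (Finset.univ : Finset (Fin P.natDegree → K)).image pol := by
    intro x hx
    rw [Finset.mem_image] at hx
    obtain ⟨t, -, rfl⟩ := hx
    have h2 := degree_modByMonic_lt t hP
    rw [degree_eq_natDegree hP.ne_zero] at h2
    obtain ⟨c, hc⟩ := exists_pol h2
    rw [Finset.mem_image]
    exact ⟨c, Finset.mem_univ _, hc⟩
  refine (Finset.card_le_card h1).trans (Finset.card_image_le.trans ?_)
  rw [Finset.card_univ, Fintype.card_fun, Fintype.card_fin]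

lemma pw_pos (P : K[X]) : (0 : ℝ) < (Fintype.card K : ℝ) ^ P.natDegree := by
  have h := q_ge (K := K)
  positivity

lemma lf_nonneg (T : Finset K[X]) {P : K[X]} (hP : P.Monic) : 0 ≤ lf T P := by
  unfold lf
  have h1 : (nu T P : ℝ) ≤ (Fintype.card K : ℝ) ^ P.natDegree := by exact_mod_cast nu_le T hP
  have h2 := pw_pos P
  rw [sub_nonneg, div_le_one h2]
  exact h1

lemma lf_le_one (T : Finset K[X]) (P : K[X]) : lf T P ≤ 1 := by
  unfold lf
  have h2 := pw_pos P
  have h3 : 0 ≤ (nu T P : ℝ) / (Fintype.card K : ℝ) ^ P.natDegree := by positivity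
  linarith

/-- the local factor for the set with one point more -/
lemma lf_insert (T : Finset K[X]) (u : K[X]) {P : K[X]} (hP : P.Monic) :
    ((∃ t ∈ T, P ∣ u - t) → lf (insert u T) P = lf T P) ∧
    ((¬ ∃ t ∈ T, P ∣ u - t) →
      lf (insert u T) P = lf T P - 1 / (Fintype.card K : ℝ) ^ P.natDegree) := by
  have key : ∀ t : K[X], P ∣ u - t ↔ t %ₘ P = u %ₘ P := by
    intro t
    rw [← modByMonic_eq_zero_iff_dvd hP, sub_modByMonic, sub_eq_zero]
    exact eq_comm
  have hmem : (∃ t ∈ T, P ∣ u - t) ↔ u %ₘ P ∈ T.image (fun t => t %ₘ P) := by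
    rw [Finset.mem_image]
    simp only [key]
  constructor
  · intro h
    rw [hmem] at h
    unfold lf nu
    rw [Finset.image_insert, Finset.insert_eq_of_mem h]
  · intro h
    rw [hmem] at h
    unfold lf nu
    rw [Finset.image_insert, Finset.card_insert_of_notMem h]
    push_cast
    ring

lemma a_bounds {P : K[X]} (hd : 0 < P.natDegree) :
    0 < 1 - 1 / (Fintype.card K : ℝ) ^ P.natDegree ∧
      1 - 1 / (Fintype.card K : ℝ) ^ P.natDegree ≤ 1 := by
  have h := q_ge (K := K)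
  have h1 : (2 : ℝ) ≤ (Fintype.card K : ℝ) ^ P.natDegree := by
    calc (2 : ℝ) ≤ (Fintype.card K : ℝ) ^ 1 := by rw [pow_one]; exact h
      _ ≤ (Fintype.card K : ℝ) ^ P.natDegree := pow_le_pow_right₀ (by linarith) hd
  have h2 : 0 < (Fintype.card K : ℝ) ^ P.natDegree := by linarith
  have h3 : 1 / (Fintype.card K : ℝ) ^ P.natDegree ≤ 1 / 2 :=
    one_div_le_one_div_of_le (by norm_num) h1
  have h4 : 0 ≤ 1 / (Fintype.card K : ℝ) ^ P.natDegree := by positivity
  constructor <;> linarith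

lemma b_ge {P : K[X]} (hd : 0 < P.natDegree) :
    1 ≤ (1 - 1 / (Fintype.card K : ℝ) ^ P.natDegree)⁻¹ := by
  obtain ⟨h1, h2⟩ := a_bounds hd
  exact (one_le_inv₀ h1).2 h2

theorem main : Pool.Agent.H526.GQ.S_rup := by
  intro K _ _ w m D T u hT
  -- the factor for one prime
  have hone : ∀ P ∈ PW K w m, lf (insert u T) P ≤
      (lf T P * (1 - 1 / (Fintype.card K : ℝ) ^ P.natDegree)) *
        (if ∃ t ∈ T, P ∣ u - t then (1 - 1 / (Fintype.card K : ℝ) ^ P.natDegree)⁻¹ else 1) := by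
    intro P hP
    rw [mem_PW] at hP
    obtain ⟨⟨hm, -, -⟩, hw⟩ := hP
    obtain ⟨h1, h2⟩ := a_bounds (show 0 < P.natDegree by omega)
    obtain ⟨g1, g2⟩ := lf_insert T u hm
    by_cases h : ∃ t ∈ T, P ∣ u - t
    · rw [if_pos h, g1 h, mul_assoc, mul_inv_cancel₀ h1.ne', mul_one]
    · rw [if_neg h, g2 h, mul_one]
      have h3 := lf_le_one T P
      have h4 : 0 ≤ 1 / (Fintype.card K : ℝ) ^ P.natDegree := by
        have := pw_pos P
        positivity
      nlinarith
  have hstep : ∏ P ∈ PW K w m, lf (insert u T) P ≤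
      (∏ P ∈ PW K w m, (lf T P * (1 - 1 / (Fintype.card K : ℝ) ^ P.natDegree))) *
        ∏ P ∈ PW K w m,
          (if ∃ t ∈ T, P ∣ u - t then (1 - 1 / (Fintype.card K : ℝ) ^ P.natDegree)⁻¹ else 1) := by
    rw [← Finset.prod_mul_distrib]
    refine Finset.prod_le_prod (fun P hP => ?_) hone
    rw [mem_PW] at hP
    exact lf_nonneg _ hP.1.1
  have hpos : 0 ≤ ∏ P ∈ PW K w m, (lf T P * (1 - 1 / (Fintype.card K : ℝ) ^ P.natDegree)) := by
    refine Finset.prod_nonneg fun P hP => ?_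
    rw [mem_PW] at hP
    exact mul_nonneg (lf_nonneg _ hP.1.1) (a_bounds (show 0 < P.natDegree by omega)).1.le
  refine hstep.trans (mul_le_mul_of_nonneg_left ?_ hpos)
  -- the extra factors
  have hG : ∀ t : K[X], ∀ P ∈ PW K w m,
      1 ≤ (if P ∣ u - t then (1 - 1 / (Fintype.card K : ℝ) ^ P.natDegree)⁻¹ else 1) := by
    intro t P hP
    rw [mem_PW] at hP
    split_ifs
    · exact b_ge (by omega)
    · exact le_rfl
  calc ∏ P ∈ PW K w m,
          (if ∃ t ∈ T, P ∣ u - t then (1 - 1 / (Fintype.card K : ℝ) ^ P.natDegree)⁻¹ else 1)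
      ≤ ∏ P ∈ PW K w m, ∏ t ∈ T,
          (if P ∣ u - t then (1 - 1 / (Fintype.card K : ℝ) ^ P.natDegree)⁻¹ else 1) := by
        refine Finset.prod_le_prod (fun P hP => ?_) (fun P hP => ?_)
        · have hP' := hP
          rw [mem_PW] at hP'
          split_ifs
          · exact zero_le_one.trans (b_ge (by omega))
          · exact zero_le_one
        · split_ifs with h
          · obtain ⟨t, ht, htP⟩ := h
            have h1 := le_prod T (fun t => if P ∣ u - t then
              (1 - 1 / (Fintype.card K : ℝ) ^ P.natDegree)⁻¹ else 1) (fun t _ => hG t P hP) ht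
            simp only [if_pos htP] at h1
            exact h1
          · exact one_le_prod T _ (fun t _ => hG t P hP)
    _ = ∏ t ∈ T, ∏ P ∈ PW K w m,
          (if P ∣ u - t then (1 - 1 / (Fintype.card K : ℝ) ^ P.natDegree)⁻¹ else 1) :=
        Finset.prod_comm
    _ ≤ ∏ t ∈ T, Gw w D (u - t) := by
        refine Finset.prod_le_prod (fun t _ => ?_) (fun t ht => ?_)
        · exact zero_le_one.trans (one_le_prod _ _ (hG t))
        · rw [← Finset.prod_filter]
          unfold Gw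
          refine prod_le_of_subset _ ?_ ?_
          · intro P hP
            rw [Finset.mem_filter, mem_PW] at hP ⊢
            obtain ⟨⟨⟨h1, h2, -⟩, h3⟩, h4⟩ := hP
            exact ⟨⟨⟨h1, h2, (natDegree_le_of_dvd h4 (hT t ht).1).trans (hT t ht).2⟩, h3⟩, h4⟩
          · intro P hP
            rw [Finset.mem_filter, mem_PW] at hP
            exact b_ge (by omega)

end Pool.Agent.H526.GQ.Rup
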