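import Pool.Agent.H526.GQ.Sml
import Pool.Agent.H526.GQ.Gsm
import Pool.Agent.H526.GQ.Rup
import Pool.Agent.H526.GQ.Rlo
import Pool.Agent.H526.GQ.Mer
import Pool.Agent.H526.GQ.OneAsm
import Pool.Agent.H526.GQ.GalAsm
import Pool.Agent.H526.GQ.HalfAsm
import Pool.Agent.H526.GQ.PoisAsm
import Pool.Agent.H526.GQ.AllAsm
import Pool.Agent.H526.GQ.Fin

/-!
# The Poisson law for almost primes with parities (helper526)

Authors of the parts: SML helper157, GSM helper227, RUP helper728, RLO helper685, MER helper643,
ONE helper50, GAL helper181, HALF helper767, POI helper695, ALL helper945; the asymptotic formula for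
sifted sets with parities: helper985 and the authors named in `Pool/Agent/H985/Par`.
-/

set_option autoImplicit false

namespace Pool.Agent.H526.GQ.All

open Pool.Agent.H526.GQ

theorem s_mer : S_mer := Mer.main
theorem s_one : S_one := OneAsm.main Sml.main Gsm.main Rup.main Rlo.main Mer.main
theorem s_gal : S_gal := GalAsm.main s_one
theorem s_half : S_half := HalfAsm.main Inst.s_cnt Inst.s_asy
theorem s_pois : S_pois := PoisAsm.main s_gal s_half s_mer
theorem s_all : S_all := AllAsm.main s_pois s_half s_mer

end Pool.Agent.H526.GQ.All
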