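import Pool.Agent.H526.GQ.PoisOAsm
import Pool.Agent.H526.GQ.AllOAsm
import Pool.Agent.H526.GQ.All

/-!
# The Poisson law for almost primes of one parity (helper526)

POO: helper638, ALO: helper740.
-/

set_option autoImplicit false

namespace Pool.Agent.H526.GQ.AllO

open Polynomial
open scoped Classical
open Pool.Agent.H694.Typ (Mn mem_Mn PU mem_PU)
open Pool.Agent.H526.GQ

theorem s_poisO : S_poisO := PoisOAsm.main All.s_gal Inst.s_asy All.s_mer
theorem s_allO : S_allO := AllOAsm.main s_poisO Inst.s_asy All.s_mer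

/-- `x ≤ A` -/
theorem x_le (K : Type) [Field K] [Fintype K] {A : ℝ} (hA : 0 < A) {m D : ℕ}
    (hD : (Fintype.card K : ℝ) ^ (D + 1) ≤ A * m) :
    (Fintype.card K : ℝ) ^ (D + 1) * Vm K m ≤ A := by
  have b1 := (All.s_mer K).1 m
  have hm0 : (0 : ℝ) ≤ m := Nat.cast_nonneg m
  calc (Fintype.card K : ℝ) ^ (D + 1) * Vm K m ≤ (Fintype.card K : ℝ) ^ (D + 1) * (1 / ((m : ℝ) + 1)) :=
        mul_le_mul_of_nonneg_left b1 (by positivity)
    _ ≤ (A * m) * (1 / ((m : ℝ) + 1)) := mul_le_mul_of_nonneg_right hD (by positivity)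
    _ = A * (m / ((m : ℝ) + 1)) := by ring
    _ ≤ A * 1 := by
        refine mul_le_mul_of_nonneg_left ?_ hA.le
        rw [div_le_one (by positivity)]
        linarith
    _ = A := mul_one A

theorem D_lt (K : Type) [Field K] [Fintype K] {A κ : ℝ} (hA : 0 < A) {n m D : ℕ} (hm1 : 1 ≤ m)
    (hmκ : (m : ℝ) ≤ κ * n) (hκc : κ ≤ 1) (hκd : κ ≤ 1 / (A + 1))
    (hD : (Fintype.card K : ℝ) ^ (D + 1) ≤ A * m) : D < n := by
  have hmn : m ≤ n := by
    have : (m : ℝ) ≤ 1 * n := hmκ.trans (mul_le_mul_of_nonneg_right hκc (by positivity))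
    rw [one_mul] at this
    exact_mod_cast this
  have e1 : ((D + 1 : ℕ) : ℝ) ≤ (Fintype.card K : ℝ) ^ (D + 1) := by
    have e2 : D + 1 < Fintype.card K ^ (D + 1) := Nat.lt_pow_self Fintype.one_lt_card
    exact_mod_cast e2.le
  have e3 : A * m ≤ A * (1 / (A + 1) * n) :=
    mul_le_mul_of_nonneg_left (hmκ.trans (mul_le_mul_of_nonneg_right hκd (by positivity))) hA.le
  have hn0 : (0 : ℝ) < n := by
    have : 1 ≤ n := hm1.trans hmn
    exact_mod_cast this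
  have e4 : A * (1 / (A + 1) * n) < n := by
    rw [← mul_assoc, mul_one_div]
    have : A / (A + 1) < 1 := by rw [div_lt_one (by positivity)]; linarith
    nlinarith
  have e5 : ((D + 1 : ℕ) : ℝ) < n := by linarith
  have e6 : D + 1 < n := by exact_mod_cast e5
  omega

/-- the lower bound for admissible constellations -/
theorem low (K : Type) [Field K] [Fintype K] [CharP K 2] (k : ℕ)
    (A : ℝ) (hA : 0 < A) : ∃ κ c : ℝ, 0 < κ ∧ 0 < c ∧ ∃ M : ℕ, ∀ n m D : ℕ, M ≤ m →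
      (m : ℝ) ≤ κ * n → (Fintype.card K : ℝ) ^ (D + 1) ≤ A * m →
      ∀ S : Finset K[X], S.card = k → (∀ s ∈ S, s.natDegree ≤ D) →
      (∀ P : K[X], P.Monic → Irreducible P → ∃ x : K[X], ∀ s ∈ S, ¬ P ∣ x + s) →
      ∀ σ : K[X] → ℤ, (∀ s, σ s = 1 ∨ σ s = -1) → ∀ τ : ℤ, (τ = 1 ∨ τ = -1) →
        c * (Fintype.card K : ℝ) ^ n / (m : ℝ) ^ k ≤ ((ExO n m D S σ τ).card : ℝ) := by
  obtain ⟨κ₁, hκ₁, M₁, h₁⟩ := s_allO K k A (Real.exp (-A) / 2 / 2 ^ k) hA (by positivity)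
  obtain ⟨c, hc, κ₂, hκ₂, M₂, h₂⟩ := Fin.vf_low K k
  obtain ⟨κ, hκ0, hκa, hκb, hκc, hκd⟩ : ∃ κ : ℝ, 0 < κ ∧ κ ≤ κ₁ ∧ κ ≤ κ₂ ∧ κ ≤ 1 ∧
      κ ≤ 1 / (A + 1) :=
    ⟨min (min κ₁ κ₂) (min 1 (1 / (A + 1))), lt_min (lt_min hκ₁ hκ₂) (lt_min one_pos (by positivity)),
      (min_le_left _ _).trans (min_le_left _ _), (min_le_left _ _).trans (min_le_right _ _),
      (min_le_right _ _).trans (min_le_left _ _), (min_le_right _ _).trans (min_le_right _ _)⟩
  refine ⟨κ, Real.exp (-A) / 2 / 2 ^ k * c, hκ0, by positivity, max (max M₁ M₂) 1,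
    fun n m D hm hmκ hD S hS hdeg hadm σ hσ τ hτ => ?_⟩
  have hm1 : 1 ≤ m := le_trans (le_max_right _ _) hm
  have hm2 : M₁ ≤ m := le_trans (le_trans (le_max_left _ _) (le_max_left _ _)) hm
  have hm3 : M₂ ≤ m := le_trans (le_trans (le_max_right _ _) (le_max_left _ _)) hm
  have hmn : m ≤ n := by
    have : (m : ℝ) ≤ 1 * n := hmκ.trans (mul_le_mul_of_nonneg_right hκc (by positivity))
    rw [one_mul] at this
    exact_mod_cast this
  have hDn : D < n := D_lt K hA hm1 hmκ hκc hκd hD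
  have a1 := h₁ n m (hm2.trans hmn) hm2 (hmκ.trans (mul_le_mul_of_nonneg_right hκa (by positivity)))
    D hD S (fun s hs => mem_Bl.2 (hdeg s hs)) hS σ hσ τ hτ
  have a2 := h₂ n m (hm3.trans hmn) hm3 (hmκ.trans (mul_le_mul_of_nonneg_right hκb (by positivity)))
    S hS (fun s hs => lt_of_le_of_lt (hdeg s hs) hDn) hadm
  have hq : (0 : ℝ) < (Fintype.card K : ℝ) ^ n := pow_pos (by exact_mod_cast Fintype.card_pos) _
  have hmk : (0 : ℝ) < (m : ℝ) ^ k := pow_pos (by exact_mod_cast hm1) _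
  have hx : (Fintype.card K : ℝ) ^ (D + 1) * Vm K m ≤ A := x_le K hA hD
  have hx2 : (Fintype.card K : ℝ) ^ (D + 1) * Vm K m / 2 ≤ A := by
    have hcV : 0 ≤ A := hA.le
    linarith
  have hexp : Real.exp (-A) ≤ Real.exp (-((Fintype.card K : ℝ) ^ (D + 1) * Vm K m / 2)) :=
    Real.exp_le_exp.2 (neg_le_neg hx2)
  set W : ℝ := vf S m * (Fintype.card K : ℝ) ^ n with hW
  have hcm : 0 < c / (m : ℝ) ^ k := by positivity
  have hW0 : 0 ≤ W := by rw [hW]; exact mul_nonneg (hcm.le.trans a2) hq.le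
  have a3 := (abs_le.1 a1).1
  have a4 : Real.exp (-A) * W / 2 ^ k ≤
      Real.exp (-((Fintype.card K : ℝ) ^ (D + 1) * Vm K m / 2)) * W / 2 ^ k := by gcongr
  have a5 : Real.exp (-A) / 2 / 2 ^ k * W ≤ ((ExO n m D S σ τ).card : ℝ) := by
    have e1 : Real.exp (-A) / 2 / 2 ^ k * W = Real.exp (-A) * W / 2 ^ k -
        Real.exp (-A) / 2 / 2 ^ k * W := by ring
    rw [e1]
    linarith
  refine le_trans ?_ a5
  have a6 : c / (m : ℝ) ^ k * (Fintype.card K : ℝ) ^ n ≤ W :=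
    mul_le_mul_of_nonneg_right a2 hq.le
  calc Real.exp (-A) / 2 / 2 ^ k * c * (Fintype.card K : ℝ) ^ n / (m : ℝ) ^ k =
      Real.exp (-A) / 2 / 2 ^ k * (c / (m : ℝ) ^ k * (Fintype.card K : ℝ) ^ n) := by ring
    _ ≤ _ := mul_le_mul_of_nonneg_left a6 (by positivity)

end Pool.Agent.H526.GQ.AllO
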