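import Pool.Agent.H526.GQ.Stm
import Pool.Agent.H985.Par.Asy

/-!
# The theorems of helper985 on sifted sets in the notation of project GQ (helper526)
-/

set_option autoImplicit false

namespace Pool.Agent.H526.GQ.Inst

open Polynomial
open scoped Classical
open Pool.Agent.H694.Typ (Mn mem_Mn PU mem_PU)

variable {K : Type} [Field K] [Fintype K]

theorem vf_eq {k : ℕ} (T : Finset K[X]) (hT : T.card = k) (m : ℕ) :
    Pool.Agent.H225.Par.vf (PU K m)
      (fun _ => fun i => ((T.equivFinOfCardEq hT).symm i : K[X])) = vf T m := by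
  unfold Pool.Agent.H225.Par.vf vf
  refine Finset.prod_congr rfl fun P _ => ?_
  unfold Pool.Agent.H225.Par.lf lf nu Pool.Agent.H225.Par.Om
  congr 4
  ext x
  simp only [Finset.mem_image, Finset.mem_univ, true_and]
  constructor
  · rintro ⟨i, rfl⟩
    exact ⟨_, ((T.equivFinOfCardEq hT).symm i).2, rfl⟩
  · rintro ⟨t, ht, rfl⟩
    exact ⟨T.equivFinOfCardEq hT ⟨t, ht⟩, by simp⟩

theorem all_iff {k : ℕ} (T : Finset K[X]) (hT : T.card = k) (p : K[X] → Prop) :
    (∀ i, p ((T.equivFinOfCardEq hT).symm i : K[X])) ↔ ∀ t ∈ T, p t := by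
  constructor
  · intro h t ht
    have := h (T.equivFinOfCardEq hT ⟨t, ht⟩)
    simpa using this
  · intro h i
    exact h _ ((T.equivFinOfCardEq hT).symm i).2

theorem s_cnt : S_cnt := by
  intro K _ _ _ k ε hε
  obtain ⟨A, hA⟩ := Pool.Agent.H985.Par.count K k ε hε
  refine ⟨1 / (A + 1), by positivity, 1, fun n m _ hm hmκ T hT => ?_⟩
  have hAm : A * m ≤ n := by
    have h3 : ((A : ℝ) + 1) * m ≤ n := by
      calc ((A : ℝ) + 1) * m ≤ (A + 1) * (1 / (A + 1) * n) :=
            mul_le_mul_of_nonneg_left hmκ (by positivity)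
        _ = n := by field_simp
    have h4 : (A + 1) * m ≤ n := by exact_mod_cast h3
    nlinarith
  have h := hA n m hm hAm (fun i => ((T.equivFinOfCardEq hT).symm i : K[X]))
  rw [vf_eq T hT m] at h
  have e : Pool.Agent.H985.Par.Sfs K (fun i => ((T.equivFinOfCardEq hT).symm i : K[X])) n m =
      (Mn K n).filter (fun f => ∀ t ∈ T, Sft m (f + t)) := by
    unfold Pool.Agent.H985.Par.Sfs
    refine Finset.filter_congr fun f _ => ?_
    exact all_iff T hT (fun t => Sft m (f + t))
  rw [e] at h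
  exact h

theorem s_asy : S_asy := by
  intro K _ _ _ k ε hε
  obtain ⟨κ, hκ, m₀, n₀, hp⟩ := Pool.Agent.H985.Par.asy K k ε hε
  refine ⟨κ, hκ, max m₀ n₀, fun n m hn hm hmκ T hT hdeg σ hσ => ?_⟩
  have h := hp n (le_trans (le_max_right _ _) hn) m (le_trans (le_max_left _ _) hm) hmκ
    (fun i => ((T.equivFinOfCardEq hT).symm i : K[X]))
    (fun i j hij => (T.equivFinOfCardEq hT).symm.injective (Subtype.ext hij))
    (fun i => hdeg _ ((T.equivFinOfCardEq hT).symm i).2)
    (fun i => σ ((T.equivFinOfCardEq hT).symm i : K[X])) (fun i => hσ _)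
  rw [vf_eq T hT m] at h
  have e : (Pool.Agent.H985.Par.Sfs K (fun i => ((T.equivFinOfCardEq hT).symm i : K[X])) n m).filter
      (fun f => ∀ i, Pool.Agent.H985.Chow.mob (f + ((T.equivFinOfCardEq hT).symm i : K[X])) =
        σ ((T.equivFinOfCardEq hT).symm i : K[X])) =
      (Mn K n).filter (fun f => (∀ t ∈ T, Sft m (f + t)) ∧ ∀ t ∈ T, mob (f + t) = σ t) := by
    unfold Pool.Agent.H985.Par.Sfs
    rw [Finset.filter_filter]
    refine Finset.filter_congr fun f _ => ?_
    exact and_congr (all_iff T hT (fun t => Sft m (f + t)))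
      (all_iff T hT (fun t => mob (f + t) = σ t))
  rw [e] at h
  exact h

end Pool.Agent.H526.GQ.Inst
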