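import Pool.Agent.H526.GQ.MarkAsm
import Pool.Agent.H526.GQ.All

/-!
# The marked Poisson law (helper526; MRK: helper483)
-/

set_option autoImplicit false

namespace Pool.Agent.H526.GQ.Mark

open Pool.Agent.H526.GQ

theorem s_mark : S_mark := MarkAsm.main All.s_all All.s_gal All.s_half All.s_mer

end Pool.Agent.H526.GQ.Mark
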