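import Pool.Agent.H526.GQ.StmO

/-!
# The marked Poisson law (task MRK)
-/

set_option autoImplicit false

namespace Pool.Agent.H526.GQ.MarkAsm

open Polynomial Finset
open scoped Classical
open Pool.Agent.H694.Typ (Mn mem_Mn)

section
variable {K : Type} [Field K] [Fintype K]

/-- the pattern which is `σ` on `S`, `-1` on `A` and `1` elsewhere -/
noncomputable def pat (S : Finset K[X]) (σ : K[X] → ℤ) (A : Finset K[X]) (u : K[X]) : ℤ :=
  if u ∈ S then σ u else if u ∈ A then -1 else 1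

omit [Fintype K] in
theorem pat_or {S : Finset K[X]} {σ : K[X] → ℤ} (hσ : ∀ s, σ s = 1 ∨ σ s = -1) (A : Finset K[X])
    (u : K[X]) : pat S σ A u = 1 ∨ pat S σ A u = -1 := by
  unfold pat
  by_cases h : u ∈ S
  · rw [if_pos h]; exact hσ u
  · rw [if_neg h]
    by_cases h2 : u ∈ A
    · rw [if_pos h2]; exact Or.inr rfl
    · rw [if_neg h2]; exact Or.inl rfl

omit [Fintype K] in
theorem mob_or {F : K[X]} (h : Squarefree F) : mob F = 1 ∨ mob F = -1 := by
  unfold mob
  rw [if_pos h]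
  exact neg_one_pow_eq_or ℤ _

omit [Fintype K] in
theorem sqf_of_mob {F : K[X]} (h : mob F ≠ 0) : Squarefree F := by
  by_contra hn
  exact h (by unfold mob; rw [if_neg hn])

/-- the set in question -/
noncomputable def TT (n m D : ℕ) (S : Finset K[X]) (σ : K[X] → ℤ) (a b : ℕ) : Finset K[X] :=
  (Mn K n).filter (fun f => (∀ s ∈ S, Sft m (f + s) ∧ mob (f + s) = σ s) ∧
    Nt m D S (-1) f = a ∧ Nt m D S 1 f = b ∧ ∀ u ∈ Bl K D, Sft m (f + u) → Squarefree (f + u))

/-- the further sifted shifts -/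
noncomputable def US (m D : ℕ) (S : Finset K[X]) (f : K[X]) : Finset K[X] :=
  (Bl K D \ S).filter (fun u => Sft m (f + u))

/-- the further sifted shifts with an odd number of factors -/
noncomputable def AS (m D : ℕ) (S : Finset K[X]) (f : K[X]) : Finset K[X] :=
  (Bl K D \ S).filter (fun u => Sft m (f + u) ∧ mob (f + u) = -1)

theorem card_US {n m D a b : ℕ} {S : Finset K[X]} {σ : K[X] → ℤ} {f : K[X]}
    (hf : f ∈ TT n m D S σ a b) : (US m D S f).card = a + b := by
  unfold TT at hf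
  rw [mem_filter] at hf
  obtain ⟨-, -, h1, h2, h3⟩ := hf
  have e : US m D S f = AS m D S f ∪
      (Bl K D \ S).filter (fun u => Sft m (f + u) ∧ mob (f + u) = 1) := by
    ext u
    unfold US AS
    rw [mem_union, mem_filter, mem_filter, mem_filter, mem_sdiff]
    constructor
    · rintro ⟨⟨hu, hu2⟩, hu3⟩
      rcases mob_or (h3 u hu hu3) with h | h
      · exact Or.inr ⟨⟨hu, hu2⟩, hu3, h⟩
      · exact Or.inl ⟨⟨hu, hu2⟩, hu3, h⟩
    · rintro (⟨hu, hu2, -⟩ | ⟨hu, hu2, -⟩)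
      · exact ⟨hu, hu2⟩
      · exact ⟨hu, hu2⟩
  rw [e, card_union_of_disjoint]
  · exact congrArg₂ (· + ·) h1 h2
  · rw [disjoint_left]
    intro u hu hu2
    unfold AS at hu
    rw [mem_filter] at hu hu2
    rw [hu.2.2] at hu2
    exact absurd hu2.2.2 (by norm_num)

theorem fibre {n m D a b : ℕ} {S U A : Finset K[X]} (hS : S ⊆ Bl K D) {σ : K[X] → ℤ}
    (hσ : ∀ s, σ s = 1 ∨ σ s = -1) (hU : U ⊆ Bl K D \ S) (hUc : U.card = a + b) (hA : A ⊆ U)
    (hAc : A.card = a) (f : K[X]) :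
    f ∈ Ex n m D (S ∪ U) (pat S σ A) ↔
      f ∈ TT n m D S σ a b ∧ US m D S f = U ∧ AS m D S f = A := by
  have hUB : ∀ u ∈ U, u ∈ Bl K D ∧ u ∉ S := fun u hu => mem_sdiff.1 (hU hu)
  constructor
  · intro hf
    unfold Ex at hf
    rw [mem_filter] at hf
    obtain ⟨h0, h1, h2⟩ := hf
    have hUS : US m D S f = U := by
      ext u
      unfold US
      rw [mem_filter, mem_sdiff]
      constructor
      · rintro ⟨⟨hu, hu2⟩, hu3⟩
        rcases mem_union.1 ((h1 u hu).1 hu3) with h | h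
        · exact absurd h hu2
        · exact h
      · intro hu
        exact ⟨hUB u hu, (h1 u (hUB u hu).1).2 (mem_union_right _ hu)⟩
    have hAS : AS m D S f = A := by
      ext u
      unfold AS
      rw [mem_filter]
      constructor
      · rintro ⟨hu, hu2, hu3⟩
        have h : u ∈ U := by
          rw [← hUS]
          unfold US
          exact mem_filter.2 ⟨hu, hu2⟩
        have h4 := h2 u (mem_union_right _ h)
        rw [hu3] at h4
        unfold pat at h4
        rw [if_neg (hUB u h).2] at h4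
        by_contra hn
        rw [if_neg hn] at h4
        exact absurd h4 (by norm_num)
      · intro hu
        have h := hA hu
        refine ⟨hU h, (h1 u (hUB u h).1).2 (mem_union_right _ h), ?_⟩
        rw [h2 u (mem_union_right _ h)]
        unfold pat
        rw [if_neg (hUB u h).2, if_pos hu]
    refine ⟨?_, hUS, hAS⟩
    unfold TT
    rw [mem_filter]
    refine ⟨h0, fun s hs => ⟨(h1 s (hS hs)).2 (mem_union_left _ hs), ?_⟩, ?_, ?_, ?_⟩
    · rw [h2 s (mem_union_left _ hs)]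
      unfold pat
      rw [if_pos hs]
    · show (AS m D S f).card = a
      rw [hAS, hAc]
    · have e : (Bl K D \ S).filter (fun u => Sft m (f + u) ∧ mob (f + u) = 1) = U \ A := by
        ext u
        rw [mem_filter, mem_sdiff (t := A)]
        constructor
        · rintro ⟨hu, hu2, hu3⟩
          have h : u ∈ U := by
            rw [← hUS]
            unfold US
            exact mem_filter.2 ⟨hu, hu2⟩
          refine ⟨h, fun h5 => ?_⟩
          have h4 := h2 u (mem_union_right _ h)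
          rw [hu3] at h4
          unfold pat at h4
          rw [if_neg (hUB u h).2, if_pos h5] at h4
          exact absurd h4 (by norm_num)
        · rintro ⟨hu, hu2⟩
          refine ⟨hU hu, (h1 u (hUB u hu).1).2 (mem_union_right _ hu), ?_⟩
          rw [h2 u (mem_union_right _ hu)]
          unfold pat
          rw [if_neg (hUB u hu).2, if_neg hu2]
      unfold Nt
      rw [e, card_sdiff_of_subset hA, hUc, hAc]
      omega
    · intro u hu hu2
      apply sqf_of_mob
      rw [h2 u ((h1 u hu).1 hu2)]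
      rcases pat_or (S := S) hσ A u with h | h <;> rw [h] <;> norm_num
  · rintro ⟨hf, hUS, hAS⟩
    unfold TT at hf
    rw [mem_filter] at hf
    obtain ⟨h0, h1, -, -, h3⟩ := hf
    have hUm : ∀ u, u ∈ U ↔ (u ∈ Bl K D ∧ u ∉ S) ∧ Sft m (f + u) := by
      intro u
      rw [← hUS]
      unfold US
      rw [mem_filter, mem_sdiff]
    have hAm : ∀ u, u ∈ A ↔ (u ∈ Bl K D ∧ u ∉ S) ∧ Sft m (f + u) ∧ mob (f + u) = -1 := by
      intro u
      rw [← hAS]
      unfold AS
      rw [mem_filter, mem_sdiff]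
    unfold Ex
    rw [mem_filter]
    refine ⟨h0, fun u hu => ⟨fun h => ?_, fun h => ?_⟩, fun s hs => ?_⟩
    · by_cases h4 : u ∈ S
      · exact mem_union_left _ h4
      · exact mem_union_right _ ((hUm u).2 ⟨⟨hu, h4⟩, h⟩)
    · rcases mem_union.1 h with h4 | h4
      · exact (h1 u h4).1
      · exact ((hUm u).1 h4).2
    · unfold pat
      by_cases h4 : s ∈ S
      · rw [if_pos h4]
        exact (h1 s h4).2
      · rw [if_neg h4]
        have h5 : s ∈ U := by
          rcases mem_union.1 hs with h | h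
          · exact absurd h h4
          · exact h
        have h6 := (hUm s).1 h5
        by_cases h7 : s ∈ A
        · rw [if_pos h7]
          exact ((hAm s).1 h7).2.2
        · rw [if_neg h7]
          rcases mob_or (h3 s h6.1.1 h6.2) with h | h
          · exact h
          · exact absurd ((hAm s).2 ⟨h6.1, h6.2, h⟩) h7

theorem count {n m D : ℕ} {S : Finset K[X]} (hS : S ⊆ Bl K D) {σ : K[X] → ℤ}
    (hσ : ∀ s, σ s = 1 ∨ σ s = -1) (a b : ℕ) :
    (TT n m D S σ a b).card = ∑ U ∈ (Bl K D \ S).powersetCard (a + b),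
      ∑ A ∈ U.powersetCard a, (Ex n m D (S ∪ U) (pat S σ A)).card := by
  have hmap : ∀ f ∈ TT n m D S σ a b, (⟨US m D S f, AS m D S f⟩ : Σ _ : Finset K[X], Finset K[X]) ∈
      ((Bl K D \ S).powersetCard (a + b)).sigma (fun U => U.powersetCard a) := by
    intro f hf
    rw [mem_sigma, mem_powersetCard, mem_powersetCard]
    refine ⟨⟨filter_subset _ _, card_US hf⟩, ?_, ?_⟩
    · intro u hu
      unfold AS at hu
      unfold US
      rw [mem_filter] at hu ⊢
      exact ⟨hu.1, hu.2.1⟩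
    · unfold TT at hf
      rw [mem_filter] at hf
      exact hf.2.2.1
  rw [card_eq_sum_card_fiberwise hmap, sum_sigma]
  refine sum_congr rfl fun U hU => sum_congr rfl fun A hA => ?_
  rw [mem_powersetCard] at hU hA
  congr 1
  ext f
  rw [fibre hS hσ hU.1 hU.2 hA.1 hA.2, mem_filter]
  refine and_congr_right fun _ => ?_
  rw [Sigma.mk.injEq, heq_eq_eq]

theorem disj_Ex {n m D a b : ℕ} {S : Finset K[X]} {σ : K[X] → ℤ} (hab : 1 ≤ a + b) :
    Disjoint (TT n m D S σ a b) (Ex n m D S σ) := by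
  rw [disjoint_left]
  intro f hf hf2
  have h1 := card_US hf
  have h2 : (US m D S f).Nonempty := by
    rw [← card_pos]
    omega
  obtain ⟨u, hu⟩ := h2
  unfold US at hu
  rw [mem_filter, mem_sdiff] at hu
  unfold Ex at hf2
  rw [mem_filter] at hf2
  exact hu.1.2 ((hf2.2.1 u hu.1.1).1 hu.2)

theorem union_sub {n m D a b : ℕ} {S : Finset K[X]} (hS : S ⊆ Bl K D) {σ : K[X] → ℤ} :
    TT n m D S σ a b ∪ Ex n m D S σ ⊆
      (Mn K n).filter (fun f => (∀ t ∈ S ∪ ∅, Sft m (f + t)) ∧ ∀ s ∈ S, mob (f + s) = σ s) := by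
  intro f hf
  rw [mem_filter]
  rcases mem_union.1 hf with h | h
  · unfold TT at h
    rw [mem_filter] at h
    refine ⟨h.1, fun t ht => ?_, fun s hs => (h.2.1 s hs).2⟩
    rw [union_empty] at ht
    exact (h.2.1 t ht).1
  · unfold Ex at h
    rw [mem_filter] at h
    refine ⟨h.1, fun t ht => ?_, h.2.2⟩
    rw [union_empty] at ht
    exact (h.2.1 t (hS ht)).2 ht

end

theorem alg {F Fa Fb X Y Z E v Q : ℝ} (h1 : F ≠ 0) (h2 : Fa ≠ 0) (h3 : Fb ≠ 0) (h4 : Y ≠ 0)
    (h5 : Z ≠ 0) : E * (X / Y) / (Fa * Fb) * (v * Q) / Z =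
      F / (Fa * Fb) * (E * (v * X / F * Q) / (Z * Y)) := by
  field_simp

/-- the final estimate, for many shifts -/
theorem arith1 {TTc C E Sg vS Qn x fj e B ε P P2 T0 : ℝ} (hC : 0 ≤ C) (hE0 : 0 ≤ E) (hE : E ≤ 1)
    (hQ : 0 ≤ Qn) (hvS : 0 ≤ vS) (hx : 0 ≤ x) (hxB : x ≤ B) (hfj : 1 ≤ fj) (he : 0 ≤ e) (he1 : e ≤ 1)
    (hP : 1 ≤ P) (hP2 : P2 = P) (hε : 3 * C * B * e ≤ ε)
    (h1 : |TTc - C * (E * (Sg * Qn) / P)| ≤ C * (e * (Sg * Qn)))
    (h2 : |Sg - vS * x / fj| ≤ e * (vS * x))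
    (hT0 : T0 = C * (E * (vS * x / fj * Qn) / P2)) : |TTc - T0| ≤ ε * (vS * Qn) := by
  subst hP2
  have hB : 0 ≤ B := hx.trans hxB
  have h3 : vS * x / fj ≤ vS * B := (div_le_self (by positivity) hfj).trans (by gcongr)
  have h4 : e * (vS * x) ≤ e * (vS * B) := by gcongr
  have h5 : e * (vS * B) ≤ 1 * (vS * B) := by gcongr
  have h6 : Sg ≤ 2 * (vS * B) := by
    have := (abs_le.1 h2).2
    linarith
  have h7 : C * (e * (Sg * Qn)) ≤ C * (e * ((2 * (vS * B)) * Qn)) := by gcongr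
  have h8 : |C * (E * (Sg * Qn) / P2) - T0| ≤ C * (1 * ((e * (vS * B)) * Qn)) := by
    rw [hT0]
    have e1 : C * (E * (Sg * Qn) / P2) - C * (E * (vS * x / fj * Qn) / P2) =
        C * (E / P2 * ((Sg - vS * x / fj) * Qn)) := by ring
    rw [e1, abs_mul, abs_of_nonneg hC]
    refine mul_le_mul_of_nonneg_left ?_ hC
    rw [abs_mul, abs_mul, abs_of_nonneg hQ, abs_of_nonneg (show 0 ≤ E / P2 by positivity)]
    have e2 : E / P2 ≤ 1 := by
      rw [div_le_one (by linarith)]
      linarith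
    exact mul_le_mul e2 (mul_le_mul_of_nonneg_right (h2.trans h4) hQ) (by positivity) zero_le_one
  have h9 : 3 * C * B * e * (vS * Qn) ≤ ε * (vS * Qn) := mul_le_mul_of_nonneg_right hε (by positivity)
  calc |TTc - T0| ≤ |TTc - C * (E * (Sg * Qn) / P2)| + |C * (E * (Sg * Qn) / P2) - T0| :=
        abs_sub_le _ _ _
    _ ≤ C * (e * ((2 * (vS * B)) * Qn)) + C * (1 * ((e * (vS * B)) * Qn)) :=
        add_le_add (h1.trans h7) h8
    _ = 3 * C * B * e * (vS * Qn) := by ring
    _ ≤ _ := h9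

/-- the final estimate for few shifts -/
theorem arith2 {TTc Ec H W x P e ε T0 : ℝ} (hW : 0 ≤ W) (hx : 0 ≤ x) (hxε : x ≤ ε / 4)
    (hP : 1 ≤ P) (he : e ≤ ε / 4) (hT : 0 ≤ TTc) (hT0 : 0 ≤ T0) (hT1 : T0 ≤ x * W)
    (h1 : TTc + Ec ≤ H) (h2 : |Ec - Real.exp (-x) * W / P| ≤ e * W) (h3 : |H - W / P| ≤ e * W) :
    |TTc - T0| ≤ ε * W := by
  have e1 : 1 - x ≤ Real.exp (-x) := by
    have := Real.add_one_le_exp (-x)
    linarith
  obtain ⟨V, hV⟩ : ∃ V, V = W / P := ⟨_, rfl⟩
  have hV0 : 0 ≤ V := by rw [hV]; positivity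
  have hVW : V ≤ W := by
    rw [hV]
    exact div_le_self hW hP
  rw [mul_div_assoc, ← hV] at h2
  rw [← hV] at h3
  rw [abs_le] at h2 h3 ⊢
  have f1 : (1 - x) * V ≤ Real.exp (-x) * V := mul_le_mul_of_nonneg_right e1 hV0
  have f2 : x * V ≤ ε / 4 * W := mul_le_mul hxε hVW hV0 (hx.trans hxε)
  have f3 : x * W ≤ ε / 4 * W := mul_le_mul_of_nonneg_right hxε hW
  have f4 : e * W ≤ ε / 4 * W := mul_le_mul_of_nonneg_right he hW
  have f5 : 0 ≤ ε * W := mul_nonneg (by linarith) hW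
  constructor
  · linarith
  · linarith [h2.1, h3.2]

theorem main : S_markasm := by
  intro hall hgal hhalf hmer K _ _ _ k a b A ε hA hε
  obtain ⟨B, hB⟩ : ∃ B : ℝ, B = (1 + A) ^ (a + b) := ⟨_, rfl⟩
  have hB1 : 1 ≤ B := by rw [hB]; exact one_le_pow₀ (by linarith)
  obtain ⟨C, hC⟩ : ∃ C : ℝ, C = ((a + b).choose a : ℝ) := ⟨_, rfl⟩
  have hC0 : 0 ≤ C := by rw [hC]; positivity
  obtain ⟨e, he⟩ : ∃ e : ℝ, e = min 1 (min (ε / 4) (ε / (3 * C * B + 1))) := ⟨_, rfl⟩
  have hCB : 0 < 3 * C * B + 1 := by positivity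
  have he0 : 0 < e := by rw [he]; positivity
  have he1 : e ≤ 1 := by rw [he]; exact min_le_left _ _
  have he2 : e ≤ ε / 4 := by rw [he]; exact (min_le_right _ _).trans (min_le_left _ _)
  have he3 : 3 * C * B * e ≤ ε := by
    have h1 : e ≤ ε / (3 * C * B + 1) := by rw [he]; exact (min_le_right _ _).trans (min_le_right _ _)
    rw [le_div_iff₀ hCB] at h1
    linarith
  obtain ⟨κ₁, hκ₁, M₁, h1⟩ := hall K (k + (a + b)) A e hA he0
  obtain ⟨D₀, h2⟩ := hgal K k (a + b) e he0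
  obtain ⟨κ₃, hκ₃, M₃, h3⟩ := hall K k A e hA he0
  obtain ⟨κ₄, hκ₄, M₄, h4⟩ := hhalf K k 0 e he0
  have hm := (hmer K).1
  have hq : (1 : ℝ) ≤ (Fintype.card K : ℝ) := by
    exact_mod_cast Nat.one_le_iff_ne_zero.2 Fintype.card_ne_zero
  have hq0 : (0 : ℝ) < (Fintype.card K : ℝ) := by linarith
  obtain ⟨δ, hδ⟩ : ∃ δ : ℝ, δ = min 1 (ε / 4) := ⟨_, rfl⟩
  have hδ0 : 0 < δ := by rw [hδ]; positivity
  obtain ⟨M₅, hM₅⟩ := exists_nat_ge ((Fintype.card K : ℝ) ^ (D₀ + 1) / δ)
  refine ⟨min κ₁ (min κ₃ κ₄), lt_min hκ₁ (lt_min hκ₃ hκ₄), M₁ + M₃ + M₄ + M₅ + D₀ + 1, ?_⟩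
  intro n m hn hmM hmn D hD S hS hSk σ hσ
  have hn0 : (0 : ℝ) ≤ (n : ℝ) := Nat.cast_nonneg n
  have hm0 : (0 : ℝ) ≤ (m : ℝ) := Nat.cast_nonneg m
  have hmn1 : (m : ℝ) ≤ κ₁ * n := hmn.trans (mul_le_mul_of_nonneg_right (min_le_left _ _) hn0)
  have hmn3 : (m : ℝ) ≤ κ₃ * n := hmn.trans
    (mul_le_mul_of_nonneg_right ((min_le_right _ _).trans (min_le_left _ _)) hn0)
  have hmn4 : (m : ℝ) ≤ κ₄ * n := hmn.trans
    (mul_le_mul_of_nonneg_right ((min_le_right _ _).trans (min_le_right _ _)) hn0)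
  have hV0 : 0 ≤ Vm K m := by
    unfold Vm
    refine Finset.prod_nonneg fun P _ => ?_
    have e1 : (1 : ℝ) ≤ (Fintype.card K : ℝ) ^ P.natDegree := one_le_pow₀ hq
    have e2 : 1 / (Fintype.card K : ℝ) ^ P.natDegree ≤ 1 := by
      rw [div_le_one (by linarith)]
      exact e1
    linarith
  have h3' := h3 n m (by omega) (by omega) hmn3 D hD S hS hSk σ hσ
  have hall1 : ∀ (U A' : Finset K[X]), U ∈ (Bl K D \ S).powersetCard (a + b) →
      |((Ex n m D (S ∪ U) (pat S σ A')).card : ℝ) -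
        Real.exp (-((Fintype.card K : ℝ) ^ (D + 1) * Vm K m)) *
          (vf (S ∪ U) m * (Fintype.card K : ℝ) ^ n) / 2 ^ (k + (a + b))| ≤
            e * (vf (S ∪ U) m * (Fintype.card K : ℝ) ^ n) := by
    intro U A' hU
    rw [mem_powersetCard] at hU
    refine h1 n m (by omega) (by omega) hmn1 D hD (S ∪ U)
      (union_subset hS (hU.1.trans sdiff_subset)) ?_ _ (pat_or hσ A')
    rw [card_union_of_disjoint, hSk, hU.2]
    exact disjoint_left.2 fun u hu hu2 => (mem_sdiff.1 (hU.1 hu2)).2 hu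
  obtain ⟨x, hx⟩ : ∃ x : ℝ, x = (Fintype.card K : ℝ) ^ (D + 1) * Vm K m := ⟨_, rfl⟩
  have hx0 : 0 ≤ x := by rw [hx]; positivity
  have hxA : x ≤ A := by
    rw [hx]
    calc (Fintype.card K : ℝ) ^ (D + 1) * Vm K m ≤ (A * m) * (1 / ((m : ℝ) + 1)) :=
          mul_le_mul hD (hm m) hV0 (by positivity)
      _ ≤ A := by
        rw [mul_one_div, div_le_iff₀ (by positivity)]
        linarith
  have hQ : 0 < (Fintype.card K : ℝ) ^ n := by positivity
  have hW : 0 ≤ vf S m * (Fintype.card K : ℝ) ^ n :=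
    nonneg_of_mul_nonneg_right ((abs_nonneg _).trans h3') he0
  have hvS : 0 ≤ vf S m := nonneg_of_mul_nonneg_left hW hQ
  have hP1 : (1 : ℝ) ≤ 2 ^ k := one_le_pow₀ (by norm_num)
  have hTT : (Mn K n).filter (fun f => (∀ s ∈ S, Sft m (f + s) ∧ mob (f + s) = σ s) ∧
      Nt m D S (-1) f = a ∧ Nt m D S 1 f = b ∧ ∀ u ∈ Bl K D, Sft m (f + u) → Squarefree (f + u)) =
      TT n m D S σ a b := rfl
  rw [hTT, ← hx]
  rw [← hx] at h3'
  have hT0 : 0 ≤ Real.exp (-x) * (x / 2) ^ (a + b) /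
      ((Nat.factorial a : ℝ) * (Nat.factorial b : ℝ)) * (vf S m * (Fintype.card K : ℝ) ^ n) / 2 ^ k := by
    positivity
  by_cases hcase : D₀ ≤ D ∨ a + b = 0
  · -- many shifts
    have h2' : |∑ U ∈ (Bl K D \ S).powersetCard (a + b), vf (S ∪ U) m -
        vf S m * x ^ (a + b) / (Nat.factorial (a + b) : ℝ)| ≤ e * (vf S m * x ^ (a + b)) := by
      rw [hx]
      rcases hcase with h | h
      · exact h2 D h m S hS hSk
      · rw [h, powersetCard_zero, sum_singleton, union_empty, pow_zero, Nat.factorial_zero,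
          Nat.cast_one, div_one, mul_one, sub_self, abs_zero]
        positivity
    have hfj : (1 : ℝ) ≤ (Nat.factorial (a + b) : ℝ) := by exact_mod_cast Nat.factorial_pos (a + b)
    have hxB : x ^ (a + b) ≤ B := by
      rw [hB]
      exact pow_le_pow_left₀ hx0 (by linarith) _
    refine arith1 (C := C) (E := Real.exp (-x)) (Sg := ∑ U ∈ (Bl K D \ S).powersetCard (a + b),
      vf (S ∪ U) m) (x := x ^ (a + b)) (fj := (Nat.factorial (a + b) : ℝ)) (e := e) (B := B)
      (P := 2 ^ (k + (a + b))) (P2 := 2 ^ (k + (a + b))) hC0 (Real.exp_pos _).le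
      (Real.exp_le_one_iff.2 (by linarith)) hQ.le hvS (pow_nonneg hx0 _) hxB hfj he0.le he1
      (one_le_pow₀ (by norm_num)) rfl he3 ?_ h2' ?_
    · rw [count hS hσ a b]
      push_cast
      have e1 : C * (Real.exp (-x) * ((∑ U ∈ (Bl K D \ S).powersetCard (a + b), vf (S ∪ U) m) *
          (Fintype.card K : ℝ) ^ n) / 2 ^ (k + (a + b))) =
          ∑ U ∈ (Bl K D \ S).powersetCard (a + b), ∑ _A' ∈ U.powersetCard a,
            Real.exp (-x) * (vf (S ∪ U) m * (Fintype.card K : ℝ) ^ n) / 2 ^ (k + (a + b)) := by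
        rw [sum_mul, mul_sum, sum_div, mul_sum]
        refine sum_congr rfl fun U hU => ?_
        rw [sum_const, card_powersetCard, (mem_powersetCard.1 hU).2, nsmul_eq_mul, hC]
      have e2 : C * (e * ((∑ U ∈ (Bl K D \ S).powersetCard (a + b), vf (S ∪ U) m) *
          (Fintype.card K : ℝ) ^ n)) =
          ∑ U ∈ (Bl K D \ S).powersetCard (a + b), ∑ _A' ∈ U.powersetCard a,
            e * (vf (S ∪ U) m * (Fintype.card K : ℝ) ^ n) := by
        rw [sum_mul, mul_sum, mul_sum]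
        refine sum_congr rfl fun U hU => ?_
        rw [sum_const, card_powersetCard, (mem_powersetCard.1 hU).2, nsmul_eq_mul, hC]
      rw [e1, e2, ← sum_sub_distrib]
      refine (abs_sum_le_sum_abs _ _).trans (sum_le_sum fun U hU => ?_)
      rw [← sum_sub_distrib]
      refine (abs_sum_le_sum_abs _ _).trans (sum_le_sum fun A' _ => ?_)
      have h5 := hall1 U A' hU
      rw [← hx] at h5
      exact h5
    · have h6 : ((a + b).choose a : ℝ) * (Nat.factorial a : ℝ) * (Nat.factorial b : ℝ) =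
          (Nat.factorial (a + b) : ℝ) := by
        rw [Nat.choose_symm_add]
        exact_mod_cast Nat.add_choose_mul_factorial_mul_factorial a b
      have ha : (0 : ℝ) < (Nat.factorial a : ℝ) := by exact_mod_cast Nat.factorial_pos a
      have hb : (0 : ℝ) < (Nat.factorial b : ℝ) := by exact_mod_cast Nat.factorial_pos b
      have hCp : C = (Nat.factorial (a + b) : ℝ) / ((Nat.factorial a : ℝ) * (Nat.factorial b : ℝ)) := by
        rw [hC, ← h6]
        field_simp
      have hfp : (0 : ℝ) < (Nat.factorial (a + b) : ℝ) := by linarith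
      have hY : (0 : ℝ) < 2 ^ (a + b) := by positivity
      have hZ : (0 : ℝ) < 2 ^ k := by positivity
      rw [hCp, div_pow, pow_add 2 k (a + b)]
      exact alg hfp.ne' ha.ne' hb.ne' hY.ne' hZ.ne'
  · -- few shifts
    rw [not_or, not_le] at hcase
    obtain ⟨hDD, hab⟩ := hcase
    have hab1 : 1 ≤ a + b := Nat.one_le_iff_ne_zero.2 hab
    have hxδ : x ≤ δ := by
      have e1 : (M₅ : ℝ) ≤ m := by exact_mod_cast (by omega : M₅ ≤ m)
      have e2 := hM₅.trans e1
      rw [div_le_iff₀ hδ0] at e2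
      have e3 : x ≤ (Fintype.card K : ℝ) ^ (D₀ + 1) * (1 / ((m : ℝ) + 1)) := by
        rw [hx]
        exact mul_le_mul (pow_le_pow_right₀ hq (by omega)) (hm m) hV0 (by positivity)
      refine e3.trans ?_
      rw [mul_one_div, div_le_iff₀ (by linarith)]
      nlinarith
    have hx1 : x ≤ 1 := hxδ.trans (by rw [hδ]; exact min_le_left _ _)
    have hxε : x ≤ ε / 4 := hxδ.trans (by rw [hδ]; exact min_le_right _ _)
    have h4' := h4 n m (by omega) (by omega) hmn4 S ∅ hSk card_empty (disjoint_empty_right S)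
      (fun t ht => by
        rw [union_empty] at ht
        have := mem_Bl.1 (hS ht)
        omega) σ hσ
    have hVS : vf (S ∪ ∅) m = vf S m := by rw [union_empty]
    rw [hVS] at h4'
    refine arith2 (Ec := ((Ex n m D S σ).card : ℝ)) (H := (((Mn K n).filter (fun f =>
      (∀ t ∈ S ∪ ∅, Sft m (f + t)) ∧ ∀ s ∈ S, mob (f + s) = σ s)).card : ℝ)) hW hx0 hxε hP1 he2
      (Nat.cast_nonneg _) hT0 ?_ ?_ h3' h4'
    · have e1 : Real.exp (-x) ≤ 1 := Real.exp_le_one_iff.2 (by linarith)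
      have e2 : (x / 2) ^ (a + b) ≤ x := by
        calc (x / 2) ^ (a + b) ≤ (x / 2) ^ 1 :=
              pow_le_pow_of_le_one (by linarith) (by linarith) hab1
          _ ≤ x := by rw [pow_one]; linarith
      have e3 : (1 : ℝ) ≤ (Nat.factorial a : ℝ) * (Nat.factorial b : ℝ) := by
        exact_mod_cast Nat.mul_pos (Nat.factorial_pos a) (Nat.factorial_pos b)
      have e4 : Real.exp (-x) * (x / 2) ^ (a + b) ≤ 1 * x :=
        mul_le_mul e1 e2 (by positivity) zero_le_one
      have e5 : Real.exp (-x) * (x / 2) ^ (a + b) /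
          ((Nat.factorial a : ℝ) * (Nat.factorial b : ℝ)) ≤ x :=
        (div_le_self (by positivity) e3).trans (by linarith)
      refine (div_le_self (by positivity) hP1).trans ?_
      exact mul_le_mul_of_nonneg_right e5 hW
    · have e1 := card_le_card (union_sub (n := n) (m := m) (a := a) (b := b) (σ := σ) hS)
      rw [card_union_of_disjoint (disj_Ex hab1)] at e1
      exact_mod_cast e1

end Pool.Agent.H526.GQ.MarkAsm
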