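import Pool.Agent.H526.GQ.Stm

/-!
# Project GQ, task SML: exact equidistribution modulo the primes of small degree
-/

set_option autoImplicit false

namespace Pool.Agent.H526.GQ.Sml

open Polynomial
open scoped Classical
open Pool.Agent.H694.Typ (Mn mem_Mn PU mem_PU Irn mem_Irn pol pol_degree pol_inj exists_pol)

/-- the polynomials of degree less than `L` -/
noncomputable def Bn (K : Type) [Field K] [Fintype K] (L : ℕ) : Finset K[X] :=
  Finset.univ.image (pol : (Fin L → K) → K[X])

section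

variable {K : Type} [Field K] [Fintype K]

theorem mem_Bn {L : ℕ} {u : K[X]} : u ∈ Bn K L ↔ u.degree < (L : WithBot ℕ) := by
  unfold Bn
  rw [Finset.mem_image]
  constructor
  · rintro ⟨c, -, rfl⟩
    exact pol_degree c
  · intro h
    obtain ⟨c, hc⟩ := exists_pol h
    exact ⟨c, Finset.mem_univ _, hc⟩

theorem card_Bn (L : ℕ) : (Bn K L).card = Fintype.card K ^ L := by
  unfold Bn
  rw [Finset.card_image_of_injective _ pol_inj, Finset.card_univ, Fintype.card_fun,
    Fintype.card_fin]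

theorem mod_mem {P : K[X]} (hP : P.Monic) (u : K[X]) : u %ₘ P ∈ Bn K P.natDegree := by
  rw [mem_Bn]
  have h := degree_modByMonic_lt u hP
  rwa [degree_eq_natDegree hP.ne_zero] at h

theorem div_mem {W : K[X]} (hW : W.Monic) {L : ℕ} {u : K[X]} (hu : u ∈ Bn K L) :
    u /ₘ W ∈ Bn K (L - W.natDegree) := by
  rw [mem_Bn] at hu ⊢
  by_cases h0 : u /ₘ W = 0
  · rw [h0, degree_zero]
    exact WithBot.bot_lt_coe _
  · rw [degree_eq_natDegree h0, natDegree_divByMonic u hW]
    have h1 : ¬ u.degree < W.degree := fun h => h0 ((divByMonic_eq_zero_iff hW).2 h)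
    have hu0 : u ≠ 0 := by
      rintro rfl
      exact h0 (by simp)
    rw [degree_eq_natDegree hu0, degree_eq_natDegree hW.ne_zero] at h1
    rw [degree_eq_natDegree hu0] at hu
    have h2 : u.natDegree < L := by exact_mod_cast hu
    have h3 : ¬ u.natDegree < W.natDegree := fun h => h1 (by exact_mod_cast h)
    exact_mod_cast (show u.natDegree - W.natDegree < L - W.natDegree by omega)

omit [Fintype K] in
theorem dvd_of_mod {P : K[X]} (hP : P.Monic) {u v : K[X]} (h : u %ₘ P = v %ₘ P) : P ∣ u - v := by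
  rw [← modByMonic_eq_zero_iff_dvd hP, sub_modByMonic, h, sub_self]

omit [Fintype K] in
theorem mod_of_dvd {P : K[X]} (hP : P.Monic) {u v : K[X]} (h : P ∣ u - v) : u %ₘ P = v %ₘ P := by
  rw [← modByMonic_eq_zero_iff_dvd hP, sub_modByMonic, sub_eq_zero] at h
  exact h

omit [Fintype K] in
theorem coprime_of_ne {P Q : K[X]} (hP : P.Monic) (hP' : Irreducible P) (hQ : Q.Monic)
    (hQ' : Irreducible Q) (hPQ : P ≠ Q) : IsCoprime P Q := by
  rcases hP'.coprime_iff_not_dvd.2 with h
  apply h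
  intro hd
  exact hPQ (eq_of_monic_of_associated hP hQ (hP'.associated_of_dvd hQ' hd))

/-- the Chinese remainder theorem with weights -/
theorem crt (R : Finset K[X]) (hR : ∀ P ∈ R, P.Monic ∧ Irreducible P) (L : ℕ)
    (hL : ∑ P ∈ R, P.natDegree ≤ L) (F : K[X] → K[X] → ℝ) :
    ∑ u ∈ Bn K L, ∏ P ∈ R, F P (u %ₘ P) =
      (Fintype.card K : ℝ) ^ (L - ∑ P ∈ R, P.natDegree) *
        ∏ P ∈ R, ∑ r ∈ Bn K P.natDegree, F P r := by
  set W : K[X] := ∏ P ∈ R, P with hWdef
  have hW : W.Monic := monic_prod_of_monic _ _ fun P hP => (hR P hP).1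
  have hWd : W.natDegree = ∑ P ∈ R, P.natDegree :=
    natDegree_prod_of_monic _ _ fun P hP => (hR P hP).1
  rw [← hWd] at hL ⊢
  set Φ : K[X] → K[X] × (∀ P ∈ R, K[X]) := fun u => (u /ₘ W, fun P _ => u %ₘ P) with hΦ
  set Tg : Finset (K[X] × (∀ P ∈ R, K[X])) :=
    Bn K (L - W.natDegree) ×ˢ R.pi (fun P => Bn K P.natDegree) with hTg
  have hinj : Set.InjOn Φ (Bn K L : Set K[X]) := by
    intro u _ v _ huv
    have h1 : u /ₘ W = v /ₘ W := congrArg Prod.fst huv
    have h2 : ∀ P ∈ R, u %ₘ P = v %ₘ P := fun P hP =>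
      congrFun (congrFun (congrArg Prod.snd huv) P) hP
    have h3 : W ∣ u - v := by
      refine Finset.prod_dvd_of_coprime ?_ ?_
      · intro P hP Q hQ hPQ
        have hP1 := hR P hP
        have hQ1 := hR Q hQ
        exact coprime_of_ne hP1.1 hP1.2 hQ1.1 hQ1.2 hPQ
      · intro P hP
        exact dvd_of_mod (hR P hP).1 (h2 P hP)
    have h4 := mod_of_dvd hW h3
    rw [← modByMonic_add_div u W, ← modByMonic_add_div v W, h4, h1]
  have hmaps : (Bn K L).image Φ ⊆ Tg := by
    intro z hz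
    rw [Finset.mem_image] at hz
    obtain ⟨u, hu, rfl⟩ := hz
    rw [hTg, Finset.mem_product]
    refine ⟨div_mem hW hu, ?_⟩
    rw [Finset.mem_pi]
    intro P hP
    exact mod_mem (hR P hP).1 u
  have hcard : Tg.card ≤ ((Bn K L).image Φ).card := by
    rw [Finset.card_image_of_injOn hinj, hTg, Finset.card_product, Finset.card_pi, card_Bn, card_Bn]
    simp only [card_Bn]
    rw [Finset.prod_pow_eq_pow_sum, ← hWd, ← pow_add]
    refine le_of_eq ?_
    congr 1
    omega
  have heq : (Bn K L).image Φ = Tg := Finset.eq_of_subset_of_card_le hmaps hcard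
  have h1 : ∑ z ∈ Tg, ∏ x ∈ R.attach, F x.1 (z.2 x.1 x.2) =
      ∑ u ∈ Bn K L, ∏ P ∈ R, F P (u %ₘ P) := by
    rw [← heq, Finset.sum_image hinj]
    refine Finset.sum_congr rfl fun u _ => ?_
    exact Finset.prod_attach R (fun P => F P (u %ₘ P))
  rw [← h1, hTg, Finset.sum_product]
  simp only [Finset.sum_const]
  rw [card_Bn, nsmul_eq_mul, Finset.prod_sum, Nat.cast_pow]

/-- the sum over the residues of one prime -/
theorem one_prime (T : Finset K[X]) {P : K[X]} (hP : P.Monic) :
    ∑ r ∈ Bn K P.natDegree, lf (insert r T) P =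
      (Fintype.card K : ℝ) ^ P.natDegree *
        (lf T P * (1 - 1 / (Fintype.card K : ℝ) ^ P.natDegree)) := by
  set A : Finset K[X] := T.image (fun t => t %ₘ P) with hA
  have hAB : A ⊆ Bn K P.natDegree := by
    intro a ha
    rw [hA, Finset.mem_image] at ha
    obtain ⟨t, _, rfl⟩ := ha
    exact mod_mem hP t
  have hq : (0 : ℝ) < (Fintype.card K : ℝ) ^ P.natDegree := by
    have : 0 < Fintype.card K := Fintype.card_pos
    positivity
  set N : ℝ := (Fintype.card K : ℝ) ^ P.natDegree with hN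
  have hself : ∀ r ∈ Bn K P.natDegree, r %ₘ P = r := by
    intro r hr
    rw [modByMonic_eq_self_iff hP, degree_eq_natDegree hP.ne_zero]
    exact mem_Bn.1 hr
  have h1 : ∀ r ∈ Bn K P.natDegree, lf (insert r T) P =
      (1 - ((A.card : ℝ) + 1) / N) + (if r ∈ A then 1 / N else 0) := by
    intro r hr
    unfold lf nu
    rw [Finset.image_insert, hself r hr, ← hA]
    by_cases hrA : r ∈ A
    · rw [Finset.insert_eq_of_mem hrA, if_pos hrA]
      ring
    · rw [Finset.card_insert_of_notMem hrA, if_neg hrA]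
      push_cast
      ring
  rw [Finset.sum_congr rfl h1, Finset.sum_add_distrib, Finset.sum_const, nsmul_eq_mul, card_Bn,
    ← Finset.sum_filter, Finset.filter_mem_eq_inter, Finset.inter_eq_right.2 hAB,
    Finset.sum_const, nsmul_eq_mul]
  have h2 : lf T P = 1 - (A.card : ℝ) / N := rfl
  rw [h2, Nat.cast_pow, ← hN]
  field_simp
  ring

end

/-- Task SML -/
theorem main : Pool.Agent.H526.GQ.S_sml := by
  intro K _ _ w D T hD
  have hR : ∀ P ∈ PU K w, P.Monic ∧ Irreducible P := fun P hP =>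
    ⟨(mem_PU.1 hP).1, (mem_PU.1 hP).2.1⟩
  have h0 : Bl K D = Bn K (D + 1) := rfl
  have h1 : ∀ u ∈ Bl K D, ∏ P ∈ PU K w, lf (insert u T) P =
      ∏ P ∈ PU K w, (fun P r => lf (insert r T) P) P (u %ₘ P) := by
    intro u _
    refine Finset.prod_congr rfl fun P hP => ?_
    have hPm := (hR P hP).1
    show lf (insert u T) P = lf (insert (u %ₘ P) T) P
    unfold lf nu
    rw [Finset.image_insert, Finset.image_insert]
    have e : (u %ₘ P) %ₘ P = u %ₘ P := by
      rw [modByMonic_eq_self_iff hPm]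
      exact degree_modByMonic_lt u hPm
    rw [e]
  have h3 := crt (PU K w) hR (D + 1) hD (fun P r => lf (insert r T) P)
  rw [Finset.sum_congr rfl h1, h0]
  refine h3.trans ?_
  have h2 : ∀ P ∈ PU K w, ∑ r ∈ Bn K P.natDegree, (fun P r => lf (insert r T) P) P r =
      (Fintype.card K : ℝ) ^ P.natDegree *
        (lf T P * (1 - 1 / (Fintype.card K : ℝ) ^ P.natDegree)) := fun P hP =>
    one_prime T (hR P hP).1
  rw [Finset.prod_congr rfl h2, Finset.prod_mul_distrib, Finset.prod_pow_eq_pow_sum, ← mul_assoc,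
    ← pow_add]
  congr 2
  omega

end Pool.Agent.H526.GQ.Sml
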