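import Pool.Agent.H526.GQ.Stm

/-!
# Gaps between almost primes of one parity (helper526, project GQ): statements
-/

namespace Pool.Agent.H526.GQ

open Polynomial
open scoped Classical
open Pool.Agent.H694.Typ (Mn)

/-- The monic `f` of degree `n` such that the `f + s`, `s ∈ S`, are sifted and have the parities
`σ`, and no other sifted polynomial in the ball of radius `q ^ D` about `f` has the parity `τ`. -/
noncomputable def ExO {K : Type} [Field K] [Fintype K] (n m D : ℕ) (S : Finset K[X])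
    (σ : K[X] → ℤ) (τ : ℤ) : Finset K[X] :=
  (Mn K n).filter (fun f => (∀ s ∈ S, Sft m (f + s) ∧ mob (f + s) = σ s) ∧
    ∀ u ∈ Bl K D, u ∉ S → ¬ (Sft m (f + u) ∧ mob (f + u) = τ))

/-- **Task POO.**  The Poisson law for the sifted polynomials of one parity, `D ≥ D₀`. -/
def S_poisO : Prop :=
  ∀ (K : Type) [Field K] [Fintype K] [CharP K 2] (k : ℕ) (A ε : ℝ), 0 < A → 0 < ε →
    ∃ κ : ℝ, 0 < κ ∧ ∃ M D₀ : ℕ, ∀ n m : ℕ, M ≤ n → M ≤ m → (m : ℝ) ≤ κ * n →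
      ∀ D : ℕ, D₀ ≤ D → (Fintype.card K : ℝ) ^ (D + 1) ≤ A * m →
      ∀ S : Finset K[X], S ⊆ Bl K D → S.card = k →
      ∀ σ : K[X] → ℤ, (∀ s, σ s = 1 ∨ σ s = -1) → ∀ τ : ℤ, (τ = 1 ∨ τ = -1) →
        |((ExO n m D S σ τ).card : ℝ) -
          Real.exp (-((Fintype.card K : ℝ) ^ (D + 1) * Vm K m / 2)) *
            (vf S m * (Fintype.card K : ℝ) ^ n) / 2 ^ k| ≤
              ε * (vf S m * (Fintype.card K : ℝ) ^ n)

/-- **Task ALO.**  The same for all `D`. -/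
def S_allO : Prop :=
  ∀ (K : Type) [Field K] [Fintype K] [CharP K 2] (k : ℕ) (A ε : ℝ), 0 < A → 0 < ε →
    ∃ κ : ℝ, 0 < κ ∧ ∃ M : ℕ, ∀ n m : ℕ, M ≤ n → M ≤ m → (m : ℝ) ≤ κ * n →
      ∀ D : ℕ, (Fintype.card K : ℝ) ^ (D + 1) ≤ A * m →
      ∀ S : Finset K[X], S ⊆ Bl K D → S.card = k →
      ∀ σ : K[X] → ℤ, (∀ s, σ s = 1 ∨ σ s = -1) → ∀ τ : ℤ, (τ = 1 ∨ τ = -1) →
        |((ExO n m D S σ τ).card : ℝ) -
          Real.exp (-((Fintype.card K : ℝ) ^ (D + 1) * Vm K m / 2)) *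
            (vf S m * (Fintype.card K : ℝ) ^ n) / 2 ^ k| ≤
              ε * (vf S m * (Fintype.card K : ℝ) ^ n)

def S_poisOasm : Prop := S_gal → S_asy → S_mer → S_poisO
def S_allOasm : Prop := S_poisO → S_asy → S_mer → S_allO

/-- The number of the sifted `f + u`, `deg u ≤ D`, `u ∉ S`, with `μ (f + u) = τ`. -/
noncomputable def Nt {K : Type} [Field K] [Fintype K] (m D : ℕ) (S : Finset K[X]) (τ : ℤ)
    (f : K[X]) : ℕ :=
  ((Bl K D \ S).filter (fun u => Sft m (f + u) ∧ mob (f + u) = τ)).card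

/-- **Task MRK.**  The marked Poisson law: `a` further sifted polynomials in the ball with an odd and
`b` with an even number of factors, all of them squarefree. -/
def S_mark : Prop :=
  ∀ (K : Type) [Field K] [Fintype K] [CharP K 2] (k a b : ℕ) (A ε : ℝ), 0 < A → 0 < ε →
    ∃ κ : ℝ, 0 < κ ∧ ∃ M : ℕ, ∀ n m : ℕ, M ≤ n → M ≤ m → (m : ℝ) ≤ κ * n →
      ∀ D : ℕ, (Fintype.card K : ℝ) ^ (D + 1) ≤ A * m →
      ∀ S : Finset K[X], S ⊆ Bl K D → S.card = k →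
      ∀ σ : K[X] → ℤ, (∀ s, σ s = 1 ∨ σ s = -1) →
        |(((Mn K n).filter (fun f => (∀ s ∈ S, Sft m (f + s) ∧ mob (f + s) = σ s) ∧
          Nt m D S (-1) f = a ∧ Nt m D S 1 f = b ∧
            ∀ u ∈ Bl K D, Sft m (f + u) → Squarefree (f + u))).card : ℝ) -
          Real.exp (-((Fintype.card K : ℝ) ^ (D + 1) * Vm K m)) *
            ((Fintype.card K : ℝ) ^ (D + 1) * Vm K m / 2) ^ (a + b) /
              ((Nat.factorial a : ℝ) * (Nat.factorial b : ℝ)) *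
            (vf S m * (Fintype.card K : ℝ) ^ n) / 2 ^ k| ≤
              ε * (vf S m * (Fintype.card K : ℝ) ^ n)

def S_markasm : Prop := S_all → S_gal → S_half → S_mer → S_mark

end Pool.Agent.H526.GQ
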